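import Pool.Agent.Lib_helper39.RSF.Defs
import Pool.Agent.Lib_helper39.RSE.Defs
import Pool.Agent.Lib_helper39.RSA.DefsB
import Pool.Agent.Lib_helper39.RSA.FEK
/-!
# RSE block DFO: the Euler factor at `2`
-/

namespace Pool.Agent.RSF

open Pool.Agent.RSE

open Complex MeasureTheory Filter Topology
open Pool.Agent.RC (cc psi rv f0 IsRC Good gm pr DD)
open scoped ContDiff

theorem rse_dfo_fast {g : ℝ → ℝ} (hg : Ker1 g) : ∃ C : ℝ, ∀ z, |g z| ≤ C * Real.exp (-(2 * z)) := by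
  obtain ⟨C, hC⟩ := hg.fast 0 2 (by norm_num)
  refine ⟨C, fun z => ?_⟩
  have := hC z
  rw [iteratedDeriv_zero] at this
  rw [show -(2 * z) = -2 * z by ring]
  exact this

/-- `2^a (2k+1)` -/
def rse_dfo_i (p : ℕ × ℕ) : ℕ := 2 ^ p.1 * (2 * p.2 + 1)

theorem rse_dfo_inj : Function.Injective rse_dfo_i := by
  rintro ⟨a, k⟩ ⟨b, l⟩ h
  simp only [rse_dfo_i] at h
  have h1 : ∀ a k : ℕ, (2 ^ a * (2 * k + 1)).factorization 2 = a := by
    intro a k
    rw [Nat.factorization_mul (by positivity) (by positivity), Nat.factorization_pow]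
    have h2 : (2 * k + 1).factorization 2 = 0 := by
      apply Nat.factorization_eq_zero_of_not_dvd
      omega
    simp [h2, Nat.Prime.factorization Nat.prime_two]
  have h3 := h1 a k
  rw [h, h1] at h3
  subst h3
  have h4 : 2 * k + 1 = 2 * l + 1 := Nat.eq_of_mul_eq_mul_left (by positivity) h
  have h5 : k = l := by omega
  rw [h5]

theorem rse_dfo_range {n : ℕ} (hn : 0 < n) : n ∈ Set.range rse_dfo_i := by
  obtain ⟨a, m, hm, h⟩ := Nat.exists_eq_two_pow_mul_odd hn.ne'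
  obtain ⟨k, rfl⟩ := hm
  exact ⟨(a, k), by simp [rse_dfo_i, h]⟩

theorem rse_dfo_sqrt_pow (a : ℕ) : √((2 : ℝ) ^ a) = ((2 : ℝ) ^ (-(a : ℝ) / 2))⁻¹ := by
  rw [Real.sqrt_eq_rpow, ← Real.rpow_natCast, ← Real.rpow_mul (by norm_num), ← Real.rpow_neg
    (by norm_num)]
  congr 1
  ring

theorem rse_dfo_t (g : ℝ → ℝ) (j : Fin 4) (m a k : ℕ) (u : ℝ) :
    rse_fek_t g j m (rse_dfo_i (a, k)) u = (rv j m (2 ^ a) : ℝ) * (2 : ℝ) ^ (-(a : ℝ) / 2) *
      rse_fek_t g j m (2 * k + 1) (u + a * Real.log 2) := by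
  unfold rse_fek_t rse_dfo_i
  have hk : (0 : ℝ) < ((2 * k + 1 : ℕ) : ℝ) := by positivity
  rw [if_pos (by positivity), if_pos (by positivity), Pool.Agent.RC.rc_rgd_rv_mul]
  push_cast
  have h1 : √((2 : ℝ) ^ a * (2 * k + 1)) = √((2 : ℝ) ^ a) * √(2 * k + 1) :=
    Real.sqrt_mul (by positivity) _
  have h2 : Real.log ((2 : ℝ) ^ a * (2 * k + 1)) = a * Real.log 2 + Real.log (2 * k + 1) := by
    rw [Real.log_mul (by positivity) (by positivity), Real.log_pow]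
  rw [h1, h2, rse_dfo_sqrt_pow]
  rw [show (a : ℝ) * Real.log 2 + Real.log (2 * k + 1) + u = Real.log (2 * k + 1) +
    (u + a * Real.log 2) by ring]
  have h3 : (0 : ℝ) < (2 : ℝ) ^ (-(a : ℝ) / 2) := by positivity
  have h4 : (0 : ℝ) < √(2 * k + 1) := Real.sqrt_pos.mpr (by positivity)
  field_simp

theorem rse_dfo_DO (g : ℝ → ℝ) (j : Fin 4) (m : ℕ) (u : ℝ) :
    DO g j m u = ∑' k : ℕ, rse_fek_t g j m (2 * k + 1) u := by
  have hinj : Function.Injective (fun k : ℕ => 2 * k + 1) := by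
    intro a b h
    simp only at h
    omega
  have h1 := hinj.tsum_eq (f := fun n : ℕ => if Odd n then (rv j m n : ℝ) / √(n : ℝ) *
    g (Real.log n + u) else 0) (by
      intro n hn
      simp only [Function.mem_support, ne_eq, ite_eq_right_iff, Classical.not_imp] at hn
      obtain ⟨k, hk⟩ := hn.1
      exact ⟨k, hk.symm⟩)
  unfold DO
  rw [← h1]
  refine tsum_congr fun k => ?_
  unfold rse_fek_t
  rw [if_pos ⟨k, rfl⟩, if_pos (by positivity)]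

theorem df_do_pr {g : ℝ → ℝ} (hg : Ker1 g) (j : Fin 4) (m : ℕ) (u : ℝ) :
    Summable (fun a : ℕ => (rv j m (2 ^ a) : ℝ) * (2 : ℝ) ^ (-(a : ℝ) / 2) *
      DO g j m (u + a * Real.log 2)) ∧
    DF g j m u = ∑' a : ℕ, (rv j m (2 ^ a) : ℝ) * (2 : ℝ) ^ (-(a : ℝ) / 2) *
      DO g j m (u + a * Real.log 2) := by
  obtain ⟨C, hC⟩ := rse_dfo_fast hg
  have hs := rse_fek_t_sum hC j m u
  have hs2 : Summable (fun p : ℕ × ℕ => rse_fek_t g j m (rse_dfo_i p) u) :=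
    hs.comp_injective rse_dfo_inj
  have h1 : ∀ a : ℕ, ∑' k : ℕ, rse_fek_t g j m (rse_dfo_i (a, k)) u =
      (rv j m (2 ^ a) : ℝ) * (2 : ℝ) ^ (-(a : ℝ) / 2) * DO g j m (u + a * Real.log 2) := by
    intro a
    rw [rse_dfo_DO, ← tsum_mul_left]
    exact tsum_congr fun k => rse_dfo_t g j m a k u
  have h2 := rse_dfo_inj.tsum_eq (f := fun n => rse_fek_t g j m n u) (by
    intro n hn
    apply rse_dfo_range
    by_contra h0
    apply hn
    simp only [rse_fek_t, if_neg h0])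
  refine ⟨?_, ?_⟩
  · have h3 := hs2.prod
    refine h3.congr fun a => ?_
    exact h1 a
  · rw [rse_fek_DF]
    simp only
    rw [← h2, hs2.tsum_prod]
    exact tsum_congr h1

/-- boundedness of `DO` to the right -/
theorem rse_dfo_DO_bd {g : ℝ → ℝ} {C : ℝ} (hC : ∀ z, |g z| ≤ C * Real.exp (-(2 * z)))
    (j : Fin 4) (m : ℕ) : ∃ B : ℝ, 0 ≤ B ∧ ∀ u : ℝ, |DO g j m u| ≤ B * Real.exp (-(2 * u)) := by
  have hC0 : 0 ≤ C := by
    have := (abs_nonneg _).trans (hC 0)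
    simpa using this
  have h1 : Summable (fun k : ℕ => (1 / ((2 * k + 1 : ℕ) : ℝ) ^ 2)) := by
    have h2 := Real.summable_one_div_nat_pow.2 (by norm_num : 1 < 2)
    have hinj : Function.Injective (fun k : ℕ => 2 * k + 1) := by
      intro a b h
      simp only at h
      omega
    exact h2.comp_injective hinj
  refine ⟨C * ∑' k : ℕ, (1 / ((2 * k + 1 : ℕ) : ℝ) ^ 2),
    mul_nonneg hC0 (tsum_nonneg fun k => by positivity), fun u => ?_⟩
  rw [rse_dfo_DO, mul_right_comm, ← tsum_mul_left, ← Real.norm_eq_abs]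
  refine tsum_of_norm_bounded (h1.mul_left _).hasSum fun k => ?_
  rw [Real.norm_eq_abs]
  exact rse_fek_t_bd hC j m _ u

theorem rse_dfo_ff {g Θ : ℝ → ℝ} (hg : Ker1 g) (L : ℝ) (R : ℕ) (j : Fin 4) (m : ℕ) (u : ℝ) :
    Summable (fun a : ℕ => (rv j m (2 ^ a) : ℝ) * (2 : ℝ) ^ (-(a : ℝ) / 2) *
      fo g Θ L R j m (u + a * Real.log 2)) ∧
    ff g Θ L R j m u = ∑' a : ℕ, (rv j m (2 ^ a) : ℝ) * (2 : ℝ) ^ (-(a : ℝ) / 2) *
      fo g Θ L R j m (u + a * Real.log 2) := by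
  have h1 : ∀ k l : ℕ, HasSum (fun a : ℕ => be Θ L R k * be Θ L R l *
      (rv j m (k * l) : ℝ) / √((k : ℝ) * l) * ((rv j m (2 ^ a) : ℝ) * (2 : ℝ) ^ (-(a : ℝ) / 2) *
      DO g j m ((u + Real.log k - Real.log l) + a * Real.log 2)))
      (be Θ L R k * be Θ L R l * (rv j m (k * l) : ℝ) / √((k : ℝ) * l) *
        DF g j m (u + Real.log k - Real.log l)) := by
    intro k l
    obtain ⟨h2, h3⟩ := df_do_pr hg j m (u + Real.log k - Real.log l)
    rw [h3]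
    exact h2.hasSum.mul_left _
  have h2 : HasSum (fun a : ℕ => ∑ k ∈ KL L, ∑ l ∈ KL L, be Θ L R k * be Θ L R l *
      (rv j m (k * l) : ℝ) / √((k : ℝ) * l) * ((rv j m (2 ^ a) : ℝ) * (2 : ℝ) ^ (-(a : ℝ) / 2) *
      DO g j m ((u + Real.log k - Real.log l) + a * Real.log 2))) (ff g Θ L R j m u) := by
    unfold ff
    exact hasSum_sum fun k _ => hasSum_sum fun l _ => h1 k l
  have h3 : (fun a : ℕ => ∑ k ∈ KL L, ∑ l ∈ KL L, be Θ L R k * be Θ L R l *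
      (rv j m (k * l) : ℝ) / √((k : ℝ) * l) * ((rv j m (2 ^ a) : ℝ) * (2 : ℝ) ^ (-(a : ℝ) / 2) *
      DO g j m ((u + Real.log k - Real.log l) + a * Real.log 2))) =
      (fun a : ℕ => (rv j m (2 ^ a) : ℝ) * (2 : ℝ) ^ (-(a : ℝ) / 2) *
      fo g Θ L R j m (u + a * Real.log 2)) := by
    funext a
    unfold fo
    rw [Finset.mul_sum]
    refine Finset.sum_congr rfl fun k _ => ?_
    rw [Finset.mul_sum]
    refine Finset.sum_congr rfl fun l _ => ?_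
    rw [show u + Real.log k - Real.log l + a * Real.log 2 =
      u + a * Real.log 2 + Real.log k - Real.log l by ring]
    ring
  rw [h3] at h2
  exact ⟨h2.summable, h2.tsum_eq.symm⟩

theorem rse_dfo_c : Summable (fun a : ℕ => (2 : ℝ) ^ (-(a : ℝ) / 2)) ∧
    ∑' a : ℕ, (2 : ℝ) ^ (-(a : ℝ) / 2) ≤ 4 := by
  have h1 : ∀ a : ℕ, (2 : ℝ) ^ (-(a : ℝ) / 2) = ((√2)⁻¹) ^ a := by
    intro a
    rw [Real.sqrt_eq_rpow, ← Real.rpow_neg (by norm_num), ← Real.rpow_natCast, ← Real.rpow_mul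
      (by norm_num)]
    congr 1
    ring
  have h2 : (√2)⁻¹ ≤ (3 / 4 : ℝ) := by
    have h3 : (4 / 3 : ℝ) ≤ √2 := by
      apply Real.le_sqrt_of_sq_le
      norm_num
    have h4 : (√2)⁻¹ ≤ (4 / 3 : ℝ)⁻¹ := inv_anti₀ (by norm_num) h3
    norm_num at h4
    linarith
  have h3 : 0 ≤ (√2)⁻¹ := by positivity
  simp only [h1]
  refine ⟨summable_geometric_of_lt_one h3 (by linarith), ?_⟩
  rw [tsum_geometric_of_lt_one h3 (by linarith)]
  have h5 : (4 : ℝ) = (1 - 3 / 4)⁻¹ := by norm_num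
  rw [h5]
  exact inv_anti₀ (by norm_num) (by linarith)

theorem ff_le_pr {g Θ : ℝ → ℝ} (hg : Ker1 g) (L : ℝ) (R : ℕ) (j : Fin 4) (m : ℕ) (u : ℝ) :
    Summable (fun a : ℕ => (2 : ℝ) ^ (-(a : ℝ) / 2) *
      fo g Θ L R j m (u + a * Real.log 2) ^ 2) ∧
    ff g Θ L R j m u ^ 2 ≤ 4 * ∑' a : ℕ, (2 : ℝ) ^ (-(a : ℝ) / 2) *
      fo g Θ L R j m (u + a * Real.log 2) ^ 2 := by
  obtain ⟨C, hC⟩ := rse_dfo_fast hg
  obtain ⟨B, hB0, hB⟩ := rse_dfo_DO_bd hC j m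
  obtain ⟨hc, hc4⟩ := rse_dfo_c
  -- bound of `fo`
  obtain ⟨M, hM⟩ : ∃ M : ℝ, ∀ a : ℕ, |fo g Θ L R j m (u + a * Real.log 2)| ≤ M := by
    refine ⟨∑ k ∈ KL L, ∑ l ∈ KL L, |be Θ L R k * be Θ L R l * (rv j m (k * l) : ℝ) /
      √((k : ℝ) * l)| * (B * Real.exp (-(2 * (u + Real.log k - Real.log l)))), fun a => ?_⟩
    unfold fo
    refine (Finset.abs_sum_le_sum_abs _ _).trans (Finset.sum_le_sum fun k _ => ?_)
    refine (Finset.abs_sum_le_sum_abs _ _).trans (Finset.sum_le_sum fun l _ => ?_)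
    rw [abs_mul]
    refine mul_le_mul_of_nonneg_left ((hB _).trans ?_) (abs_nonneg _)
    refine mul_le_mul_of_nonneg_left ?_ hB0
    rw [Real.exp_le_exp]
    have h1 : 0 ≤ (a : ℝ) * Real.log 2 := by positivity
    linarith
  have hsum : Summable (fun a : ℕ => (2 : ℝ) ^ (-(a : ℝ) / 2) *
      fo g Θ L R j m (u + a * Real.log 2) ^ 2) := by
    refine Summable.of_nonneg_of_le (fun a => by positivity) (fun a => ?_) (hc.mul_right (M ^ 2))
    refine mul_le_mul_of_nonneg_left ?_ (by positivity)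
    rw [← sq_abs]
    exact pow_le_pow_left₀ (abs_nonneg _) (hM a) 2
  refine ⟨hsum, ?_⟩
  obtain ⟨h1, h2⟩ := rse_dfo_ff (Θ := Θ) hg L R j m u
  set S : ℝ := ∑' a : ℕ, (2 : ℝ) ^ (-(a : ℝ) / 2) * fo g Θ L R j m (u + a * Real.log 2) ^ 2
    with hS
  have hfin : ∀ s : Finset ℕ, (∑ a ∈ s, (rv j m (2 ^ a) : ℝ) * (2 : ℝ) ^ (-(a : ℝ) / 2) *
      fo g Θ L R j m (u + a * Real.log 2)) ^ 2 ≤ 4 * S := by
    intro s
    have h3 := Finset.sum_mul_sq_le_sq_mul_sq s (fun a : ℕ => √((2 : ℝ) ^ (-(a : ℝ) / 2)))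
      (fun a : ℕ => √((2 : ℝ) ^ (-(a : ℝ) / 2)) * ((rv j m (2 ^ a) : ℝ) *
        fo g Θ L R j m (u + a * Real.log 2)))
    have h4 : ∀ a : ℕ, √((2 : ℝ) ^ (-(a : ℝ) / 2)) * (√((2 : ℝ) ^ (-(a : ℝ) / 2)) *
        ((rv j m (2 ^ a) : ℝ) * fo g Θ L R j m (u + a * Real.log 2))) =
        (rv j m (2 ^ a) : ℝ) * (2 : ℝ) ^ (-(a : ℝ) / 2) *
        fo g Θ L R j m (u + a * Real.log 2) := by
      intro a
      rw [← mul_assoc, Real.mul_self_sqrt (by positivity)]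
      ring
    simp only [h4] at h3
    refine h3.trans ?_
    have h5 : ∑ a ∈ s, √((2 : ℝ) ^ (-(a : ℝ) / 2)) ^ 2 ≤ 4 := by
      refine le_trans ?_ hc4
      simp only [Real.sq_sqrt (by positivity : (0 : ℝ) ≤ (2 : ℝ) ^ (-((_ : ℕ) : ℝ) / 2))]
      exact hc.sum_le_tsum s fun a _ => by positivity
    have h6 : ∑ a ∈ s, (√((2 : ℝ) ^ (-(a : ℝ) / 2)) * ((rv j m (2 ^ a) : ℝ) *
        fo g Θ L R j m (u + a * Real.log 2))) ^ 2 ≤ S := by
      refine le_trans (Finset.sum_le_sum fun a _ => ?_) (hsum.sum_le_tsum s fun a _ => by positivity)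
      rw [mul_pow, Real.sq_sqrt (by positivity)]
      refine mul_le_mul_of_nonneg_left ?_ (by positivity)
      rw [mul_pow]
      have h7 : (rv j m (2 ^ a) : ℝ) ^ 2 ≤ 1 := by
        rw [← sq_abs]
        exact pow_le_one₀ (abs_nonneg _) (Pool.Agent.RC.rc_der_rv_abs j m _)
      nlinarith [sq_nonneg (fo g Θ L R j m (u + a * Real.log 2))]
    exact mul_le_mul h5 h6 (Finset.sum_nonneg fun a _ => by positivity) (by norm_num)
  rw [h2]
  have h3 := (h1.hasSum.pow 2)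
  exact le_of_tendsto h3 (Filter.Eventually.of_forall hfin)

end Pool.Agent.RSF

namespace Pool.Agent.RSF

open Pool.Agent.RSE

alias df_do := df_do_pr

alias ff_le := ff_le_pr

end Pool.Agent.RSF
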