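import Pool.Agent.Lib_helper39.RSF.Defs
import Pool.Agent.Lib_helper39.RSE.Defs
import Pool.Agent.Lib_helper39.RSA.DefsB
import Pool.Agent.Lib_helper39.RSF.DFO
/-!
# RSE block DOD: `m = m1 m2²`
-/

namespace Pool.Agent.RSF

open Pool.Agent.RSE

open Complex MeasureTheory Filter Topology
open Pool.Agent.RC (cc psi rv f0 IsRC Good gm pr DD)
open scoped ContDiff

theorem rse_dod_rv (j : Fin 4) {m1 m2 : ℕ} (h1 : Odd m1) (h2 : Odd m2) (n : ℕ) :
    rv j (m1 * m2 ^ 2) n = if n.Coprime m2 then rv j m1 n else 0 := by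
  have hm1 : m1 ≠ 0 := by rintro rfl; simp at h1
  have hm2 : m2 ≠ 0 := by rintro rfl; simp at h2
  unfold rv
  rw [jacobiSym.mul_right' _ hm1 (pow_ne_zero 2 hm2), jacobiSym.pow_right]
  split_ifs with h
  · rw [jacobiSym.sq_one]
    · ring
    · rw [Int.gcd_natCast_natCast]
      exact h
  · have h3 : jacobiSym (n : ℤ) m2 = 0 := by
      rw [jacobiSym.eq_zero_iff]
      refine ⟨hm2, ?_⟩
      rw [Int.gcd_natCast_natCast]
      exact h
    rw [h3]
    ring

theorem rse_dod_moebius {n N : ℕ} (hn : n ≠ 0) (hN : N ≠ 0) :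
    ∑ d ∈ sd N, (if d ∣ n then (ArithmeticFunction.moebius d : ℝ) else 0) =
      if n.Coprime N then 1 else 0 := by
  unfold sd
  rw [Finset.sum_filter]
  have h1 : ∀ d ∈ N.divisors, (if Squarefree d then
      (if d ∣ n then (ArithmeticFunction.moebius d : ℝ) else 0) else 0) =
      if d ∣ n then (ArithmeticFunction.moebius d : ℝ) else 0 := by
    intro d _
    by_cases hs : Squarefree d
    · rw [if_pos hs]
    · rw [if_neg hs, ArithmeticFunction.moebius_eq_zero_of_not_squarefree hs]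
      simp
  rw [Finset.sum_congr rfl h1, ← Finset.sum_filter]
  have h2 : N.divisors.filter (fun d => d ∣ n) = (n.gcd N).divisors := by
    ext d
    simp only [Finset.mem_filter, Nat.mem_divisors, Nat.dvd_gcd_iff]
    constructor
    · rintro ⟨⟨ha, -⟩, hb⟩
      exact ⟨⟨hb, ha⟩, Nat.gcd_ne_zero_left hn⟩
    · rintro ⟨⟨ha, hb⟩, -⟩
      exact ⟨⟨hb, hN⟩, ha⟩
  rw [h2]
  have h3 : ∑ d ∈ (n.gcd N).divisors, (ArithmeticFunction.moebius d : ℝ) =
      ((∑ d ∈ (n.gcd N).divisors, ArithmeticFunction.moebius d : ℤ) : ℝ) := by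
    push_cast
    rfl
  rw [h3, ← ArithmeticFunction.coe_mul_zeta_apply, ArithmeticFunction.moebius_mul_coe_zeta,
    ArithmeticFunction.one_apply]
  unfold Nat.Coprime
  split_ifs <;> simp

theorem rse_dod_mem {d N : ℕ} (h : d ∈ sd N) : 0 < d := by
  unfold sd at h
  rw [Finset.mem_filter] at h
  exact Nat.pos_of_mem_divisors h.1

theorem rse_dod_t (g : ℝ → ℝ) (j : Fin 4) (m : ℕ) {d : ℕ} (hd : 0 < d) (n : ℕ) (u : ℝ) :
    rse_fek_t g j m (d * n) u = (rv j m d : ℝ) / √(d : ℝ) *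
      rse_fek_t g j m n (u + Real.log d) := by
  unfold rse_fek_t
  by_cases hn : 0 < n
  · have hd' : (0 : ℝ) < d := by exact_mod_cast hd
    have hn' : (0 : ℝ) < n := by exact_mod_cast hn
    rw [if_pos (Nat.mul_pos hd hn), if_pos hn, Pool.Agent.RC.rc_rgd_rv_mul]
    push_cast
    rw [Real.sqrt_mul hd'.le, Real.log_mul hd'.ne' hn'.ne',
      show Real.log d + Real.log n + u = Real.log n + (u + Real.log d) by ring]
    have h1 : (0 : ℝ) < √(d : ℝ) := Real.sqrt_pos.mpr hd'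
    have h2 : (0 : ℝ) < √(n : ℝ) := Real.sqrt_pos.mpr hn'
    field_simp
  · have hn0 : n = 0 := by omega
    subst hn0
    simp

/-- multiples of `d` -/
theorem rse_dod_mult {g : ℝ → ℝ} (hg : Ker1 g) (j : Fin 4) (m : ℕ) {d : ℕ} (hd : 0 < d) (u : ℝ) :
    HasSum (fun n : ℕ => if d ∣ n then rse_fek_t g j m n u else 0)
      ((rv j m d : ℝ) / √(d : ℝ) * DF g j m (u + Real.log d)) := by
  obtain ⟨C, hC⟩ := rse_dfo_fast hg
  have hinj : Function.Injective (fun n : ℕ => d * n) := by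
    intro a b h
    exact Nat.eq_of_mul_eq_mul_left hd h
  have h1 : HasSum (fun n : ℕ => rse_fek_t g j m (d * n) u)
      ((rv j m d : ℝ) / √(d : ℝ) * DF g j m (u + Real.log d)) := by
    have h2 := (rse_fek_t_sum hC j m (u + Real.log d)).hasSum.mul_left
      ((rv j m d : ℝ) / √(d : ℝ))
    have h4 : (fun n : ℕ => rse_fek_t g j m (d * n) u) = fun n : ℕ =>
        (rv j m d : ℝ) / √(d : ℝ) * rse_fek_t g j m n (u + Real.log d) :=
      funext fun n => rse_dod_t g j m hd n u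
    rw [h4]
    exact h2
  have h3 : (fun n : ℕ => rse_fek_t g j m (d * n) u) =
      (fun n : ℕ => if d ∣ n then rse_fek_t g j m n u else 0) ∘ (fun n : ℕ => d * n) := by
    funext n
    simp
  rw [h3] at h1
  refine (hinj.hasSum_iff ?_).mp h1
  intro n hn
  rw [if_neg]
  rintro ⟨k, rfl⟩
  exact hn ⟨k, rfl⟩

theorem rse_dod_do {g : ℝ → ℝ} (hg : Ker1 g) (j : Fin 4) {m1 m2 : ℕ} (h1 : Odd m1) (h2 : Odd m2)
    (u : ℝ) : HasSum (fun n : ℕ => if Odd n then (rv j (m1 * m2 ^ 2) n : ℝ) / √(n : ℝ) *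
      g (Real.log n + u) else 0) (∑ d ∈ sd (2 * m2),
      (ArithmeticFunction.moebius d : ℝ) * ((rv j m1 d : ℝ) / √(d : ℝ) *
        DF g j m1 (u + Real.log d))) := by
  have hm2 : m2 ≠ 0 := by rintro rfl; simp at h2
  have h3 : HasSum (fun n : ℕ => ∑ d ∈ sd (2 * m2), (ArithmeticFunction.moebius d : ℝ) *
      (if d ∣ n then rse_fek_t g j m1 n u else 0)) (∑ d ∈ sd (2 * m2),
      (ArithmeticFunction.moebius d : ℝ) * ((rv j m1 d : ℝ) / √(d : ℝ) *
        DF g j m1 (u + Real.log d))) :=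
    hasSum_sum fun d hd => (rse_dod_mult hg j m1 (rse_dod_mem hd) u).mul_left _
  refine HasSum.congr_fun h3 fun n => ?_
  rcases Nat.eq_zero_or_pos n with rfl | hn
  · have : ¬ Odd 0 := by simp
    simp [rse_fek_t]
  · have h4 : ∀ d : ℕ, (ArithmeticFunction.moebius d : ℝ) *
        (if d ∣ n then rse_fek_t g j m1 n u else 0) =
        (if d ∣ n then (ArithmeticFunction.moebius d : ℝ) else 0) * rse_fek_t g j m1 n u := by
      intro d
      split_ifs <;> ring
    simp only [h4]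
    rw [← Finset.sum_mul, rse_dod_moebius hn.ne' (by omega), rse_dod_rv j h1 h2]
    unfold rse_fek_t
    rw [if_pos hn]
    by_cases ho : Odd n
    · rw [if_pos ho]
      have hc2 : n.Coprime 2 := Nat.coprime_comm.mp (Nat.coprime_two_left.mpr ho)
      by_cases hc : n.Coprime m2
      · rw [if_pos hc, if_pos (Nat.Coprime.mul_right hc2 hc), one_mul]
      · rw [if_neg hc, if_neg fun h => hc (Nat.Coprime.coprime_mul_left_right h)]
        simp
    · rw [if_neg ho, if_neg, zero_mul]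
      intro h
      apply ho
      exact Nat.coprime_two_left.mp (Nat.coprime_comm.mp (Nat.Coprime.coprime_mul_right_right h))

theorem do_dec_pr {g : ℝ → ℝ} (hg : Ker1 g) (j : Fin 4) {m1 m2 : ℕ} (h1 : Odd m1) (h2 : Odd m2)
    (u : ℝ) : DO g j (m1 * m2 ^ 2) u = ∑ d ∈ sd (2 * m2),
      (ArithmeticFunction.moebius d : ℝ) * (rv j m1 d : ℝ) / √(d : ℝ) *
        DF g j m1 (u + Real.log d) := by
  have h3 := (rse_dod_do hg j h1 h2 u).tsum_eq
  unfold DO
  rw [h3]
  refine Finset.sum_congr rfl fun d _ => ?_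
  ring

theorem fo_dec_pr {g : ℝ → ℝ} (hg : Ker1 g) (Θ : ℝ → ℝ) (L : ℝ) (j : Fin 4) {m1 m2 : ℕ}
    (h1 : Odd m1) (h2 : Odd m2) (u : ℝ) : fo g Θ L 1 j (m1 * m2 ^ 2) u = ∑ d ∈ sd (2 * m2),
      (ArithmeticFunction.moebius d : ℝ) * (rv j m1 d : ℝ) / √(d : ℝ) *
        ff g Θ L m2 j m1 (u + Real.log d) := by
  have hbe : ∀ k l : ℕ, be Θ L 1 k * be Θ L 1 l * (rv j (m1 * m2 ^ 2) (k * l) : ℝ) =
      be Θ L m2 k * be Θ L m2 l * (rv j m1 (k * l) : ℝ) := by
    intro k l
    rw [rse_dod_rv j h1 h2]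
    have e1 : ∀ k : ℕ, k.Coprime m2 → be Θ L m2 k = be Θ L 1 k := by
      intro k hk
      unfold be
      by_cases ho : Odd k
      · rw [if_pos ⟨ho, hk⟩, if_pos ⟨ho, Nat.coprime_one_right k⟩]
      · rw [if_neg (fun h => ho h.1), if_neg (fun h => ho h.1)]
    have e2 : ∀ k : ℕ, ¬ k.Coprime m2 → be Θ L m2 k = 0 := by
      intro k hk
      unfold be
      rw [if_neg (fun h => hk h.2)]
    by_cases hk : k.Coprime m2
    · by_cases hl : l.Coprime m2
      · rw [if_pos (Nat.Coprime.mul_left hk hl), e1 k hk, e1 l hl]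
      · rw [if_neg fun h => hl (Nat.Coprime.coprime_mul_left h), e2 l hl]
        simp
    · rw [if_neg fun h => hk (Nat.Coprime.coprime_mul_right h), e2 k hk]
      simp
  unfold fo ff
  simp only [hbe, do_dec_pr hg j h1 h2]
  have h3 : ∀ k l : ℕ, be Θ L m2 k * be Θ L m2 l * (rv j m1 (k * l) : ℝ) / √((k : ℝ) * l) *
      (∑ d ∈ sd (2 * m2), (ArithmeticFunction.moebius d : ℝ) * (rv j m1 d : ℝ) / √(d : ℝ) *
        DF g j m1 (u + Real.log k - Real.log l + Real.log d)) = ∑ d ∈ sd (2 * m2),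
      (ArithmeticFunction.moebius d : ℝ) * (rv j m1 d : ℝ) / √(d : ℝ) *
      (be Θ L m2 k * be Θ L m2 l * (rv j m1 (k * l) : ℝ) / √((k : ℝ) * l) *
        DF g j m1 (u + Real.log d + Real.log k - Real.log l)) := by
    intro k l
    rw [Finset.mul_sum]
    refine Finset.sum_congr rfl fun d _ => ?_
    rw [show u + Real.log k - Real.log l + Real.log d =
      u + Real.log d + Real.log k - Real.log l by ring]
    ring
  simp only [h3]
  calc ∑ k ∈ KL L, ∑ l ∈ KL L, ∑ d ∈ sd (2 * m2),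
        (ArithmeticFunction.moebius d : ℝ) * (rv j m1 d : ℝ) / √(d : ℝ) *
        (be Θ L m2 k * be Θ L m2 l * (rv j m1 (k * l) : ℝ) / √((k : ℝ) * l) *
        DF g j m1 (u + Real.log d + Real.log k - Real.log l))
      = ∑ k ∈ KL L, ∑ d ∈ sd (2 * m2), ∑ l ∈ KL L,
        (ArithmeticFunction.moebius d : ℝ) * (rv j m1 d : ℝ) / √(d : ℝ) *
        (be Θ L m2 k * be Θ L m2 l * (rv j m1 (k * l) : ℝ) / √((k : ℝ) * l) *
        DF g j m1 (u + Real.log d + Real.log k - Real.log l)) :=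
        Finset.sum_congr rfl fun k _ => Finset.sum_comm
    _ = ∑ d ∈ sd (2 * m2), ∑ k ∈ KL L, ∑ l ∈ KL L,
        (ArithmeticFunction.moebius d : ℝ) * (rv j m1 d : ℝ) / √(d : ℝ) *
        (be Θ L m2 k * be Θ L m2 l * (rv j m1 (k * l) : ℝ) / √((k : ℝ) * l) *
        DF g j m1 (u + Real.log d + Real.log k - Real.log l)) := Finset.sum_comm
    _ = _ := by
        refine Finset.sum_congr rfl fun d _ => ?_
        rw [Finset.mul_sum]
        refine Finset.sum_congr rfl fun k _ => ?_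
        rw [Finset.mul_sum]

end Pool.Agent.RSF

namespace Pool.Agent.RSF

open Pool.Agent.RSE

alias do_dec := do_dec_pr

alias fo_dec := fo_dec_pr

end Pool.Agent.RSF
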