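import Pool.Agent.Lib_helper24.ABS.FWE

/-!
# Abstract fixed window with the weaker hypothesis `s3`: `∑ ‖hat f t‖² ≤ 4 C Φ` (after helper24,
helper44)
-/

noncomputable section

namespace Pool.Agent.RSF

open Complex MeasureTheory Filter Topology
open Pool.Agent.SQS (hat PL1 PL2 hat_eq_comp hat_fourier)
open Pool.Agent.ABS
open scoped ENNReal Real

structure Fam2 (C c T m δ M : ℝ) {ι : Type} (S : Finset ι) (P : ι → Piece) (L Φ : ℝ) : Prop where
  card : (S.card : ℝ) ≤ Φ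
  s1 : ∀ W : ℝ → ℂ, Measurable W → (∃ B, ∀ v, ‖W v‖ ≤ B) → (∀ v, v < 0 ∨ c * L < v → W v = 0) →
    ∑ i ∈ S, ‖∫ v, (P i).f v * W v‖ ^ 2 ≤ C * Φ / L * ∫ v, ‖W v‖ ^ 2
  s2 : ∀ W : ℝ → ℂ, Measurable W → (∃ B, ∀ v, ‖W v‖ ≤ B) → (∀ v, c * L < |v| → W v = 0) →
    ∑ i ∈ S, ‖∫ v, ((P i).D v - (P i).g v) * W v‖ ^ 2 ≤ C * Φ / L * ∫ v, ‖W v‖ ^ 2
  s3' : ∀ t : ℝ, ∑ i ∈ S, ‖hat (P i).f t‖ ^ 2 ≤ 4 * C * Φ
  mass : ∀ i ∈ S, ∫ u, ‖(P i).g u‖ ≤ M
  low : ∀ i ∈ S, ∀ t : ℝ, |t| ≤ T → m ≤ ‖hat (P i).g t‖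
  mod : ∀ i ∈ S, ∀ t s : ℝ, |t| ≤ T → |s| ≤ T → |t - s| < δ →
    ‖hat (P i).g t - hat (P i).g s‖ ≤ m / 2

theorem Fam2.mono {C c T m δ M : ℝ} {ι : Type} {S S' : Finset ι} {P : ι → Piece} {L Φ : ℝ}
    (F : Fam2 C c T m δ M S P L Φ) (h : S' ⊆ S) : Fam2 C c T m δ M S' P L Φ where
  card := le_trans (by exact_mod_cast Finset.card_le_card h) F.card
  s1 := fun W h1 h2 h3 => (Finset.sum_le_sum_of_subset_of_nonneg h
    fun _ _ _ => by positivity).trans (F.s1 W h1 h2 h3)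
  s2 := fun W h1 h2 h3 => (Finset.sum_le_sum_of_subset_of_nonneg h
    fun _ _ _ => by positivity).trans (F.s2 W h1 h2 h3)
  s3' := fun t => (Finset.sum_le_sum_of_subset_of_nonneg h
    fun _ _ _ => by positivity).trans (F.s3' t)
  mass := fun i hi => F.mass i (h hi)
  low := fun i hi => F.low i (h hi)
  mod := fun i hi => F.mod i (h hi)

theorem Fam2.s1' {C c T m δ M : ℝ} {ι : Type} {S : Finset ι} {P : ι → Piece} {L Φ : ℝ}
    (F : Fam2 C c T m δ M S P L Φ) (hC : 0 ≤ C) (hL : 0 < L) {W : ℝ → ℂ} (hWm : Measurable W)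
    (hWb : ∃ B, ∀ v, ‖W v‖ ≤ B) (hWs : ∀ v, c * L < |v| → W v = 0) :
    ∑ i ∈ S, ‖∫ v, (P i).f v * W v‖ ^ 2 ≤ 4 * C * Φ / L * ∫ v, ‖W v‖ ^ 2 := by
  obtain ⟨B, hB⟩ := hWb
  have hB0 : 0 ≤ B := (norm_nonneg _).trans (hB 0)
  have hΦ : 0 ≤ Φ := le_trans (by positivity) F.card
  set W1 : ℝ → ℂ := fun v => if 0 ≤ v then W v else 0 with hW1
  set W2 : ℝ → ℂ := fun v => if 0 < v then starRingEnd ℂ (W (-v)) else 0 with hW2
  have hW1m : Measurable W1 := Measurable.ite measurableSet_Ici hWm measurable_const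
  have hW2m : Measurable W2 :=
    Measurable.ite measurableSet_Ioi
      (Complex.continuous_conj.measurable.comp (hWm.comp measurable_neg)) measurable_const
  have hW1b : ∀ v, ‖W1 v‖ ≤ B := by
    intro v; simp only [hW1]; split_ifs
    · exact hB v
    · simpa using hB0
  have hW2b : ∀ v, ‖W2 v‖ ≤ B := by
    intro v; simp only [hW2]; split_ifs
    · rw [RCLike.norm_conj]; exact hB _
    · simpa using hB0
  have hW1s : ∀ v, v < 0 ∨ c * L < v → W1 v = 0 := by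
    intro v hv
    simp only [hW1]
    split_ifs with h0
    · apply hWs
      rw [abs_of_nonneg h0]
      rcases hv with hv | hv
      · linarith
      · exact hv
    · rfl
  have hW2s : ∀ v, v < 0 ∨ c * L < v → W2 v = 0 := by
    intro v hv
    simp only [hW2]
    split_ifs with h0
    · rw [hWs, map_zero]
      rw [abs_neg, abs_of_pos h0]
      rcases hv with hv | hv
      · linarith
      · exact hv
    · rfl
  have hWi : Integrable (fun v => ‖W v‖ ^ 2) := by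
    have e : (fun v => ‖W v‖ ^ 2) = (Set.Icc (-(c * L)) (c * L)).indicator
        (fun v => ‖W v‖ ^ 2) := by
      funext v
      by_cases hv : v ∈ Set.Icc (-(c * L)) (c * L)
      · rw [Set.indicator_of_mem hv]
      · rw [Set.indicator_of_notMem hv, hWs]
        · simp
        · by_contra hcon
          exact hv (abs_le.1 (not_lt.1 hcon))
    rw [e, integrable_indicator_iff measurableSet_Icc]
    refine Measure.integrableOn_of_bounded (M := B ^ 2) (by simp)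
      (hWm.norm.pow_const 2).aestronglyMeasurable ?_
    filter_upwards with v
    rw [Real.norm_of_nonneg (by positivity)]
    exact pow_le_pow_left₀ (norm_nonneg _) (hB v) 2
  have hI1 : ∫ v, ‖W1 v‖ ^ 2 ≤ ∫ v, ‖W v‖ ^ 2 := by
    refine integral_mono_of_nonneg (Eventually.of_forall fun v => by positivity) hWi
      (Eventually.of_forall fun v => ?_)
    simp only [hW1]; split_ifs
    · exact le_rfl
    · simp
  have hI2 : ∫ v, ‖W2 v‖ ^ 2 ≤ ∫ v, ‖W v‖ ^ 2 := by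
    have e : ∫ v, ‖W v‖ ^ 2 = ∫ v, ‖W (-v)‖ ^ 2 :=
      (integral_neg_eq_self (fun v => ‖W v‖ ^ 2) volume).symm
    rw [e]
    refine integral_mono_of_nonneg (Eventually.of_forall fun v => by positivity) hWi.comp_neg
      (Eventually.of_forall fun v => ?_)
    simp only [hW2]; split_ifs
    · rw [RCLike.norm_conj]
    · simp
  have hs1 := F.s1 W1 hW1m ⟨B, hW1b⟩ hW1s
  have hs2 := F.s1 W2 hW2m ⟨B, hW2b⟩ hW2s
  have hA : 0 ≤ C * Φ / L := by positivity
  calc ∑ i ∈ S, ‖∫ v, (P i).f v * W v‖ ^ 2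
      ≤ ∑ i ∈ S, (2 * ‖∫ v, (P i).f v * W1 v‖ ^ 2 + 2 * ‖∫ v, (P i).f v * W2 v‖ ^ 2) :=
        Finset.sum_le_sum fun i _ => (P i).half hWm hB
    _ ≤ 2 * (C * Φ / L * ∫ v, ‖W v‖ ^ 2) + 2 * (C * Φ / L * ∫ v, ‖W v‖ ^ 2) := by
        rw [Finset.sum_add_distrib, ← Finset.mul_sum, ← Finset.mul_sum]
        have h5 := hs1.trans (mul_le_mul_of_nonneg_left hI1 hA)
        have h6 := hs2.trans (mul_le_mul_of_nonneg_left hI2 hA)
        linarith
    _ = _ := by ring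

/-- families without odd zeros in one window -/
theorem Fam2.empty_card {C c T m δ M : ℝ} {ι : Type} {S : Finset ι} {P : ι → Piece} {L Φ : ℝ}
    (F : Fam2 C c T m δ M S P L Φ) (hC : 0 ≤ C) (hc : 0 < c) (hm : 0 < m) (hδ : 0 < δ)
    (hM : 0 ≤ M) (hL : 0 < L) {t₀ H : ℝ} (ht₀ : |t₀| + 1 ≤ T) (hH : 0 < H)
    (hH' : H ≤ min (δ / 2) 1) (hS : ∀ i ∈ S, ∀ s ∈ Set.Ioo t₀ (t₀ + H), s ∉ oddZ (P i).Λ) :
    (S.card : ℝ) ≤ max (max 1 (8 * ((m / 2 + M) * (8 / π)) / (m * c)))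
      (16 * (80 * π * C) / m ^ 2 + 16 * (8192 * C) / (π ^ 2 * c ^ 2 * m ^ 2)) * Φ / (H * L) := by
  have hpi := Real.pi_pos
  have hΦ : 0 ≤ Φ := le_trans (by positivity) F.card
  set D : ℝ := max 1 (8 * ((m / 2 + M) * (8 / π)) / (m * c)) with hD
  set K : ℝ := 16 * (80 * π * C) / m ^ 2 + 16 * (8192 * C) / (π ^ 2 * c ^ 2 * m ^ 2) with hK
  have hHL : 0 < H * L := by positivity
  have hD1 : 1 ≤ D := le_max_left _ _
  rcases lt_or_ge (H * L) D with hDL | hDL
  · refine F.card.trans ?_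
    rw [le_div_iff₀ hHL]
    have h1 : H * L ≤ max D K := hDL.le.trans (le_max_left _ _)
    nlinarith
  have hone : 1 ≤ H * L := hD1.trans hDL
  have hbig : 8 * ((m / 2 + M) * (8 / π)) / (m * c) ≤ H * L := (le_max_right _ _).trans hDL
  set X : ℝ := c * L with hX
  have hX0 : 0 < X := by positivity
  set w : ℝ → ℝ := wker X (t₀ + H / 4) (H / 2) with hw
  have hwi : Integrable w := wker_integrable hX0 _ (by linarith)
  have hw0 : ∀ t, 0 ≤ w t := wker_nonneg hX0 _ (by linarith)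
  set J : Set ℝ := Set.Ioo t₀ (t₀ + H) with hJ
  set ω : ℝ := 8 / (π * X) with hω
  have hω0 : 0 < ω := by positivity
  have hωw : ∫ t in Jᶜ, w t ≤ ω := wker_tail hX0 t₀ hH
  set W : ℝ → ℂ := hat (fun t => (w t : ℂ)) with hW
  have hWe : ∀ v, W v = tri X v * (win (H / 2) v * cexp (((t₀ + H / 4 : ℝ) : ℂ) * v * I)) := by
    intro v; rw [hW, hw]; exact hat_wker hX0 _ (by linarith) v
  have hWm : Measurable W := (continuous_hat hwi.ofReal).measurable
  have hWb : ∃ B, ∀ v, ‖W v‖ ≤ B := ⟨_, fun v => norm_hat_le _ v⟩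
  have hWs : ∀ v, c * L < |v| → W v = 0 := by
    intro v hv
    rw [hWe, tri_zero hX0 hv.le, ofReal_zero, zero_mul]
  have hW2 : ∫ v, ‖W v‖ ^ 2 ≤ π * H := by
    have h1 := Wsq_le hX0 (t₀ + H / 4) (l := H / 2) (by linarith)
    have h2 : (fun v => ‖W v‖ ^ 2) = fun v : ℝ => ‖(tri X v : ℂ) * (win (H / 2) v *
        cexp (((t₀ + H / 4 : ℝ) : ℂ) * v * I))‖ ^ 2 := by
      funext v; rw [hWe]
    rw [h2]
    refine h1.trans (le_of_eq ?_)
    ring
  set p : ℝ := m / 4 * H / 2 with hp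
  have hp0 : 0 < p := by positivity
  have hlow' : ∀ i ∈ S, p ≤ ‖∫ t : ℝ, hat (P i).g t * (w t : ℂ)‖ := by
    intro i hi
    refine le_trans ?_ (ref_fw (P i).ng.int hm hδ (F.mass i hi) (F.low i hi) (F.mod i hi) ht₀ hH
      hH' hX0)
    have h1 : (m / 2 + M) * (8 / π) / X ≤ m / 4 * H / 2 := by
      rw [div_le_iff₀ (by positivity)] at hbig
      rw [hX, div_le_iff₀ (by positivity)]
      nlinarith
    rw [hp]; linarith
  set FF : ι → ℝ := fun i => ∫ t in Jᶜ, ‖hat (P i).f t‖ ^ 2 * w t with hFF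
  have hint : ∀ i ∈ S, Integrable (fun t => ‖hat (P i).f t‖ ^ 2 * w t) := by
    intro i _
    exact sq_hat_mul_w (P i).nf.int hwi hw0
  have hone' : ∀ i ∈ S, p ^ 2 / 2 ≤
      2 * ‖∫ v, (P i).f v * W v‖ ^ 2 +
      2 * ‖∫ v, ((P i).D v - (P i).g v) * W v‖ ^ 2 +
      4 * ω * FF i := by
    intro i hi
    exact (P i).fw_sq (hS i hi) hwi hw0 hp0 hω0 hωw (hlow' i hi)
  have hFs : ∑ i ∈ S, FF i ≤ 4 * C * Φ * ω := by
    rw [hFF, ← integral_finsetSum _ fun i hi => (hint i hi).integrableOn]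
    calc ∫ t in Jᶜ, ∑ i ∈ S, ‖hat (P i).f t‖ ^ 2 * w t
        ≤ ∫ t in Jᶜ, 4 * C * Φ * w t := by
          refine integral_mono (integrable_finsetSum _ fun i hi => (hint i hi).integrableOn)
            (hwi.const_mul _).integrableOn fun t => ?_
          show ∑ i ∈ S, ‖hat (P i).f t‖ ^ 2 * w t ≤ 4 * C * Φ * w t
          rw [← Finset.sum_mul]
          exact mul_le_mul_of_nonneg_right (F.s3' t) (hw0 t)
      _ = 4 * C * Φ * ∫ t in Jᶜ, w t := by rw [integral_const_mul]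
      _ ≤ 4 * C * Φ * ω := by gcongr
  have h1 := F.s1' hC hL hWm hWb hWs
  have h2 := F.s2 W hWm hWb hWs
  have h1' : ∑ i ∈ S, ‖∫ v, (P i).f v * W v‖ ^ 2 ≤ 4 * C * Φ / L * (π * H) :=
    h1.trans (by gcongr)
  have h2' : ∑ i ∈ S, ‖∫ v, ((P i).D v - (P i).g v) * W v‖ ^ 2 ≤ C * Φ / L * (π * H) :=
    h2.trans (by gcongr)
  have key : (S.card : ℝ) * (p ^ 2 / 2) ≤ 2 * (4 * C * Φ / L * (π * H)) +
      2 * (C * Φ / L * (π * H)) + 4 * ω * (4 * C * Φ * ω) := by
    calc (S.card : ℝ) * (p ^ 2 / 2) = ∑ i ∈ S, p ^ 2 / 2 := by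
          rw [Finset.sum_const, nsmul_eq_mul]
      _ ≤ _ := Finset.sum_le_sum hone'
      _ ≤ _ := by
          rw [Finset.sum_add_distrib, Finset.sum_add_distrib, ← Finset.mul_sum,
            ← Finset.mul_sum, ← Finset.mul_sum]
          gcongr
  have h5 : (S.card : ℝ) ≤ (2 * (4 * C * Φ / L * (π * H)) +
      2 * (C * Φ / L * (π * H)) + 4 * ω * (4 * C * Φ * ω)) / (p ^ 2 / 2) := by
    rw [le_div_iff₀ (by positivity)]; exact key
  refine h5.trans ?_
  have h6 : (2 * (4 * C * Φ / L * (π * H)) +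
      2 * (C * Φ / L * (π * H)) + 4 * ω * (4 * C * Φ * ω)) / (p ^ 2 / 2) =
      16 * (80 * π * C) / m ^ 2 * Φ / (H * L) +
        16 * (8192 * C) / (π ^ 2 * c ^ 2 * m ^ 2) * Φ / (H * L) ^ 2 := by
    rw [hω, hp, hX]
    field_simp
    ring
  rw [h6]
  have h7 : 16 * (8192 * C) / (π ^ 2 * c ^ 2 * m ^ 2) * Φ / (H * L) ^ 2 ≤
      16 * (8192 * C) / (π ^ 2 * c ^ 2 * m ^ 2) * Φ / (H * L) := by
    have h8 : (H * L) ≤ (H * L) ^ 2 := by nlinarith
    exact div_le_div_of_nonneg_left (by positivity) hHL h8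
  calc _ ≤ 16 * (80 * π * C) / m ^ 2 * Φ / (H * L) +
        16 * (8192 * C) / (π ^ 2 * c ^ 2 * m ^ 2) * Φ / (H * L) := by linarith
    _ = K * Φ / (H * L) := by rw [hK]; ring
    _ ≤ max D K * Φ / (H * L) := by gcongr; exact le_max_right _ _

/-- the same for all windows of length at most `1` -/
theorem Fam2.empty_card' {C c T m δ M : ℝ} (hC : 0 ≤ C) (hc : 0 < c) (hm : 0 < m) (hδ : 0 < δ)
    (hM : 0 ≤ M) : ∃ C' : ℝ, 0 < C' ∧ ∀ (ι : Type) (S : Finset ι) (P : ι → Piece) (L Φ : ℝ),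
      0 < L → Fam2 C c T m δ M S P L Φ → ∀ t₀ H : ℝ, |t₀| + 1 ≤ T → 0 < H → H ≤ 1 →
      (∀ i ∈ S, ∀ s ∈ Set.Ioo t₀ (t₀ + H), s ∉ oddZ (P i).Λ) →
      (S.card : ℝ) ≤ C' * Φ / (H * L) := by
  have hpi := Real.pi_pos
  set K : ℝ := max (max 1 (8 * ((m / 2 + M) * (8 / π)) / (m * c)))
      (16 * (80 * π * C) / m ^ 2 + 16 * (8192 * C) / (π ^ 2 * c ^ 2 * m ^ 2)) with hK
  have hK0 : 0 < K := lt_of_lt_of_le one_pos ((le_max_left _ _).trans (le_max_left _ _))
  set H₀ : ℝ := min (δ / 2) 1 with hH₀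
  have hH₀0 : 0 < H₀ := by positivity
  have hH₀1 : H₀ ≤ 1 := min_le_right _ _
  refine ⟨K / H₀, by positivity, fun ι S P L Φ hL F t₀ H ht₀ hH hH1 hS => ?_⟩
  have hΦ : 0 ≤ Φ := le_trans (by positivity) F.card
  set H' : ℝ := min H H₀ with hH'
  have hH'0 : 0 < H' := lt_min hH hH₀0
  have h1 := F.empty_card hC hc hm hδ hM hL ht₀ hH'0 (min_le_right _ _) (fun i hi s hs =>
    hS i hi s ⟨hs.1, lt_of_lt_of_le hs.2 (by
      have := min_le_left H H₀
      linarith)⟩)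
  refine h1.trans ?_
  have h3 : H * H₀ ≤ H' := by
    apply le_min
    · nlinarith
    · nlinarith
  have h4 : K * Φ / (H' * L) ≤ K * Φ / (H * H₀ * L) :=
    div_le_div_of_nonneg_left (by positivity) (by positivity)
      (mul_le_mul_of_nonneg_right h3 hL.le)
  refine h4.trans (le_of_eq ?_)
  field_simp

/-- fixed interval, all scales -/
theorem Fam2.short {C c T m δ M : ℝ} (hC : 0 ≤ C) (hc : 0 < c) (hm : 0 < m) (hδ : 0 < δ)
    (hM : 0 ≤ M) : ∃ C' : ℝ, 0 < C' ∧ ∀ (ι : Type) (S : Finset ι) (P : ι → Piece) (L Φ : ℝ),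
      0 < L → Fam2 C c T m δ M S P L Φ → ∀ x η h : ℝ, |x| + 2 ≤ T → 0 < η → η ≤ h → h ≤ 1 →
      (∀ i ∈ S, (oddZ (P i).Λ ∩ Set.Ioo x (x + h)).encard ≤ ⌊h / η⌋₊) →
      (S.card : ℝ) ≤ C' * Φ / (η * L) := by
  classical
  obtain ⟨C', hC', hw⟩ := Fam2.empty_card' (T := T) hC hc hm hδ hM
  refine ⟨8 * C', by positivity, fun ι S P L Φ hL F x η h hx hη hηh hh hS => ?_⟩
  have hφ : 0 ≤ Φ := le_trans (by positivity) F.card
  have hh0 : 0 < h := hη.trans_le hηh
  set n : ℕ := ⌊h / η⌋₊ with hn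
  have hn1 : 1 ≤ n := by
    rw [hn, Nat.one_le_floor_iff, one_le_div hη]; exact hηh
  have hnle : (n : ℝ) ≤ h / η := Nat.floor_le (by positivity)
  have hn1' : (1 : ℝ) ≤ n := by exact_mod_cast hn1
  set N : ℕ := 2 * (n + 1) with hN
  have hNpos : (0 : ℝ) < N := by rw [hN]; positivity
  set d : ℝ := h / N with hd
  have hd0 : 0 < d := by positivity
  have hNd : N * d = h := by rw [hd]; field_simp
  have hdη : η / 4 ≤ d := by
    rw [hd, le_div_iff₀ hNpos, hN]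
    push_cast
    rw [le_div_iff₀ hη] at hnle
    nlinarith
  have hdh : d ≤ 1 := by
    have : (1 : ℝ) ≤ N := by
      have : 1 ≤ N := by omega
      exact_mod_cast this
    have h2 : d ≤ h := div_le_self hh0.le this
    linarith
  have hcell : ∀ j ∈ Finset.range N,
      ((S.filter fun i => ∀ s ∈ Set.Ioo (x + j * d) (x + j * d + d), s ∉ oddZ (P i).Λ).card : ℝ) ≤
        4 * C' * Φ / (η * L) := by
    intro j hj
    have hjN : (j : ℝ) ≤ N := by exact_mod_cast (Finset.mem_range.1 hj).le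
    have hjd0 : 0 ≤ j * d := by positivity
    have hjd : j * d ≤ h := by rw [← hNd]; gcongr
    have hxa := abs_nonneg x
    have h0 : |x + j * d| ≤ |x| + 1 := by
      refine (abs_add_le _ _).trans ?_
      rw [abs_of_nonneg hjd0]; linarith
    have h1 := hw ι (S.filter fun i => ∀ s ∈ Set.Ioo (x + j * d) (x + j * d + d),
      s ∉ oddZ (P i).Λ) P L Φ hL (F.mono (Finset.filter_subset _ _)) (x + j * d) d
      (by linarith) hd0 hdh (fun i hi => (Finset.mem_filter.1 hi).2)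
    refine h1.trans ?_
    have h3 : η * L / 4 ≤ d * L := by nlinarith
    calc C' * Φ / (d * L) ≤ C' * Φ / (η * L / 4) :=
          div_le_div_of_nonneg_left (by positivity) (by positivity) h3
      _ = _ := by field_simp
  have hper : ∀ i ∈ S, (n : ℝ) + 2 ≤ ∑ j ∈ Finset.range N,
      if (∀ s ∈ Set.Ioo (x + j * d) (x + j * d + d), s ∉ oddZ (P i).Λ) then (1 : ℝ) else 0 := by
    intro i hi
    have h1 := cells_empty (x := x) hd0 (M := N) (hS i hi) (fun t ht => ⟨ht.2.1, by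
      rw [hNd]; exact ht.2.2⟩)
    rw [← Finset.sum_filter, Finset.sum_const, nsmul_eq_mul, mul_one]
    have h2 : ((Finset.range N).filter fun j : ℕ =>
        ∀ s ∈ Set.Ioo (x + j * d) (x + j * d + d), s ∉ oddZ (P i).Λ ∩ Set.Ioo x (x + h)).card ≤
        ((Finset.range N).filter fun j : ℕ =>
        ∀ s ∈ Set.Ioo (x + j * d) (x + j * d + d), s ∉ oddZ (P i).Λ).card := by
      refine Finset.card_le_card fun j hj => ?_
      rw [Finset.mem_filter] at hj ⊢
      refine ⟨hj.1, fun s hs hsZ => hj.2 s hs ⟨hsZ, ?_, ?_⟩⟩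
      · have : (0 : ℝ) ≤ j * d := by positivity
        linarith [hs.1]
      · have h5 : (j : ℝ) + 1 ≤ N := by exact_mod_cast (Finset.mem_range.1 hj.1)
        have h6 : ((j : ℝ) + 1) * d ≤ N * d := by gcongr
        rw [hNd] at h6
        linarith [hs.2]
    have h3 : n + 2 ≤ ((Finset.range N).filter fun j : ℕ =>
        ∀ s ∈ Set.Ioo (x + j * d) (x + j * d + d), s ∉ oddZ (P i).Λ).card := by
      rw [hN] at h1 h2 ⊢
      omega
    exact_mod_cast h3
  have hdouble : (S.card : ℝ) * ((n : ℝ) + 2) ≤ N * (4 * C' * Φ / (η * L)) := by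
    calc (S.card : ℝ) * ((n : ℝ) + 2) = ∑ i ∈ S, ((n : ℝ) + 2) := by
          rw [Finset.sum_const, nsmul_eq_mul]
      _ ≤ ∑ i ∈ S, ∑ j ∈ Finset.range N,
          if (∀ s ∈ Set.Ioo (x + j * d) (x + j * d + d), s ∉ oddZ (P i).Λ) then (1 : ℝ) else 0 :=
          Finset.sum_le_sum hper
      _ = ∑ j ∈ Finset.range N, ((S.filter fun i =>
          ∀ s ∈ Set.Ioo (x + j * d) (x + j * d + d), s ∉ oddZ (P i).Λ).card : ℝ) := by
          rw [Finset.sum_comm]
          refine Finset.sum_congr rfl fun j _ => ?_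
          rw [← Finset.sum_filter, Finset.sum_const, nsmul_eq_mul, mul_one]
      _ ≤ ∑ j ∈ Finset.range N, 4 * C' * Φ / (η * L) := Finset.sum_le_sum hcell
      _ = _ := by rw [Finset.sum_const, Finset.card_range, nsmul_eq_mul]
  set B : ℝ := 4 * C' * Φ / (η * L) with hB
  have hB0 : 0 ≤ B := by positivity
  have hN2 : (N : ℝ) ≤ 2 * ((n : ℝ) + 2) := by rw [hN]; push_cast; linarith
  have h7 : (S.card : ℝ) * ((n : ℝ) + 2) ≤ (2 * B) * ((n : ℝ) + 2) := by
    refine hdouble.trans ?_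
    calc N * B ≤ (2 * ((n : ℝ) + 2)) * B := by gcongr
      _ = _ := by ring
  have h8 : (S.card : ℝ) ≤ 2 * B := le_of_mul_le_mul_right h7 (by positivity)
  refine h8.trans (le_of_eq ?_)
  rw [hB]; ring

theorem Fam2.uniform_short {C c T m δ M : ℝ} (hC : 0 ≤ C) (hc : 0 < c) (hm : 0 < m) (hδ : 0 < δ)
    (hM : 0 ≤ M) : ∃ C' : ℝ, 0 < C' ∧ ∀ (ι : Type) (S : Finset ι) (P : ι → Piece) (L Φ : ℝ),
      0 < L → Fam2 C c T m δ M S P L Φ → ∀ a b h H : ℝ, -T + 2 ≤ a → b + 2 ≤ T → 0 < H → H ≤ h →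
      h ≤ 1 → h ≤ b - a →
      (∀ i ∈ S, ∃ x : ℝ, a ≤ x ∧ x + h ≤ b ∧
        (oddZ (P i).Λ ∩ Set.Ioo x (x + h)).encard ≤ ⌊h / H⌋₊) →
      (S.card : ℝ) ≤ C' * (b - a) * Φ / (h * H * L) := by
  classical
  obtain ⟨C', hC', hw⟩ := Fam2.short (T := T) hC hc hm hδ hM
  refine ⟨6 * C', by positivity, fun ι S P L Φ hL F a b h H ha hb hH hHh hh hba hS => ?_⟩
  have hφ : 0 ≤ Φ := le_trans (by positivity) F.card
  have hh0 : 0 < h := hH.trans_le hHh
  set g : ℝ := h / 2 with hg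
  have hg0 : 0 < g := by positivity
  set J : ℕ := ⌊(b - a) / g⌋₊ with hJ
  have hJle : (J : ℝ) ≤ (b - a) / g := Nat.floor_le (div_nonneg (by linarith) hg0.le)
  set Q : Finset ℕ := (Finset.range (J + 1)).filter (fun j : ℕ => a + j * g + g ≤ b) with hQ
  set G : ℕ → Finset ι := fun j => S.filter fun i =>
    (oddZ (P i).Λ ∩ Set.Ioo (a + j * g) (a + j * g + g)).encard ≤ ⌊g / (H / 2)⌋₊ with hG
  have hcover : S ⊆ Q.biUnion G := by
    intro i hi
    obtain ⟨x, hx, hx', hN⟩ := hS i hi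
    set j : ℕ := ⌈(x - a) / g⌉₊ with hj
    have h1 : (x - a) / g ≤ j := Nat.le_ceil _
    have h2 : (j : ℝ) < (x - a) / g + 1 := Nat.ceil_lt_add_one (div_nonneg (by linarith) hg0.le)
    rw [div_le_iff₀ hg0] at h1
    have h3 : (j : ℝ) * g < (x - a) + g := by
      have := mul_lt_mul_of_pos_right h2 hg0
      rw [add_mul, div_mul_cancel₀ _ hg0.ne', one_mul] at this
      exact this
    have h4 : a + j * g + g ≤ b := by rw [hg] at h3 ⊢; linarith
    have h5 : j ≤ J := by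
      rw [hJ]
      apply Nat.le_floor
      rw [le_div_iff₀ hg0]
      linarith
    rw [Finset.mem_biUnion]
    refine ⟨j, ?_, ?_⟩
    · rw [hQ, Finset.mem_filter]
      exact ⟨Finset.mem_range.2 (by omega), h4⟩
    · rw [hG, Finset.mem_filter]
      refine ⟨hi, ?_⟩
      have e1 : g / (H / 2) = h / H := by rw [hg]; field_simp
      rw [e1]
      refine le_trans (Set.encard_le_encard ?_) hN
      intro s hs
      refine ⟨hs.1, ?_, ?_⟩
      · have := hs.2.1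
        linarith
      · have := hs.2.2
        rw [hg] at h3 this
        linarith
  have h7 : ∀ j ∈ Q, ((G j).card : ℝ) ≤ 2 * C' * Φ / (H * L) := by
    intro j hj
    rw [hQ, Finset.mem_filter] at hj
    have hj0 : (0 : ℝ) ≤ j * g := by positivity
    have := hw ι (G j) P L Φ hL (F.mono (Finset.filter_subset _ _)) (a + j * g) (H / 2) g
      (by
        have h0 : |a + j * g| ≤ T - 2 := by rw [abs_le]; constructor <;> linarith [hj.2]
        linarith)
      (by positivity) (by rw [hg]; linarith) (by rw [hg]; linarith)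
      (fun i hi => (Finset.mem_filter.1 hi).2)
    refine this.trans (le_of_eq ?_)
    field_simp
  have h8 : (S.card : ℝ) ≤ (J + 1) * (2 * C' * Φ / (H * L)) := by
    calc (S.card : ℝ) ≤ (Q.biUnion G).card := by exact_mod_cast Finset.card_le_card hcover
      _ ≤ ∑ j ∈ Q, ((G j).card : ℝ) := by exact_mod_cast Finset.card_biUnion_le
      _ ≤ ∑ j ∈ Q, 2 * C' * Φ / (H * L) := Finset.sum_le_sum h7
      _ = Q.card * (2 * C' * Φ / (H * L)) := by rw [Finset.sum_const, nsmul_eq_mul]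
      _ ≤ (J + 1) * (2 * C' * Φ / (H * L)) := by
          have h9 : (Q.card : ℝ) ≤ J + 1 := by
            have := Finset.card_filter_le (Finset.range (J + 1)) (fun j : ℕ => a + j * g + g ≤ b)
            rw [Finset.card_range] at this
            exact_mod_cast this
          gcongr
  refine h8.trans ?_
  have h10 : (J : ℝ) + 1 ≤ 3 * (b - a) / h := by
    have e2 : (b - a) / g = 2 * (b - a) / h := by rw [hg]; field_simp
    have e3 : 1 ≤ (b - a) / h := by rwa [one_le_div hh0]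
    have e4 : 3 * (b - a) / h = 2 * (b - a) / h + (b - a) / h := by ring
    rw [e4, ← e2]
    linarith
  calc ((J : ℝ) + 1) * (2 * C' * Φ / (H * L))
      ≤ 3 * (b - a) / h * (2 * C' * Φ / (H * L)) := by gcongr
    _ = 6 * C' * (b - a) * Φ / (h * H * L) := by
        field_simp
        ring

/-- **the uniform abstract endgame** -/
theorem Fam2.uniform {C c T m δ M : ℝ} (hC : 0 ≤ C) (hc : 0 < c) (hm : 0 < m) (hδ : 0 < δ)
    (hM : 0 ≤ M) : ∃ C' : ℝ, 0 < C' ∧ ∀ (ι : Type) (S : Finset ι) (P : ι → Piece) (L Φ : ℝ),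
      0 < L → Fam2 C c T m δ M S P L Φ → ∀ a b h H : ℝ, -T + 2 ≤ a → b + 2 ≤ T → 0 < H → H ≤ h →
      h ≤ b - a →
      (∀ i ∈ S, ∃ x : ℝ, a ≤ x ∧ x + h ≤ b ∧
        (oddZ (P i).Λ ∩ Set.Ioo x (x + h)).encard ≤ ⌊h / H⌋₊) →
      (S.card : ℝ) ≤ C' * (b - a) * Φ / (h * H * L) := by
  obtain ⟨C', hC', hw⟩ := Fam2.uniform_short (T := T) hC hc hm hδ hM
  refine ⟨C' * max 1 (4 * T ^ 2), by positivity,
    fun ι S P L Φ hL F a b h H ha hb hH hHh hba hS => ?_⟩
  have hφ : 0 ≤ Φ := le_trans (by positivity) F.card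
  have hh0 : 0 < h := hH.trans_le hHh
  have hba0 : 0 < b - a := by linarith
  rcases le_or_gt h 1 with h1 | h1
  · refine (hw ι S P L Φ hL F a b h H ha hb hH hHh h1 hba hS).trans ?_
    have h2 : C' ≤ C' * max 1 (4 * T ^ 2) := by
      nlinarith [le_max_left 1 (4 * T ^ 2)]
    gcongr
  · have e1 : (1 : ℝ) / (H / h) = h / H := by field_simp
    have key := hw ι S P L Φ hL F a b 1 (H / h) ha hb (by positivity)
      (by rw [div_le_one hh0]; exact hHh) le_rfl (by linarith) (fun i hi => by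
        obtain ⟨x, hx, hx', hN⟩ := hS i hi
        rw [e1]
        refine ⟨x, hx, by linarith, le_trans (Set.encard_le_encard ?_) hN⟩
        intro s hs
        exact ⟨hs.1, hs.2.1, by linarith [hs.2.2]⟩)
    refine key.trans ?_
    have e2 : C' * (b - a) * Φ / (1 * (H / h) * L) =
        C' * h ^ 2 * (b - a) * Φ / (h * H * L) := by
      field_simp
    rw [e2]
    have h3 : h ^ 2 ≤ max 1 (4 * T ^ 2) := by
      refine le_trans ?_ (le_max_right _ _)
      have h4 : h ≤ 2 * T := by linarith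
      nlinarith
    gcongr

end Pool.Agent.RSF
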