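import Pool.Agent.Lib_helper39.RSF.Defs
import Pool.Agent.Lib_helper39.RSE.Defs
import Pool.Agent.Lib_helper39.RSA.DefsB
import Pool.Agent.Lib_helper24.ABS.Endgame
import Pool.Agent.Lib_helper39.RSF.SMO2
/-! Block FUI. -/

namespace Pool.Agent.RSF

open Pool.Agent.RSE

open Complex MeasureTheory Filter Topology
open Pool.Agent.RC (cc psi rv f0 IsRC Good gm pr DD)
open scoped ContDiff

lemma rse_fui_aux {F : ℝ → ℝ} (hF : Continuous F) {C L : ℝ}
    (h : ∀ u : ℝ, |F u| ≤ C * Real.exp (4 * L - u)) (a : ℝ) :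
    IntegrableOn (fun u => F u ^ 2) (Set.Ioi a) := by
  have h1 : IntegrableOn (fun u : ℝ => (C * Real.exp (4 * L)) ^ 2 * Real.exp (-2 * u))
      (Set.Ioi a) := (exp_neg_integrableOn_Ioi a (by norm_num : (0 : ℝ) < 2)).const_mul _
  refine Integrable.mono' h1 (hF.pow 2).aestronglyMeasurable (Eventually.of_forall fun u => ?_)
  rw [Real.norm_eq_abs, abs_pow]
  calc |F u| ^ 2 ≤ (C * Real.exp (4 * L - u)) ^ 2 :=
        pow_le_pow_left₀ (abs_nonneg _) (h u) 2
    _ = (C * Real.exp (4 * L)) ^ 2 * Real.exp (-2 * u) := by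
        have e1 : Real.exp (4 * L - u) = Real.exp (4 * L) * Real.exp (-u) := by
          rw [← Real.exp_add]; congr 1
        have e2 : Real.exp (-2 * u) = Real.exp (-u) ^ 2 := by
          rw [← Real.exp_nat_mul]; congr 1; push_cast; ring
        rw [e1, e2]; ring

theorem fui_int_pr {g Θ : ℝ → ℝ} (hg : Ker1 g) (hΘ : Cut Θ) (L : ℝ) (hL : 1 ≤ L) (R : ℕ) (j : Fin 4)
    (m : ℕ) (a : ℝ) : IntegrableOn (fun u => fo g Θ L R j m u ^ 2) (Set.Ioi a) ∧
    IntegrableOn (fun u => ff g Θ L R j m u ^ 2) (Set.Ioi a) := by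
  obtain ⟨C, hC, hb⟩ := fo_pos hg hΘ
  refine ⟨rse_fui_aux (C := C) (L := L) ?_ (fun u => (hb L R j m u hL).1) a,
    rse_fui_aux (C := C) (L := L) ?_ (fun u => (hb L R j m u hL).2) a⟩
  · exact continuous_iff_continuousAt.2 fun u => (fo_deriv hg Θ L R j m u).continuousAt
  · exact continuous_iff_continuousAt.2 fun u => (ff_deriv hg Θ L R j m u).continuousAt

end Pool.Agent.RSF

namespace Pool.Agent.RSF

open Pool.Agent.RSE

alias fui_int := fui_int_pr

end Pool.Agent.RSF
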