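import Pool.Agent.Lib_helper39.RSF.Defs
import Pool.Agent.Lib_helper39.RSE.Defs
import Pool.Agent.Lib_helper39.RSA.DefsB
/-! RSE block KG1 : `kern_deriv` -/

namespace Pool.Agent.RSF

open Pool.Agent.RSE

open Complex MeasureTheory Filter Topology
open Pool.Agent.RC (cc psi rv f0 IsRC Good gm pr DD)
open scoped ContDiff

theorem rse_kg_int {h : ℝ → ℝ} (hc : Continuous h) {c C : ℝ} (hc0 : 0 < c)
    (hb : ∀ z, |h z| ≤ C * Real.exp (-(c * |z|))) : Integrable h := by
  have hC : 0 ≤ C := by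
    have h0 := hb 0
    simp at h0
    exact (abs_nonneg _).trans h0
  have hi : Integrable (fun z : ℝ => C * (max 1 (2 / c ^ 2)) * (1 + z ^ 2)⁻¹) :=
    integrable_inv_one_add_sq.const_mul _
  refine hi.mono' hc.aestronglyMeasurable (ae_of_all _ fun z => ?_)
  rw [Real.norm_eq_abs]
  refine (hb z).trans ?_
  rw [mul_assoc]
  refine mul_le_mul_of_nonneg_left ?_ hC
  have h1 : 1 + (c * |z|) ^ 2 / 2 ≤ Real.exp (c * |z|) := by
    have h2 := Real.quadratic_le_exp_of_nonneg (x := c * |z|) (by positivity)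
    have h3 : 0 ≤ c * |z| := by positivity
    linarith
  rw [Real.exp_neg, ← div_eq_mul_inv, inv_eq_one_div, div_le_div_iff₀ (Real.exp_pos _)
    (by positivity), one_mul]
  have hm1 : 1 ≤ max 1 (2 / c ^ 2) := le_max_left _ _
  have hm2 : 2 / c ^ 2 ≤ max 1 (2 / c ^ 2) := le_max_right _ _
  have h4 : 1 + z ^ 2 ≤ max 1 (2 / c ^ 2) * (1 + (c * |z|) ^ 2 / 2) := by
    have h5 : z ^ 2 ≤ max 1 (2 / c ^ 2) * ((c * |z|) ^ 2 / 2) := by
      have : z ^ 2 = 2 / c ^ 2 * ((c * |z|) ^ 2 / 2) := by
        rw [mul_pow, sq_abs]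
        field_simp
      calc z ^ 2 = 2 / c ^ 2 * ((c * |z|) ^ 2 / 2) := this
        _ ≤ _ := mul_le_mul_of_nonneg_right hm2 (by positivity)
    nlinarith
  exact h4.trans (mul_le_mul_of_nonneg_left h1 (by positivity))

theorem rse_kg_fast {h : ℝ → ℝ} (hh : Fast h) {a : ℝ} (ha : 0 ≤ a) (ha1 : a ≤ 1 / 2) :
    ∃ C, ∀ z, |Real.exp (a * z) * h z| ≤ C * Real.exp (-(1 * |z|)) := by
  obtain ⟨C1, h1⟩ := hh (-1) (le_refl _)
  obtain ⟨C2, h2⟩ := hh 2 (by norm_num)
  have hC1 : 0 ≤ C1 := by
    have := h1 0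
    simp at this
    exact (abs_nonneg _).trans this
  have hC2 : 0 ≤ C2 := by
    have := h2 0
    simp at this
    exact (abs_nonneg _).trans this
  refine ⟨C1 + C2, fun z => ?_⟩
  rw [abs_mul, abs_of_pos (Real.exp_pos _)]
  rcases le_total z 0 with hz | hz
  · calc Real.exp (a * z) * |h z| ≤ Real.exp (a * z) * (C1 * Real.exp (- -1 * z)) :=
        mul_le_mul_of_nonneg_left (h1 z) (Real.exp_pos _).le
      _ = C1 * Real.exp (a * z + z) := by rw [Real.exp_add]; ring_nf
      _ ≤ C1 * Real.exp (-(1 * |z|)) := by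
        refine mul_le_mul_of_nonneg_left (Real.exp_le_exp.mpr ?_) hC1
        rw [abs_of_nonpos hz]
        nlinarith
      _ ≤ _ := mul_le_mul_of_nonneg_right (by linarith) (Real.exp_pos _).le
  · calc Real.exp (a * z) * |h z| ≤ Real.exp (a * z) * (C2 * Real.exp (-2 * z)) :=
        mul_le_mul_of_nonneg_left (h2 z) (Real.exp_pos _).le
      _ = C2 * Real.exp (a * z + -2 * z) := by rw [Real.exp_add]; ring
      _ ≤ C2 * Real.exp (-(1 * |z|)) := by
        refine mul_le_mul_of_nonneg_left (Real.exp_le_exp.mpr ?_) hC2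
        rw [abs_of_nonneg hz]
        nlinarith
      _ ≤ _ := mul_le_mul_of_nonneg_right (by linarith) (Real.exp_pos _).le

theorem kern_deriv_pr {g : ℝ → ℝ} (hg : Ker1 g) : Ker1 (deriv g) := by
  have hsm := hg.smooth
  obtain ⟨hdiff, hsm'⟩ := contDiff_infty_iff_deriv.mp hsm
  have hf0 : Fast g := by simpa using hg.fast 0
  have hf1 : Fast (deriv g) := by simpa using hg.fast 1
  have hcg : Continuous g := hsm.continuous
  have hcg' : Continuous (deriv g) := hsm'.continuous
  have key : ∀ h : ℝ → ℝ, Continuous h → Fast h → ∀ a : ℝ, 0 ≤ a → a ≤ 1 / 2 →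
      Integrable (fun z => Real.exp (a * z) * h z) := by
    intro h hc hh a ha ha1
    obtain ⟨C, hC⟩ := rse_kg_fast hh ha ha1
    exact rse_kg_int (by fun_prop) one_pos hC
  refine ⟨hsm', fun i => ?_, ?_⟩
  · rw [← iteratedDeriv_succ']
    exact hg.fast (i + 1)
  · have i1 : Integrable (fun z => Real.exp (z / 2) * deriv g z) := by
      have := key _ hcg' hf1 (1 / 2) (by norm_num) le_rfl
      refine this.congr (ae_of_all _ fun z => ?_)
      simp only
      congr 2
      ring
    have i0 : Integrable (fun z => Real.exp (z / 2) * g z) := by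
      have := key _ hcg hf0 (1 / 2) (by norm_num) le_rfl
      refine this.congr (ae_of_all _ fun z => ?_)
      simp only
      congr 2
      ring
    have hd : ∀ z : ℝ, HasDerivAt (fun z => Real.exp (z / 2) * g z)
        (1 / 2 * (Real.exp (z / 2) * g z) + Real.exp (z / 2) * deriv g z) z := by
      intro z
      have h1 : HasDerivAt (fun z : ℝ => Real.exp (z / 2)) (Real.exp (z / 2) * (1 / 2)) z :=
        ((hasDerivAt_id z).div_const 2).exp
      have h2 : HasDerivAt (fun z => Real.exp (z / 2) * g z)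
        (Real.exp (z / 2) * (1 / 2) * g z + Real.exp (z / 2) * deriv g z) z :=
        h1.mul (hdiff z).hasDerivAt
      exact h2.congr_deriv (by ring)
    have hz := integral_eq_zero_of_hasDerivAt_of_integrable hd ((i0.const_mul _).add i1) i0
    rw [integral_add (i0.const_mul _) i1, integral_const_mul, hg.int1] at hz
    simpa using hz

end Pool.Agent.RSF

namespace Pool.Agent.RSF

open Pool.Agent.RSE

alias kern_deriv := kern_deriv_pr

end Pool.Agent.RSF
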