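import Pool.Agent.Lib_helper39.RSF.Defs
import Pool.Agent.Lib_helper39.RSE.Defs
import Pool.Agent.Lib_helper39.RSA.DefsB
import Pool.Agent.Lib_helper39.RCA.DLIM
import Pool.Agent.Lib_helper39.RSA.FHD
import Pool.Agent.Lib_helper39.RSA.G1
import Pool.Agent.Lib_helper39.RSA.SUMG
namespace Pool.Agent.RSF

open Pool.Agent.RSE

open Complex MeasureTheory Filter Topology
open Pool.Agent.RC (cc psi rv f0 IsRC Good gm pr DD)
open scoped ContDiff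

theorem rse_psh_fast {g : ℝ → ℝ} (hg : Ker1 g) : Fast g := by
  have := hg.fast 0
  rwa [iteratedDeriv_zero] at this

/-- The weights of `fast_sum` with `a = 5`. -/
noncomputable def rse_psh_w (g : ℝ → ℝ) (u : ℝ) (n : ℕ) : ℝ :=
  if 0 < n then (n : ℝ) ^ 4 * |g (Real.log n + u)| else 0

theorem rse_psh_w_nonneg (g : ℝ → ℝ) (u : ℝ) (n : ℕ) : 0 ≤ rse_psh_w g u n := by
  unfold rse_psh_w
  split_ifs
  · positivity
  · exact le_rfl

theorem rse_psh_sum {g : ℝ → ℝ} (hg : Ker1 g) : ∃ C : ℝ, 0 < C ∧ ∀ u : ℝ,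
    Summable (rse_psh_w g u) ∧ ∑' n : ℕ, rse_psh_w g u n ≤ C * Real.exp (-5 * u) := by
  obtain ⟨C, hC, h⟩ := fast_sum (rse_psh_fast hg) (a := 5) (by norm_num)
  refine ⟨C, hC, fun u => ?_⟩
  have e : (fun n : ℕ => if 0 < n then (n : ℝ) ^ ((5 : ℝ) - 1) * |g (Real.log n + u)| else 0) =
      rse_psh_w g u := by
    funext n
    unfold rse_psh_w
    split_ifs
    · congr 1
      rw [show (5 : ℝ) - 1 = ((4 : ℕ) : ℝ) by norm_num, Real.rpow_natCast]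
    · rfl
  have := h u
  rw [e] at this
  exact this

theorem rse_psh_prod {g : ℝ → ℝ} (hg : Ker1 g) : ∃ C : ℝ, 0 < C ∧ ∀ u1 u2 : ℝ,
    Summable (fun p : ℕ × ℕ => rse_psh_w g u1 p.1 * rse_psh_w g u2 p.2) ∧
    ∑' p : ℕ × ℕ, rse_psh_w g u1 p.1 * rse_psh_w g u2 p.2 ≤ C * Real.exp (-5 * (u1 + u2)) := by
  obtain ⟨C, hC, h⟩ := rse_psh_sum hg
  refine ⟨C ^ 2, by positivity, fun u1 u2 => ?_⟩
  have s := (h u1).1.mul_of_nonneg (h u2).1 (rse_psh_w_nonneg g u1) (rse_psh_w_nonneg g u2)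
  refine ⟨s, ?_⟩
  rw [← (h u1).1.tsum_mul_tsum (h u2).1 s]
  have e : C ^ 2 * Real.exp (-5 * (u1 + u2)) =
      (C * Real.exp (-5 * u1)) * (C * Real.exp (-5 * u2)) := by
    rw [show -5 * (u1 + u2) = -5 * u1 + -5 * u2 by ring, Real.exp_add]; ring
  rw [e]
  exact mul_le_mul (h u1).2 (h u2).2 (tsum_nonneg (rse_psh_w_nonneg g u2)) (by positivity)

theorem rse_psh_term {φ : ℝ → ℝ} (g : ℝ → ℝ) {C5 : ℝ} (hC5 : 0 < C5)
    (hfh : ∀ x : ℝ, x ≠ 0 → ‖fhat φ x‖ ≤ C5 / |x| ^ 5) (h : ℤ) (i : Fin 4) (lam : ℕ)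
    (K u1 u2 : ℝ) (hh : h ≠ 0) (hlam : Odd lam) (hK : 0 < K) (p : ℕ × ℕ) :
    ‖(if Odd p.1 ∧ Odd p.2 then
      (psi i (p.1 * p.2 * lam) : ℂ) * gam h (p.1 * p.2 * lam) / ((p.1 : ℂ) * p.2) *
        ((g (Real.log p.1 + u1) * g (Real.log p.2 + u2) : ℝ) : ℂ) *
        fhat φ (h * K / (8 * (p.1 * p.2 * lam))) else 0)‖ ≤
      C5 * 8 ^ 5 * (lam : ℝ) ^ 5 / ((h.natAbs : ℝ) ^ 4 * K ^ 5) *
        (rse_psh_w g u1 p.1 * rse_psh_w g u2 p.2) := by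
  have hn1 : 0 < (h.natAbs : ℝ) := by
    exact_mod_cast Int.natAbs_pos.mpr hh
  split_ifs with ho
  · obtain ⟨ho1, ho2⟩ := ho
    have hp1 : 0 < p.1 := ho1.pos
    have hp2 : 0 < p.2 := ho2.pos
    have hl : 0 < lam := hlam.pos
    have hp1' : 0 < (p.1 : ℝ) := by exact_mod_cast hp1
    have hp2' : 0 < (p.2 : ℝ) := by exact_mod_cast hp2
    have hl' : 0 < (lam : ℝ) := by exact_mod_cast hl
    have hpsi : ‖(psi i (p.1 * p.2 * lam) : ℂ)‖ ≤ 1 := by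
      rw [Complex.norm_intCast]
      have := Pool.Agent.RC.rc_dlim_psi_abs i (p.1 * p.2 * lam)
      exact_mod_cast this
    have hgam : ‖gam h (p.1 * p.2 * lam)‖ ≤ (h.natAbs : ℝ) := by
      refine (gam_bound h hh _ ((ho1.mul ho2).mul hlam)).trans ?_
      rw [Real.sqrt_le_left hn1.le]
      have : (1 : ℝ) ≤ h.natAbs := by exact_mod_cast Int.natAbs_pos.mpr hh
      nlinarith
    have hh' : (h : ℝ) ≠ 0 := by exact_mod_cast hh
    have hx : (h * K / (8 * (p.1 * p.2 * lam)) : ℝ) ≠ 0 := by positivity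
    have hf := hfh _ hx
    have habs : |(h * K / (8 * (p.1 * p.2 * lam)) : ℝ)| =
        h.natAbs * K / (8 * (p.1 * p.2 * lam)) := by
      rw [abs_div, abs_mul, abs_of_pos hK, abs_of_pos (by positivity : (0 : ℝ) < 8 * (p.1 * p.2 * lam))]
      congr 2
      rw [Nat.cast_natAbs, Int.cast_abs]
    rw [habs] at hf
    rw [norm_mul, norm_mul, norm_div, norm_mul, norm_mul, Complex.norm_natCast, Complex.norm_natCast,
      Complex.norm_real, Real.norm_eq_abs, abs_mul]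
    unfold rse_psh_w
    rw [if_pos hp1, if_pos hp2]
    calc ‖(psi i (p.1 * p.2 * lam) : ℂ)‖ * ‖gam h (p.1 * p.2 * lam)‖ / (p.1 * p.2) *
          (|g (Real.log p.1 + u1)| * |g (Real.log p.2 + u2)|) *
          ‖fhat φ (h * K / (8 * (p.1 * p.2 * lam)))‖ ≤
        1 * (h.natAbs : ℝ) / (p.1 * p.2) *
          (|g (Real.log p.1 + u1)| * |g (Real.log p.2 + u2)|) *
          (C5 / (h.natAbs * K / (8 * (p.1 * p.2 * lam))) ^ 5) := by
          gcongr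
      _ = _ := by
          field_simp
  · rw [norm_zero]
    have h1 := rse_psh_w_nonneg g u1 p.1
    have h2 := rse_psh_w_nonneg g u2 p.2
    positivity

theorem psh_bound_pr {φ g : ℝ → ℝ} (hφ : Bump φ) (hg : Ker1 g) : ∃ C : ℝ, 0 < C ∧
    ∀ (h : ℤ) (i : Fin 4) (lam : ℕ) (K u1 u2 : ℝ), h ≠ 0 → Odd lam → 0 < K →
    Summable (fun p : ℕ × ℕ => if Odd p.1 ∧ Odd p.2 then
      (psi i (p.1 * p.2 * lam) : ℂ) * gam h (p.1 * p.2 * lam) / ((p.1 : ℂ) * p.2) *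
        ((g (Real.log p.1 + u1) * g (Real.log p.2 + u2) : ℝ) : ℂ) *
        fhat φ (h * K / (8 * (p.1 * p.2 * lam))) else 0) ∧
    ‖SS φ g h i lam K u1 u2‖ ≤
      C * (lam : ℝ) ^ 5 / ((h.natAbs : ℝ) ^ 4 * K ^ 5) * Real.exp (-5 * (u1 + u2)) := by
  obtain ⟨C5, hC5, hfh⟩ := fhat_decay hφ 5
  obtain ⟨C1, hC1, hs⟩ := rse_psh_prod hg
  refine ⟨C5 * 8 ^ 5 * C1, by positivity, fun h i lam K u1 u2 hh hlam hK => ?_⟩
  have hn1 : 0 < (h.natAbs : ℝ) := by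
    exact_mod_cast Int.natAbs_pos.mpr hh
  have hterm := rse_psh_term g hC5 (fun x hx => (hfh x hx).1) h i lam K u1 u2 hh hlam hK
  have hsum := (hs u1 u2).1.mul_left
    (C5 * 8 ^ 5 * (lam : ℝ) ^ 5 / ((h.natAbs : ℝ) ^ 4 * K ^ 5))
  refine ⟨Summable.of_norm_bounded hsum hterm, ?_⟩
  unfold SS
  refine (tsum_of_norm_bounded hsum.hasSum hterm).trans ?_
  rw [tsum_mul_left]
  calc _ ≤ C5 * 8 ^ 5 * (lam : ℝ) ^ 5 / ((h.natAbs : ℝ) ^ 4 * K ^ 5) *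
        (C1 * Real.exp (-5 * (u1 + u2))) := by
        gcongr
        exact (hs u1 u2).2
    _ = _ := by ring


end Pool.Agent.RSF

namespace Pool.Agent.RSF

open Pool.Agent.RSE

alias psh_bound := psh_bound_pr

end Pool.Agent.RSF
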