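import Pool.Agent.Lib_helper39.RSF.Defs
import Pool.Agent.Lib_helper39.RSE.Defs
import Pool.Agent.Lib_helper39.RSA.DefsB
import Pool.Agent.Lib_helper39.RCA.DLIM
import Pool.Agent.Lib_helper39.RSA.FHD
import Pool.Agent.Lib_helper39.RSA.NS
import Pool.Agent.Lib_helper39.RSF.PSH
import Pool.Agent.Lib_helper39.RSA.SUMG
namespace Pool.Agent.RSF

open Pool.Agent.RSE

open Complex MeasureTheory Filter Topology
open Pool.Agent.RC (cc psi rv f0 IsRC Good gm pr DD)
open scoped ContDiff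

/-- `g(y+u) φ^(B e^{-y})`. -/
noncomputable def rse_pia_F (φ g : ℝ → ℝ) (B u y : ℝ) : ℂ :=
  (g (y + u) : ℂ) * fhat φ (B * Real.exp (-y))

/-- Its derivative. -/
noncomputable def rse_pia_F' (φ g : ℝ → ℝ) (B u y : ℝ) : ℂ :=
  ((deriv g (y + u) : ℝ) : ℂ) * fhat φ (B * Real.exp (-y)) -
    (g (y + u) : ℂ) * (((B * Real.exp (-y) : ℝ) : ℂ) * deriv (fhat φ) (B * Real.exp (-y)))

theorem rse_pia_fast {g : ℝ → ℝ} (hg : Ker1 g) : Fast g ∧ Fast (deriv g) := by
  have h0 := hg.fast 0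
  have h1 := hg.fast 1
  rw [iteratedDeriv_zero] at h0
  rw [iteratedDeriv_one] at h1
  exact ⟨h0, h1⟩

theorem rse_pia_cont {g : ℝ → ℝ} (hg : Ker1 g) : Continuous g ∧ Continuous (deriv g) :=
  ⟨hg.smooth.continuous, hg.smooth.continuous_deriv (by simp)⟩

theorem rse_pia_deriv {φ g : ℝ → ℝ} (hφ : Bump φ) (hg : Ker1 g) (B u y : ℝ) :
    HasDerivAt (rse_pia_F φ g B u) (rse_pia_F' φ g B u y) y := by
  have h1 : HasDerivAt (fun y : ℝ => g (y + u)) (deriv g (y + u)) y := by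
    have h := ((hg.smooth.differentiable (by simp)) (y + u)).hasDerivAt
    exact h.comp_add_const y u
  have h2 : HasDerivAt (fun y : ℝ => B * Real.exp (-y)) (-(B * Real.exp (-y))) y := by
    have := ((hasDerivAt_neg y).exp).const_mul B
    refine this.congr_deriv ?_
    ring
  have h3 : HasDerivAt (fun y : ℝ => fhat φ (B * Real.exp (-y)))
      ((-(B * Real.exp (-y))) • deriv (fhat φ) (B * Real.exp (-y))) y := by
    have h := (((fhat_smooth hφ).differentiable (by simp)) (B * Real.exp (-y))).hasDerivAt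
    exact h.scomp y h2
  have h4 := h1.ofReal_comp.mul h3
  refine h4.congr_deriv ?_
  unfold rse_pia_F'
  rw [Complex.real_smul]
  push_cast
  ring

theorem rse_pia_cont_F' {φ g : ℝ → ℝ} (hφ : Bump φ) (hg : Ker1 g) (B u : ℝ) :
    Continuous (rse_pia_F' φ g B u) := by
  have h1 := (rse_pia_cont hg).1
  have h2 := (rse_pia_cont hg).2
  have h3 : Continuous (fhat φ) := (fhat_smooth hφ).continuous
  have h4 : Continuous (deriv (fhat φ)) := (fhat_smooth hφ).continuous_deriv (by simp)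
  unfold rse_pia_F'
  fun_prop

theorem rse_pia_bd {φ g : ℝ → ℝ} (hφ : Bump φ) (A : ℕ) : ∃ C : ℝ, 0 < C ∧
    ∀ B u y : ℝ, B ≠ 0 → ‖rse_pia_F φ g B u y‖ + ‖rse_pia_F' φ g B u y‖ ≤
      C / |B| ^ A * Real.exp (A * y) * (2 * |g (y + u)| + |deriv g (y + u)|) := by
  obtain ⟨C, hC, h⟩ := fhat_decay hφ A
  refine ⟨C, hC, fun B u y hB => ?_⟩
  have hx : B * Real.exp (-y) ≠ 0 := mul_ne_zero hB (Real.exp_pos _).ne'
  obtain ⟨h1, h2⟩ := h _ hx
  have e : C / |B * Real.exp (-y)| ^ A = C / |B| ^ A * Real.exp (A * y) := by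
    rw [abs_mul, Real.abs_exp, mul_pow, ← Real.exp_nat_mul, div_mul_eq_div_div]
    rw [show (A : ℝ) * -y = -(A * y) by ring, Real.exp_neg, div_inv_eq_mul]
  rw [e] at h1 h2
  have n1 : ‖rse_pia_F φ g B u y‖ ≤ |g (y + u)| * (C / |B| ^ A * Real.exp (A * y)) := by
    unfold rse_pia_F
    rw [norm_mul, Complex.norm_real, Real.norm_eq_abs]
    gcongr
  have n2 : ‖rse_pia_F' φ g B u y‖ ≤ |deriv g (y + u)| * (C / |B| ^ A * Real.exp (A * y)) +
      |g (y + u)| * (C / |B| ^ A * Real.exp (A * y)) := by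
    unfold rse_pia_F'
    refine (norm_sub_le _ _).trans ?_
    rw [norm_mul, norm_mul, Complex.norm_real, Complex.norm_real, Real.norm_eq_abs,
      Real.norm_eq_abs]
    gcongr
  linarith

theorem rse_pia_G {g : ℝ → ℝ} (hg : Ker1 g) (a : ℝ) (ha : -1 < a) :
    Integrable (fun z : ℝ => Real.exp (a * z) * (2 * |g z| + |deriv g z|)) := by
  have h1 := fast_int (rse_pia_fast hg).1 (rse_pia_cont hg).1 ha
  have h2 := fast_int (rse_pia_fast hg).2 (rse_pia_cont hg).2 ha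
  refine ((h1.const_mul 2).add h2).congr ?_
  filter_upwards with z
  simp only [Pi.add_apply]
  ring

theorem rse_pia_Gu {g : ℝ → ℝ} (hg : Ker1 g) (a : ℝ) (ha : -1 < a) (u : ℝ) :
    Integrable (fun y : ℝ => Real.exp (a * y) * (2 * |g (y + u)| + |deriv g (y + u)|)) ∧
    ∫ y : ℝ, Real.exp (a * y) * (2 * |g (y + u)| + |deriv g (y + u)|) =
      Real.exp (-a * u) * ∫ z : ℝ, Real.exp (a * z) * (2 * |g z| + |deriv g z|) := by
  have h := rse_pia_G hg a ha
  have e : (fun y : ℝ => Real.exp (a * y) * (2 * |g (y + u)| + |deriv g (y + u)|)) =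
      fun y : ℝ => Real.exp (-a * u) *
        (Real.exp (a * (y + u)) * (2 * |g (y + u)| + |deriv g (y + u)|)) := by
    funext y
    rw [← mul_assoc, ← Real.exp_add]
    congr 2
    ring
  rw [e]
  refine ⟨(h.comp_add_right u).const_mul _, ?_⟩
  rw [integral_const_mul,
    integral_add_right_eq_self (fun z : ℝ => Real.exp (a * z) * (2 * |g z| + |deriv g z|)) u]

theorem rse_pia_main {φ g : ℝ → ℝ} (hφ : Bump φ) (hg : Ker1 g) : ∃ C : ℝ, 0 < C ∧
    ∀ B u : ℝ, B ≠ 0 → ContDiff ℝ 1 (rse_pia_F φ g B u) ∧ Integrable (rse_pia_F φ g B u) ∧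
      Integrable (deriv (rse_pia_F φ g B u)) ∧
      Integrable (fun y => Real.exp (-(1 / 4) * y) *
        (‖rse_pia_F φ g B u y‖ + ‖deriv (rse_pia_F φ g B u) y‖)) ∧
      ∫ y : ℝ, Real.exp (-(1 / 4) * y) *
        (‖rse_pia_F φ g B u y‖ + ‖deriv (rse_pia_F φ g B u) y‖) ≤
          C / |B| ^ 5 * Real.exp (-(19 / 4) * u) := by
  obtain ⟨C5, hC5, h5⟩ := rse_pia_bd (g := g) hφ 5
  obtain ⟨C0, hC0, h0⟩ := rse_pia_bd (g := g) hφ 0
  set J : ℝ := ∫ z : ℝ, Real.exp (19 / 4 * z) * (2 * |g z| + |deriv g z|) with hJ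
  have hJ0 : 0 ≤ J := integral_nonneg fun z => by positivity
  refine ⟨C5 * (J + 1), by positivity, fun B u hB => ?_⟩
  have hd : deriv (rse_pia_F φ g B u) = rse_pia_F' φ g B u :=
    funext fun y => (rse_pia_deriv hφ hg B u y).deriv
  have hc' := rse_pia_cont_F' hφ hg B u
  have hdiff : Differentiable ℝ (rse_pia_F φ g B u) :=
    fun y => (rse_pia_deriv hφ hg B u y).differentiableAt
  have hc := hdiff.continuous
  rw [hd]
  have hcd : ContDiff ℝ 1 (rse_pia_F φ g B u) := by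
    rw [contDiff_one_iff_deriv]
    exact ⟨hdiff, by rw [hd]; exact hc'⟩
  have b0 : ∀ y, ‖rse_pia_F φ g B u y‖ + ‖rse_pia_F' φ g B u y‖ ≤
      C0 * (2 * |g (y + u)| + |deriv g (y + u)|) := by
    intro y
    have := h0 B u y hB
    simpa using this
  have hg0 := ((rse_pia_Gu hg 0 (by norm_num) u).1).const_mul C0
  have i1 : Integrable (rse_pia_F φ g B u) := by
    refine hg0.mono' hc.aestronglyMeasurable ?_
    filter_upwards with y
    have := b0 y
    have h1 := norm_nonneg (rse_pia_F' φ g B u y)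
    simp only [zero_mul, Real.exp_zero, one_mul]
    linarith
  have i2 : Integrable (rse_pia_F' φ g B u) := by
    refine hg0.mono' hc'.aestronglyMeasurable ?_
    filter_upwards with y
    have := b0 y
    have h1 := norm_nonneg (rse_pia_F φ g B u y)
    simp only [zero_mul, Real.exp_zero, one_mul]
    linarith
  have hcw : Continuous (fun y : ℝ => Real.exp (-(1 / 4) * y) *
      (‖rse_pia_F φ g B u y‖ + ‖rse_pia_F' φ g B u y‖)) := by
    fun_prop
  have i3 : Integrable (fun y : ℝ => Real.exp (-(1 / 4) * y) *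
      (‖rse_pia_F φ g B u y‖ + ‖rse_pia_F' φ g B u y‖)) := by
    refine (((rse_pia_Gu hg (-(1 / 4)) (by norm_num) u).1).const_mul C0).mono'
      hcw.aestronglyMeasurable ?_
    filter_upwards with y
    rw [Real.norm_eq_abs, abs_of_nonneg (by positivity)]
    calc Real.exp (-(1 / 4) * y) * (‖rse_pia_F φ g B u y‖ + ‖rse_pia_F' φ g B u y‖) ≤
        Real.exp (-(1 / 4) * y) * (C0 * (2 * |g (y + u)| + |deriv g (y + u)|)) := by
          gcongr
          exact b0 y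
      _ = _ := by ring
  refine ⟨hcd, i1, i2, i3, ?_⟩
  have hgu := rse_pia_Gu hg (19 / 4) (by norm_num) u
  have hle : ∀ y : ℝ, Real.exp (-(1 / 4) * y) *
      (‖rse_pia_F φ g B u y‖ + ‖rse_pia_F' φ g B u y‖) ≤
      C5 / |B| ^ 5 * (Real.exp (19 / 4 * y) * (2 * |g (y + u)| + |deriv g (y + u)|)) := by
    intro y
    calc Real.exp (-(1 / 4) * y) * (‖rse_pia_F φ g B u y‖ + ‖rse_pia_F' φ g B u y‖) ≤
        Real.exp (-(1 / 4) * y) * (C5 / |B| ^ 5 * Real.exp ((5 : ℕ) * y) *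
          (2 * |g (y + u)| + |deriv g (y + u)|)) := by
          gcongr
          exact h5 B u y hB
      _ = C5 / |B| ^ 5 * (Real.exp (-(1 / 4) * y + (5 : ℕ) * y) *
          (2 * |g (y + u)| + |deriv g (y + u)|)) := by rw [Real.exp_add]; ring
      _ = _ := by
          congr 3
          push_cast
          ring_nf
  have := integral_mono i3 (hgu.1.const_mul (C5 / |B| ^ 5)) hle
  rw [integral_const_mul, hgu.2, ← hJ] at this
  refine this.trans ?_
  have hBp : 0 < |B| := abs_pos.mpr hB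
  have : C5 / |B| ^ 5 * (Real.exp (-(19 / 4) * u) * J) ≤
      C5 / |B| ^ 5 * (Real.exp (-(19 / 4) * u) * (J + 1)) := by
    gcongr
    linarith
  refine this.trans (le_of_eq ?_)
  ring

theorem rse_pia_trans {φ g : ℝ → ℝ} (B u τ : ℝ) :
    ∫ y : ℝ, rse_pia_F φ g (B * Real.exp (-τ)) (u + τ) y = ∫ y : ℝ, rse_pia_F φ g B u y := by
  have e : (fun y : ℝ => rse_pia_F φ g (B * Real.exp (-τ)) (u + τ) y) =
      fun y : ℝ => rse_pia_F φ g B u (y + τ) := by
    funext y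
    unfold rse_pia_F
    have e1 : y + (u + τ) = y + τ + u := by ring
    have e2 : B * Real.exp (-τ) * Real.exp (-y) = B * Real.exp (-(y + τ)) := by
      rw [mul_assoc, ← Real.exp_add]
      congr 2
      ring
    rw [e1, e2]
  rw [e, integral_add_right_eq_self (fun y : ℝ => rse_pia_F φ g B u y) τ]

/-- Inner sum. -/
noncomputable def rse_pia_in (φ g : ℝ → ℝ) (h : ℤ) (i : Fin 4) (r : ℕ) (B u : ℝ) : ℂ :=
  ∑' n : ℕ, if Odd n then (psi i n : ℂ) * gam h (n * r) / n *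
    rse_pia_F φ g B u (Real.log n) else 0

theorem rse_pia_inner {φ g : ℝ → ℝ} (hφ : Bump φ) (hg : Ker1 g) : ∃ C : ℝ, 0 < C ∧
    ∀ (h : ℤ) (i : Fin 4) (r : ℕ) (B u τ : ℝ), h ≠ 0 → Odd r → B ≠ 0 →
    ‖rse_pia_in φ g h i r (B * Real.exp (-τ)) (u + τ) - rse_pia_in φ g h i r B u‖ ≤
      C * (h.natAbs : ℝ) ^ 2 * (r : ℝ) ^ (1 / 16 : ℝ) *
        (1 / |B| ^ 5 * Real.exp (-(19 / 4) * u) * Real.exp (|τ| / 4)) := by
  obtain ⟨C1, hC1, h1⟩ := ns_sum
  obtain ⟨C2, hC2, h2⟩ := rse_pia_main hφ hg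
  refine ⟨C1 * (C2 * 2), by positivity, fun h i r B u τ hh hr hB => ?_⟩
  obtain ⟨M, hM⟩ := h1 r h i hr hh
  have hB' : B * Real.exp (-τ) ≠ 0 := mul_ne_zero hB (Real.exp_pos _).ne'
  obtain ⟨a1, a2, a3, a4, a5⟩ := h2 B u hB
  obtain ⟨b1, b2, b3, b4, b5⟩ := h2 (B * Real.exp (-τ)) (u + τ) hB'
  have c1 := (hM _ a1 a2 a3 a4).2
  have c2 := (hM _ b1 b2 b3 b4).2
  rw [rse_pia_trans] at c2
  have hBp : 0 < |B| := abs_pos.mpr hB
  have e5 : C2 / |B * Real.exp (-τ)| ^ 5 * Real.exp (-(19 / 4) * (u + τ)) =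
      C2 / |B| ^ 5 * Real.exp (-(19 / 4) * u) * Real.exp (τ / 4) := by
    rw [abs_mul, Real.abs_exp, mul_pow, ← Real.exp_nat_mul, div_mul_eq_div_div]
    rw [show ((5 : ℕ) : ℝ) * -τ = -(5 * τ) by push_cast; ring, Real.exp_neg, div_inv_eq_mul,
      mul_assoc, mul_assoc, ← Real.exp_add, ← Real.exp_add]
    congr 2
    ring
  rw [e5] at b5
  have t1 : Real.exp (τ / 4) ≤ Real.exp (|τ| / 4) := by
    apply Real.exp_le_exp.mpr
    have := le_abs_self τ
    linarith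
  have t2 : 1 ≤ Real.exp (|τ| / 4) := Real.one_le_exp (by positivity)
  set P : ℝ := C1 * (h.natAbs : ℝ) ^ 2 * (r : ℝ) ^ (1 / 16 : ℝ) with hP
  have hP0 : 0 ≤ P := by positivity
  have d1 : ‖rse_pia_in φ g h i r B u - M * ∫ y : ℝ, rse_pia_F φ g B u y‖ ≤
      P * (C2 / |B| ^ 5 * Real.exp (-(19 / 4) * u) * Real.exp (|τ| / 4)) := by
    refine c1.trans ?_
    refine mul_le_mul_of_nonneg_left (a5.trans ?_) hP0
    have : 0 ≤ C2 / |B| ^ 5 * Real.exp (-(19 / 4) * u) := by positivity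
    nlinarith
  have d2 : ‖rse_pia_in φ g h i r (B * Real.exp (-τ)) (u + τ) -
      M * ∫ y : ℝ, rse_pia_F φ g B u y‖ ≤
      P * (C2 / |B| ^ 5 * Real.exp (-(19 / 4) * u) * Real.exp (|τ| / 4)) := by
    refine c2.trans ?_
    refine mul_le_mul_of_nonneg_left (b5.trans ?_) hP0
    have : 0 ≤ C2 / |B| ^ 5 * Real.exp (-(19 / 4) * u) := by positivity
    exact mul_le_mul_of_nonneg_left t1 this
  have d3 := norm_sub_le (rse_pia_in φ g h i r (B * Real.exp (-τ)) (u + τ) -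
      M * ∫ y : ℝ, rse_pia_F φ g B u y) (rse_pia_in φ g h i r B u -
      M * ∫ y : ℝ, rse_pia_F φ g B u y)
  rw [sub_sub_sub_cancel_right] at d3
  refine (d3.trans (add_le_add d2 d1)).trans (le_of_eq ?_)
  rw [hP]
  ring

theorem rse_pia_split {φ g : ℝ → ℝ} (hφ : Bump φ) (hg : Ker1 g)
    (h : ℤ) (i : Fin 4) (lam : ℕ) (K u1 u2 : ℝ) (hh : h ≠ 0) (hlam : Odd lam) (hK : 0 < K) :
    Summable (fun b : ℕ => if Odd b then (psi i (b * lam) : ℂ) * (g (Real.log b + u2) : ℂ) / b *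
      rse_pia_in φ g h i (b * lam) (h * K / (8 * (b * lam))) u1 else 0) ∧
    SS φ g h i lam K u1 u2 =
      ∑' b : ℕ, if Odd b then (psi i (b * lam) : ℂ) * (g (Real.log b + u2) : ℂ) / b *
        rse_pia_in φ g h i (b * lam) (h * K / (8 * (b * lam))) u1 else 0 := by
  obtain ⟨C, hC, H⟩ := psh_bound hφ hg
  have hs := (H h i lam K u1 u2 hh hlam hK).1
  unfold SS
  set f : ℕ × ℕ → ℂ := fun p => if Odd p.1 ∧ Odd p.2 then
      (psi i (p.1 * p.2 * lam) : ℂ) * gam h (p.1 * p.2 * lam) / ((p.1 : ℂ) * p.2) *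
        ((g (Real.log p.1 + u1) * g (Real.log p.2 + u2) : ℝ) : ℂ) *
        fhat φ (h * K / (8 * (p.1 * p.2 * lam))) else 0 with hf
  have hs' : Summable (fun p : ℕ × ℕ => f p.swap) := (Equiv.prodComm ℕ ℕ).summable_iff.mpr hs
  have e1 : ∑' p : ℕ × ℕ, f p = ∑' p : ℕ × ℕ, f p.swap := ((Equiv.prodComm ℕ ℕ).tsum_eq f).symm
  have key : ∀ b : ℕ, ∑' a : ℕ, f (a, b) = if Odd b then
      (psi i (b * lam) : ℂ) * (g (Real.log b + u2) : ℂ) / b *
        rse_pia_in φ g h i (b * lam) (h * K / (8 * (b * lam))) u1 else 0 := by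
    intro b
    split_ifs with hb
    · unfold rse_pia_in
      rw [← tsum_mul_left]
      apply tsum_congr
      intro a
      simp only [hf]
      by_cases ha : Odd a
      · rw [if_pos ⟨ha, hb⟩, if_pos ha]
        have hap : (0 : ℝ) < a := by exact_mod_cast ha.pos
        have hbp : (0 : ℝ) < b := by exact_mod_cast hb.pos
        have hlp : (0 : ℝ) < lam := by exact_mod_cast hlam.pos
        have hac : (a : ℂ) ≠ 0 := by exact_mod_cast hap.ne'
        have hbc : (b : ℂ) ≠ 0 := by exact_mod_cast hbp.ne'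
        have e2 : a * b * lam = a * (b * lam) := by ring
        rw [e2, Pool.Agent.RC.rc_dlim_psi_mul i a (b * lam)]
        unfold rse_pia_F
        have e3 : (h * K / (8 * (a * b * lam)) : ℝ) =
            h * K / (8 * (b * lam)) * Real.exp (-Real.log a) := by
          rw [Real.exp_neg, Real.exp_log hap]
          field_simp
        rw [e3]
        push_cast
        field_simp
      · rw [if_neg (by tauto), if_neg ha, mul_zero]
    · have : (fun a : ℕ => f (a, b)) = fun _ => 0 := by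
        funext a
        simp only [hf]
        rw [if_neg (by tauto)]
      rw [this, tsum_zero]
  have hsp := hs'.prod
  have e4 : (fun b : ℕ => ∑' a : ℕ, f (Prod.swap (b, a))) = fun b : ℕ => if Odd b then
      (psi i (b * lam) : ℂ) * (g (Real.log b + u2) : ℂ) / b *
        rse_pia_in φ g h i (b * lam) (h * K / (8 * (b * lam))) u1 else 0 := funext key
  refine ⟨by rw [← e4]; exact hsp, ?_⟩
  rw [← e4, e1]
  exact hs'.tsum_prod

theorem pia_bound_pr {φ g : ℝ → ℝ} (hφ : Bump φ) (hg : Ker1 g) : ∃ C : ℝ, 0 < C ∧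
    ∀ (h : ℤ) (i : Fin 4) (lam : ℕ) (K u1 u2 τ : ℝ), h ≠ 0 → Odd lam → 0 < K →
    ‖SS φ g h i lam (K * Real.exp (-τ)) (u1 + τ) u2 - SS φ g h i lam K u1 u2‖ ≤
      C * (lam : ℝ) ^ 6 / ((h.natAbs : ℝ) ^ 3 * K ^ 5) * Real.exp (-5 * (u1 + u2)) *
        (Real.exp (|τ| / 4) * Real.exp (u1 / 4 - u2 / 16)) := by
  obtain ⟨C1, hC1, h1⟩ := rse_pia_inner hφ hg
  obtain ⟨C2, hC2, h2⟩ := fast_sum (rse_pia_fast hg).1 (a := 81 / 16) (by norm_num)
  refine ⟨C1 * 8 ^ 5 * C2, by positivity, fun h i lam K u1 u2 τ hh hlam hK => ?_⟩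
  obtain ⟨s1, t1⟩ := rse_pia_split hφ hg h i lam K u1 u2 hh hlam hK
  obtain ⟨s2, t2⟩ := rse_pia_split hφ hg h i lam (K * Real.exp (-τ)) (u1 + τ) u2 hh hlam
    (by positivity)
  have hn1 : 0 < (h.natAbs : ℝ) := by exact_mod_cast Int.natAbs_pos.mpr hh
  have hh' : (h : ℝ) ≠ 0 := by exact_mod_cast hh
  have hlp : (0 : ℝ) < lam := by exact_mod_cast hlam.pos
  have hl1 : (1 : ℝ) ≤ lam := by exact_mod_cast hlam.pos
  obtain ⟨s3, t3⟩ := h2 u2
  set w : ℕ → ℝ := fun n => if 0 < n then (n : ℝ) ^ ((81 / 16 : ℝ) - 1) *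
    |g (Real.log n + u2)| else 0 with hw
  set D : ℝ := C1 * 8 ^ 5 * (lam : ℝ) ^ (81 / 16 : ℝ) / ((h.natAbs : ℝ) ^ 3 * K ^ 5) *
    Real.exp (-(19 / 4) * u1) * Real.exp (|τ| / 4) with hD
  have hD0 : 0 ≤ D := by positivity
  rw [t1, t2, ← s2.tsum_sub s1]
  have hb : ∀ b : ℕ, ‖(if Odd b then (psi i (b * lam) : ℂ) * (g (Real.log b + u2) : ℂ) / b *
      rse_pia_in φ g h i (b * lam) (h * (K * Real.exp (-τ)) / (8 * (b * lam))) (u1 + τ) else 0) -
      (if Odd b then (psi i (b * lam) : ℂ) * (g (Real.log b + u2) : ℂ) / b *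
      rse_pia_in φ g h i (b * lam) (h * K / (8 * (b * lam))) u1 else 0)‖ ≤ D * w b := by
    intro b
    split_ifs with ho
    · have hbp : (0 : ℝ) < b := by exact_mod_cast ho.pos
      have e : (h * (K * Real.exp (-τ)) / (8 * (b * lam)) : ℝ) =
          h * K / (8 * (b * lam)) * Real.exp (-τ) := by ring
      rw [e, ← mul_sub, norm_mul, norm_div, norm_mul, Complex.norm_real, Real.norm_eq_abs,
        Complex.norm_natCast]
      have hB : (h * K / (8 * (b * lam)) : ℝ) ≠ 0 := by positivity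
      have hin := h1 h i (b * lam) (h * K / (8 * (b * lam))) u1 τ hh (ho.mul hlam) hB
      have hpsi : ‖(psi i (b * lam) : ℂ)‖ ≤ 1 := by
        rw [Complex.norm_intCast]
        have := Pool.Agent.RC.rc_dlim_psi_abs i (b * lam)
        exact_mod_cast this
      have habs : |(h * K / (8 * (b * lam)) : ℝ)| = h.natAbs * K / (8 * (b * lam)) := by
        rw [abs_div, abs_mul, abs_of_pos hK, abs_of_pos (by positivity : (0 : ℝ) < 8 * (b * lam))]
        congr 2
        rw [Nat.cast_natAbs, Int.cast_abs]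
      rw [habs] at hin
      simp only [hw]
      rw [if_pos ho.pos]
      have er : ((b * lam : ℕ) : ℝ) ^ (1 / 16 : ℝ) =
          (b : ℝ) ^ (1 / 16 : ℝ) * (lam : ℝ) ^ (1 / 16 : ℝ) := by
        push_cast
        rw [Real.mul_rpow hbp.le hlp.le]
      rw [er] at hin
      have eb : (b : ℝ) ^ ((81 / 16 : ℝ) - 1) = (b : ℝ) ^ (1 / 16 : ℝ) * (b : ℝ) ^ 4 := by
        rw [← Real.rpow_natCast, ← Real.rpow_add hbp]
        norm_num
      have el : (lam : ℝ) ^ (81 / 16 : ℝ) = (lam : ℝ) ^ (1 / 16 : ℝ) * (lam : ℝ) ^ 5 := by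
        rw [← Real.rpow_natCast, ← Real.rpow_add hlp]
        norm_num
      calc ‖(psi i (b * lam) : ℂ)‖ * |g (Real.log b + u2)| / b *
            ‖rse_pia_in φ g h i (b * lam) (h * K / (8 * (b * lam)) * Real.exp (-τ)) (u1 + τ) -
              rse_pia_in φ g h i (b * lam) (h * K / (8 * (b * lam))) u1‖ ≤
          1 * |g (Real.log b + u2)| / b *
            (C1 * (h.natAbs : ℝ) ^ 2 * ((b : ℝ) ^ (1 / 16 : ℝ) * (lam : ℝ) ^ (1 / 16 : ℝ)) *
            (1 / (h.natAbs * K / (8 * (b * lam))) ^ 5 * Real.exp (-(19 / 4) * u1) *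
              Real.exp (|τ| / 4))) := by
            gcongr
        _ = D * ((b : ℝ) ^ ((81 / 16 : ℝ) - 1) * |g (Real.log b + u2)|) := by
            rw [hD, eb, el]
            field_simp
    · rw [sub_zero, norm_zero]
      have : 0 ≤ w b := by
        simp only [hw]
        split_ifs
        · positivity
        · exact le_rfl
      positivity
  refine (tsum_of_norm_bounded (s3.mul_left D).hasSum hb).trans ?_
  rw [tsum_mul_left]
  have hl6 : (lam : ℝ) ^ (81 / 16 : ℝ) ≤ (lam : ℝ) ^ 6 := by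
    rw [← Real.rpow_natCast]
    exact Real.rpow_le_rpow_of_exponent_le hl1 (by norm_num)
  calc D * ∑' n : ℕ, w n ≤ D * (C2 * Real.exp (-(81 / 16) * u2)) :=
        mul_le_mul_of_nonneg_left t3 hD0
    _ ≤ C1 * 8 ^ 5 * (lam : ℝ) ^ 6 / ((h.natAbs : ℝ) ^ 3 * K ^ 5) *
        Real.exp (-(19 / 4) * u1) * Real.exp (|τ| / 4) * (C2 * Real.exp (-(81 / 16) * u2)) := by
        rw [hD]
        gcongr
    _ = C1 * 8 ^ 5 * C2 * (lam : ℝ) ^ 6 / ((h.natAbs : ℝ) ^ 3 * K ^ 5) *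
        (Real.exp (-(19 / 4) * u1) * Real.exp (-(81 / 16) * u2)) * Real.exp (|τ| / 4) := by ring
    _ = _ := by
        rw [← Real.exp_add, show -(19 / 4) * u1 + -(81 / 16) * u2 =
          -5 * (u1 + u2) + (u1 / 4 - u2 / 16) by ring, Real.exp_add]
        ring


end Pool.Agent.RSF

namespace Pool.Agent.RSF

open Pool.Agent.RSE

alias pia_bound := pia_bound_pr

end Pool.Agent.RSF
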