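import Pool.Agent.Lib_helper39.RSF.Defs
import Pool.Agent.Lib_helper39.RSE.Defs
import Pool.Agent.Lib_helper39.RSA.DefsB
import Pool.Agent.Lib_helper39.RCA.DLIM
import Pool.Agent.Lib_helper39.RSA.FHD
import Pool.Agent.Lib_helper39.RSA.G1
import Pool.Agent.Lib_helper39.RSA.PSN
import Pool.Agent.Lib_helper39.RSA.SUMG
namespace Pool.Agent.RSF

open Pool.Agent.RSE

open Complex MeasureTheory Filter Topology
open Pool.Agent.RC (cc psi rv f0 IsRC Good gm pr DD)
open scoped ContDiff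

theorem rse_pla_fast {g : ℝ → ℝ} (hg : Ker1 g) : Fast g := by
  have := hg.fast 0
  rwa [iteratedDeriv_zero] at this

/-! ### weights -/

/-- The weights of `fast_sum` with `a = 5`. -/
noncomputable def rse_pla_w (g : ℝ → ℝ) (u : ℝ) (n : ℕ) : ℝ :=
  if 0 < n then (n : ℝ) ^ 4 * |g (Real.log n + u)| else 0

/-- The weights of `fast_sum` with `a = 1/2`. -/
noncomputable def rse_pla_v (g : ℝ → ℝ) (u : ℝ) (n : ℕ) : ℝ :=
  if 0 < n then |g (Real.log n + u)| / √(n : ℝ) else 0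

theorem rse_pla_w_nonneg (g : ℝ → ℝ) (u : ℝ) (n : ℕ) : 0 ≤ rse_pla_w g u n := by
  unfold rse_pla_w
  split_ifs
  · positivity
  · exact le_rfl

theorem rse_pla_v_nonneg (g : ℝ → ℝ) (u : ℝ) (n : ℕ) : 0 ≤ rse_pla_v g u n := by
  unfold rse_pla_v
  split_ifs
  · positivity
  · exact le_rfl

theorem rse_pla_w_sum {g : ℝ → ℝ} (hg : Ker1 g) (u : ℝ) : Summable (rse_pla_w g u) := by
  obtain ⟨C, hC, h⟩ := fast_sum (rse_pla_fast hg) (a := 5) (by norm_num)
  refine ((h u).1).congr fun n => ?_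
  unfold rse_pla_w
  split_ifs
  · congr 1
    rw [show (5 : ℝ) - 1 = ((4 : ℕ) : ℝ) by norm_num, Real.rpow_natCast]
  · rfl

theorem rse_pla_v_sum {g : ℝ → ℝ} (hg : Ker1 g) (u : ℝ) : Summable (rse_pla_v g u) := by
  obtain ⟨C, hC, h⟩ := fast_sum (rse_pla_fast hg) (a := 1 / 2) (by norm_num)
  refine ((h u).1).congr fun n => ?_
  unfold rse_pla_v
  split_ifs with hn
  · have hn' : (0 : ℝ) < n := by exact_mod_cast hn
    rw [show (1 / 2 : ℝ) - 1 = -(1 / 2) by norm_num, Real.rpow_neg hn'.le, Real.sqrt_eq_rpow]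
    ring
  · rfl

theorem rse_pla_w_prod {g : ℝ → ℝ} (hg : Ker1 g) (u1 u2 : ℝ) :
    Summable (fun p : ℕ × ℕ => rse_pla_w g u1 p.1 * rse_pla_w g u2 p.2) :=
  (rse_pla_w_sum hg u1).mul_of_nonneg (rse_pla_w_sum hg u2) (rse_pla_w_nonneg g u1)
    (rse_pla_w_nonneg g u2)

theorem rse_pla_v_prod {g : ℝ → ℝ} (hg : Ker1 g) (u1 u2 : ℝ) :
    Summable (fun p : ℕ × ℕ => rse_pla_v g u1 p.1 * rse_pla_v g u2 p.2) :=
  (rse_pla_v_sum hg u1).mul_of_nonneg (rse_pla_v_sum hg u2) (rse_pla_v_nonneg g u1)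
    (rse_pla_v_nonneg g u2)

/-! ### the characters -/

theorem rse_pla_rv3 (j : Fin 4) (m a b c : ℕ) :
    rv j m (a * b * c) = rv j m c * rv j m a * rv j m b := by
  unfold rv
  rw [Pool.Agent.RC.rc_dlim_psi_mul, Pool.Agent.RC.rc_dlim_psi_mul, Nat.cast_mul, Nat.cast_mul,
    jacobiSym.mul_left, jacobiSym.mul_left]
  ring

theorem rse_pla_rv_sq (j : Fin 4) {m N : ℕ} (hm : 0 < m) (hN : Odd N) (h : IsSquare N) :
    rv j m N = if N.Coprime m then 1 else 0 := by
  have := Pool.Agent.RC.rc_dlim_rv_sq j hm (a := N) (b := 1) hN odd_one (by simpa using h)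
  have e1 : rv j m 1 = 1 := by
    unfold rv
    rw [Nat.cast_one, jacobiSym.one_left, mul_one]
    have := Pool.Agent.RC.rc_dlim_psi_sq j 1 odd_one
    simpa using this
  rw [e1, mul_one] at this
  rw [this]
  simp

/-! ### The product of two `DO` -/

theorem rse_pla_DO_summable {g : ℝ → ℝ} (hg : Ker1 g) (j : Fin 4) (m : ℕ) (u : ℝ) :
    Summable (fun n : ℕ => ‖(if Odd n then (rv j m n : ℝ) / √(n : ℝ) * g (Real.log n + u)
      else 0)‖) := by
  refine (rse_pla_v_sum hg u).of_nonneg_of_le (fun n => norm_nonneg _) fun n => ?_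
  split_ifs with hn
  · rw [norm_mul, norm_div, Real.norm_eq_abs, Real.norm_eq_abs, Real.norm_eq_abs,
      abs_of_nonneg (Real.sqrt_nonneg _)]
    unfold rse_pla_v
    rw [if_pos hn.pos]
    have h1 := Pool.Agent.RC.rc_dlim_rv_abs j m n
    have hn' : (0 : ℝ) < n := by exact_mod_cast hn.pos
    calc |(rv j m n : ℝ)| / √(n : ℝ) * |g (Real.log n + u)| ≤
        1 / √(n : ℝ) * |g (Real.log n + u)| := by gcongr
      _ = _ := by ring
  · rw [norm_zero]
    exact rse_pla_v_nonneg g u n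

/-- The terms of the double sum. -/
noncomputable def rse_pla_t (g : ℝ → ℝ) (u1 u2 : ℝ) (X : ℕ → ℝ) (lam : ℕ) (p : ℕ × ℕ) : ℝ :=
  if Odd p.1 ∧ Odd p.2 then g (Real.log p.1 + u1) * g (Real.log p.2 + u2) /
    √((p.1 : ℝ) * p.2) * X (p.1 * p.2 * lam) else 0

theorem rse_pla_t_sum {g : ℝ → ℝ} (hg : Ker1 g) (u1 u2 : ℝ) {X : ℕ → ℝ} {B : ℝ}
    (hX : ∀ n, |X n| ≤ B) (lam : ℕ) : Summable (rse_pla_t g u1 u2 X lam) := by
  refine Summable.of_norm_bounded ((rse_pla_v_prod hg u1 u2).mul_left B) fun p => ?_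
  unfold rse_pla_t
  split_ifs with hp
  · obtain ⟨h1, h2⟩ := hp
    have h1' : (0 : ℝ) < p.1 := by exact_mod_cast h1.pos
    have h2' : (0 : ℝ) < p.2 := by exact_mod_cast h2.pos
    unfold rse_pla_v
    rw [if_pos h1.pos, if_pos h2.pos, Real.norm_eq_abs, abs_mul, abs_div, abs_mul,
      abs_of_nonneg (Real.sqrt_nonneg _), Real.sqrt_mul h1'.le]
    calc _ ≤ |g (Real.log p.1 + u1)| * |g (Real.log p.2 + u2)| / (√(p.1 : ℝ) * √(p.2 : ℝ)) * B := by
          gcongr
          exact hX _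
      _ = _ := by ring
  · rw [norm_zero]
    have hB : 0 ≤ B := (abs_nonneg _).trans (hX 0)
    exact mul_nonneg hB (mul_nonneg (rse_pla_v_nonneg _ _ _) (rse_pla_v_nonneg _ _ _))

theorem rse_pla_DODO {g : ℝ → ℝ} (hg : Ker1 g) (j : Fin 4) (m lam : ℕ) (u1 u2 : ℝ) :
    (rv j m lam : ℝ) * DO g j m u1 * DO g j m u2 =
      ∑' p : ℕ × ℕ, rse_pla_t g u1 u2 (fun n => (rv j m n : ℝ)) lam p := by
  unfold DO
  rw [mul_assoc, tsum_mul_tsum_of_summable_norm (rse_pla_DO_summable hg j m u1)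
    (rse_pla_DO_summable hg j m u2), ← tsum_mul_left]
  apply tsum_congr
  intro p
  unfold rse_pla_t
  by_cases h1 : Odd p.1
  · by_cases h2 : Odd p.2
    · rw [if_pos h1, if_pos h2, if_pos ⟨h1, h2⟩]
      beta_reduce
      rw [rse_pla_rv3]
      have h1' : (0 : ℝ) < p.1 := by exact_mod_cast h1.pos
      rw [Real.sqrt_mul h1'.le]
      push_cast
      ring
    · rw [if_neg h2, if_neg (show ¬ (Odd p.1 ∧ Odd p.2) by tauto), mul_zero, mul_zero]
  · rw [if_neg h1, if_neg (show ¬ (Odd p.1 ∧ Odd p.2) by tauto), zero_mul, mul_zero]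

/-- the indicator of squares prime to `m` -/
noncomputable def rse_pla_q (m n : ℕ) : ℝ := by
  classical
  exact if IsSquare n ∧ n.Coprime m then 1 else 0

theorem rse_pla_q_abs (m n : ℕ) : |rse_pla_q m n| ≤ 1 := by
  unfold rse_pla_q
  split_ifs <;> simp

theorem rse_pla_SQs (g : ℝ → ℝ) (m lam : ℕ) (u1 u2 : ℝ) :
    SQs g m lam u1 u2 = ∑' p : ℕ × ℕ, rse_pla_t g u1 u2 (rse_pla_q m) lam p := by
  unfold SQs
  apply tsum_congr
  intro p
  unfold rse_pla_t rse_pla_q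
  by_cases h1 : Odd p.1 ∧ Odd p.2
  · by_cases h2 : IsSquare (p.1 * p.2 * lam) ∧ (p.1 * p.2 * lam).Coprime m
    · rw [if_pos ⟨h1.1, h1.2, h2.1, h2.2⟩, if_pos h1, if_pos h2, mul_one]
    · rw [if_neg (by tauto), if_pos h1, if_neg h2, mul_zero]
  · rw [if_neg (by tauto), if_neg h1]

theorem rse_pla_fam_pos {c : ℕ} (hc : OC c) {K : ℝ} {m : ℕ} (hm : m ∈ fam c K) : 0 < m := by
  unfold fam at hm
  rw [Finset.mem_filter] at hm
  rcases hc with h | h | h | h <;> omega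

/-- `PN` at squares or zero. -/
noncomputable def rse_pla_X (φ : ℝ → ℝ) (j : Fin 4) (c : ℕ) (K : ℝ) (n : ℕ) : ℝ := by
  classical
  exact if IsSquare n then PN φ j c K n else 0

theorem rse_pla_bd (a : ℝ) (s : Finset ℕ) (f : ℕ → ℝ) (hf : ∀ m, |f m| ≤ a) :
    |∑ m ∈ s, f m| ≤ s.card * a := by
  refine (Finset.abs_sum_le_sum_abs _ _).trans ?_
  refine (Finset.sum_le_card_nsmul _ _ a fun m _ => hf m).trans (le_of_eq ?_)
  rw [nsmul_eq_mul]

theorem rse_pla_PN_bd {φ : ℝ → ℝ} (hφ : Bump φ) (j : Fin 4) (c : ℕ) (K : ℝ) :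
    ∃ B : ℝ, ∀ n, |PN φ j c K n| ≤ B := by
  refine ⟨(fam c K).card * 1 + |K / 8 * (∫ x : ℝ, φ x)|, fun n => ?_⟩
  unfold PN
  refine (abs_sub _ _).trans ?_
  refine add_le_add (rse_pla_bd 1 _ _ fun m => ?_) ?_
  · rw [abs_mul, abs_of_nonneg (hφ.nonneg _)]
    have h1 := hφ.le (m / K)
    have h2 := Pool.Agent.RC.rc_dlim_rv_abs j m n
    have h3 := hφ.nonneg (m / K)
    nlinarith [abs_nonneg (rv j m n : ℝ)]
  · split_ifs
    · rw [abs_mul]
      have h1 : |(Nat.totient n : ℝ) / n| ≤ 1 := by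
        rw [abs_of_nonneg (by positivity)]
        exact div_le_one_of_le₀ (by exact_mod_cast Nat.totient_le n) (by positivity)
      nlinarith [abs_nonneg (K / 8 * (∫ x : ℝ, φ x))]
    · rw [abs_zero]; positivity

theorem rse_pla_PL {φ g : ℝ → ℝ} (hφ : Bump φ) (hg : Ker1 g) (j : Fin 4) {c : ℕ} (hc : OC c)
    (K : ℝ) {lam : ℕ} (hlam : Odd lam) (u1 u2 : ℝ) :
    PL φ g j c K lam u1 u2 = (∑' p : ℕ × ℕ, rse_pla_t g u1 u2 (PN φ j c K) lam p) -
      ∑' p : ℕ × ℕ, rse_pla_t g u1 u2 (rse_pla_X φ j c K) lam p := by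
  obtain ⟨B, hB⟩ := rse_pla_PN_bd hφ j c K
  have hX : ∀ n, |rse_pla_X φ j c K n| ≤ B := by
    intro n
    unfold rse_pla_X
    split_ifs
    · exact hB n
    · rw [abs_zero]; exact (abs_nonneg _).trans (hB 0)
  have s1 := rse_pla_t_sum hg u1 u2 hB lam
  have s2 := rse_pla_t_sum hg u1 u2 hX lam
  rw [← s1.tsum_sub s2]
  unfold PL
  have e1 : ∀ m ∈ fam c K, φ (m / K) * ((rv j m lam : ℝ) * DO g j m u1 * DO g j m u2 -
      SQs g m lam u1 u2) = ∑' p : ℕ × ℕ, φ (m / K) *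
        (rse_pla_t g u1 u2 (fun n => (rv j m n : ℝ)) lam p -
          rse_pla_t g u1 u2 (rse_pla_q m) lam p) := by
    intro m _
    rw [rse_pla_DODO hg, rse_pla_SQs, tsum_mul_left,
      (rse_pla_t_sum hg u1 u2 (fun n => Pool.Agent.RC.rc_dlim_rv_abs j m n) lam).tsum_sub
        (rse_pla_t_sum hg u1 u2 (rse_pla_q_abs m) lam)]
  rw [Finset.sum_congr rfl e1, ← Summable.tsum_finsetSum]
  · apply tsum_congr
    intro p
    unfold rse_pla_t
    by_cases hp : Odd p.1 ∧ Odd p.2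
    · simp only [if_pos hp]
      have hN : Odd (p.1 * p.2 * lam) := (hp.1.mul hp.2).mul hlam
      set N := p.1 * p.2 * lam
      set G := g (Real.log p.1 + u1) * g (Real.log p.2 + u2) / √((p.1 : ℝ) * p.2)
      by_cases hsq : IsSquare N
      · unfold rse_pla_X
        rw [if_pos hsq, sub_self]
        apply Finset.sum_eq_zero
        intro m hm
        have hm0 := rse_pla_fam_pos hc hm
        rw [rse_pla_rv_sq j hm0 hN hsq]
        unfold rse_pla_q
        by_cases hco : N.Coprime m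
        · rw [if_pos hco, if_pos ⟨hsq, hco⟩]; push_cast; ring
        · rw [if_neg hco, if_neg (by tauto)]; push_cast; ring
      · unfold rse_pla_X
        rw [if_neg hsq]
        unfold PN
        rw [if_neg hsq, sub_zero, mul_zero, sub_zero, Finset.mul_sum]
        apply Finset.sum_congr rfl
        intro m hm
        unfold rse_pla_q
        rw [if_neg (by tauto)]
        ring
    · simp only [if_neg hp]
      simp
  · intro m _
    exact ((rse_pla_t_sum hg u1 u2 (fun n => Pool.Agent.RC.rc_dlim_rv_abs j m n) lam).sub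
        (rse_pla_t_sum hg u1 u2 (rse_pla_q_abs m) lam)).mul_left _

/-! ### Inserting the Poisson formula -/

/-- summand of `SS` -/
noncomputable def rse_pla_s (φ g : ℝ → ℝ) (h : ℤ) (i : Fin 4) (lam : ℕ) (K u1 u2 : ℝ)
    (p : ℕ × ℕ) : ℂ := if Odd p.1 ∧ Odd p.2 then
    (psi i (p.1 * p.2 * lam) : ℂ) * gam h (p.1 * p.2 * lam) / ((p.1 : ℂ) * p.2) *
      ((g (Real.log p.1 + u1) * g (Real.log p.2 + u2) : ℝ) : ℂ) *
      fhat φ (h * K / (8 * (p.1 * p.2 * lam))) else 0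

theorem rse_pla_s_bd {φ : ℝ → ℝ} (g : ℝ → ℝ) {C5 : ℝ} (hC5 : 0 < C5)
    (hfh : ∀ x : ℝ, x ≠ 0 → ‖fhat φ x‖ ≤ C5 / |x| ^ 5) (h : ℤ) (i : Fin 4) (lam : ℕ)
    (K u1 u2 : ℝ) (hh : h ≠ 0) (hlam : Odd lam) (hK : 0 < K) (p : ℕ × ℕ) :
    ‖rse_pla_s φ g h i lam K u1 u2 p‖ ≤
      C5 * 8 ^ 5 * (lam : ℝ) ^ 5 / K ^ 5 * (1 / (h.natAbs : ℝ) ^ 4) *
        (rse_pla_w g u1 p.1 * rse_pla_w g u2 p.2) := by
  have hn1 : 0 < (h.natAbs : ℝ) := by
    exact_mod_cast Int.natAbs_pos.mpr hh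
  unfold rse_pla_s
  split_ifs with ho
  · obtain ⟨ho1, ho2⟩ := ho
    have hp1 : 0 < p.1 := ho1.pos
    have hp2 : 0 < p.2 := ho2.pos
    have hl : 0 < lam := hlam.pos
    have hp1' : 0 < (p.1 : ℝ) := by exact_mod_cast hp1
    have hp2' : 0 < (p.2 : ℝ) := by exact_mod_cast hp2
    have hl' : 0 < (lam : ℝ) := by exact_mod_cast hl
    have hpsi : ‖(psi i (p.1 * p.2 * lam) : ℂ)‖ ≤ 1 := by
      rw [Complex.norm_intCast]
      have := Pool.Agent.RC.rc_dlim_psi_abs i (p.1 * p.2 * lam)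
      exact_mod_cast this
    have hgam : ‖gam h (p.1 * p.2 * lam)‖ ≤ (h.natAbs : ℝ) := by
      refine (gam_bound h hh _ ((ho1.mul ho2).mul hlam)).trans ?_
      rw [Real.sqrt_le_left hn1.le]
      have : (1 : ℝ) ≤ h.natAbs := by exact_mod_cast Int.natAbs_pos.mpr hh
      nlinarith
    have hh' : (h : ℝ) ≠ 0 := by exact_mod_cast hh
    have hx : (h * K / (8 * (p.1 * p.2 * lam)) : ℝ) ≠ 0 := by positivity
    have hf := hfh _ hx
    have habs : |(h * K / (8 * (p.1 * p.2 * lam)) : ℝ)| =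
        h.natAbs * K / (8 * (p.1 * p.2 * lam)) := by
      rw [abs_div, abs_mul, abs_of_pos hK, abs_of_pos (by positivity : (0 : ℝ) < 8 * (p.1 * p.2 * lam))]
      congr 2
      rw [Nat.cast_natAbs, Int.cast_abs]
    rw [habs] at hf
    rw [norm_mul, norm_mul, norm_div, norm_mul, norm_mul, Complex.norm_natCast, Complex.norm_natCast,
      Complex.norm_real, Real.norm_eq_abs, abs_mul]
    unfold rse_pla_w
    rw [if_pos hp1, if_pos hp2]
    calc ‖(psi i (p.1 * p.2 * lam) : ℂ)‖ * ‖gam h (p.1 * p.2 * lam)‖ / (p.1 * p.2) *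
          (|g (Real.log p.1 + u1)| * |g (Real.log p.2 + u2)|) *
          ‖fhat φ (h * K / (8 * (p.1 * p.2 * lam)))‖ ≤
        1 * (h.natAbs : ℝ) / (p.1 * p.2) *
          (|g (Real.log p.1 + u1)| * |g (Real.log p.2 + u2)|) *
          (C5 / (h.natAbs * K / (8 * (p.1 * p.2 * lam))) ^ 5) := by
          gcongr
      _ = _ := by
          field_simp
  · rw [norm_zero]
    have h1 := rse_pla_w_nonneg g u1 p.1
    have h2 := rse_pla_w_nonneg g u2 p.2
    positivity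

theorem rse_pla_int_sum : Summable (fun h : ℤ => if h = 0 then (0 : ℝ) else
    1 / (h.natAbs : ℝ) ^ 4) := by
  have h1 : Summable (fun n : ℕ => 1 / (n : ℝ) ^ 4) :=
    Real.summable_one_div_nat_pow.mpr (by norm_num)
  have h2 : Summable (fun h : ℤ => 1 / (h.natAbs : ℝ) ^ 4) := by
    refine Summable.of_nat_of_neg ?_ ?_
    · simp
    · simp
  refine h2.of_nonneg_of_le (fun h => ?_) fun h => ?_
  · split_ifs
    · exact le_rfl
    · positivity
  · split_ifs
    · positivity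
    · exact le_rfl

theorem pl_eq_pr (j : Fin 4) (c : ℕ) (hc : OC c) : ∃ x : ℤ → Fin 4 → ℂ, (∀ h i, ‖x h i‖ ≤ 1) ∧
    ∀ φ g : ℝ → ℝ, Bump φ → Ker1 g → ∀ (K : ℝ) (lam : ℕ) (u1 u2 : ℝ), 0 < K → Odd lam →
    ((PL φ g j c K lam u1 u2 : ℝ) : ℂ) =
      K / (8 * √(lam : ℝ)) * (∑' h : ℤ, if h = 0 then 0 else
        ∑ i : Fin 4, x h i * SS φ g h i lam K u1 u2) -
      ((∑' p : ℕ × ℕ, (if Odd p.1 ∧ Odd p.2 ∧ IsSquare (p.1 * p.2 * lam) then
        g (Real.log p.1 + u1) * g (Real.log p.2 + u2) / √((p.1 : ℝ) * p.2) *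
          PN φ j c K (p.1 * p.2 * lam) else 0) : ℝ) : ℂ) := by
  obtain ⟨x, hx, hP⟩ := psn_sum j c hc
  refine ⟨x, hx, fun φ g hφ hg K lam u1 u2 hK hlam => ?_⟩
  have hP := hP φ hφ K
  rw [rse_pla_PL hφ hg j hc K hlam u1 u2, Complex.ofReal_sub]
  congr 1
  · -- the main part
    have hlp : (0 : ℝ) < lam := by exact_mod_cast hlam.pos
    obtain ⟨C5, hC5, hfh⟩ := fhat_decay hφ 5
    set T : ℤ × (ℕ × ℕ) → ℂ := fun q => if q.1 = 0 then 0 else
      ∑ i : Fin 4, x q.1 i * rse_pla_s φ g q.1 i lam K u1 u2 q.2 with hT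
    set D : ℝ := C5 * 8 ^ 5 * (lam : ℝ) ^ 5 / K ^ 5 with hD
    have hD0 : 0 ≤ D := by positivity
    have hTb : ∀ q, ‖T q‖ ≤ 4 * D * ((if q.1 = 0 then (0 : ℝ) else 1 / (q.1.natAbs : ℝ) ^ 4) *
        (rse_pla_w g u1 q.2.1 * rse_pla_w g u2 q.2.2)) := by
      rintro ⟨h, p⟩
      simp only [hT]
      by_cases h0 : h = 0
      · rw [if_pos h0, if_pos h0, norm_zero]; simp
      · rw [if_neg h0, if_neg h0]
        have : ∀ i ∈ (Finset.univ : Finset (Fin 4)),
            ‖x h i * rse_pla_s φ g h i lam K u1 u2 p‖ ≤ D * (1 / (h.natAbs : ℝ) ^ 4) *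
              (rse_pla_w g u1 p.1 * rse_pla_w g u2 p.2) := by
          intro i _
          rw [norm_mul]
          have h1 := rse_pla_s_bd g hC5 (fun x hx => (hfh x hx).1) h i lam K u1 u2 h0 hlam hK p
          have h2 := hx h i
          calc _ ≤ 1 * (C5 * 8 ^ 5 * (lam : ℝ) ^ 5 / K ^ 5 * (1 / (h.natAbs : ℝ) ^ 4) *
                (rse_pla_w g u1 p.1 * rse_pla_w g u2 p.2)) := by gcongr
            _ = _ := by rw [hD]; ring
        refine (norm_sum_le_of_le _ this).trans (le_of_eq ?_)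
        rw [Finset.sum_const, Finset.card_univ, Fintype.card_fin, nsmul_eq_mul]
        push_cast
        ring
    have hTs : Summable T := by
      refine Summable.of_norm_bounded ?_ hTb
      refine Summable.mul_left _ ?_
      refine rse_pla_int_sum.mul_of_nonneg (rse_pla_w_prod hg u1 u2) (fun h => ?_) fun p => ?_
      · simp only [Pi.zero_apply]
        split_ifs
        · exact le_rfl
        · positivity
      · exact mul_nonneg (rse_pla_w_nonneg _ _ _) (rse_pla_w_nonneg _ _ _)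
    -- sum over `p` first
    have hs : ∀ h : ℤ, h ≠ 0 → ∀ i, Summable (rse_pla_s φ g h i lam K u1 u2) := by
      intro h h0 i
      refine Summable.of_norm_bounded ((rse_pla_w_prod hg u1 u2).mul_left _)
        (rse_pla_s_bd g hC5 (fun x hx => (hfh x hx).1) h i lam K u1 u2 h0 hlam hK)
    have e1 : (∑' h : ℤ, if h = 0 then (0 : ℂ) else
        ∑ i : Fin 4, x h i * SS φ g h i lam K u1 u2) = ∑' h : ℤ, ∑' p : ℕ × ℕ, T (h, p) := by
      apply tsum_congr
      intro h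
      simp only [hT]
      by_cases h0 : h = 0
      · simp [h0]
      · simp only [if_neg h0]
        rw [Summable.tsum_finsetSum]
        · apply Finset.sum_congr rfl
          intro i _
          rw [tsum_mul_left]
          rfl
        · intro i _
          exact (hs h h0 i).mul_left _
    rw [e1, ← hTs.tsum_prod]
    have hTs' : Summable (fun q : (ℕ × ℕ) × ℤ => T q.swap) :=
      (Equiv.prodComm (ℕ × ℕ) ℤ).summable_iff.mpr hTs
    have e2 : ∑' q : ℤ × (ℕ × ℕ), T q = ∑' q : (ℕ × ℕ) × ℤ, T q.swap :=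
      ((Equiv.prodComm (ℕ × ℕ) ℤ).tsum_eq T).symm
    rw [e2, hTs'.tsum_prod, Complex.ofReal_tsum, ← tsum_mul_left]
    apply tsum_congr
    intro p
    simp only [Prod.swap_prod_mk, hT]
    unfold rse_pla_t
    by_cases hp : Odd p.1 ∧ Odd p.2
    · rw [if_pos hp]
      have hN : Odd (p.1 * p.2 * lam) := (hp.1.mul hp.2).mul hlam
      have h1 := (hP (p.1 * p.2 * lam) hK hN).2
      rw [Complex.ofReal_mul, h1, ← mul_assoc, ← tsum_mul_left, ← tsum_mul_left]
      apply tsum_congr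
      intro h
      by_cases h0 : h = 0
      · simp [h0]
      · rw [if_neg h0, if_neg h0]
        have p1 : (0 : ℝ) < p.1 := by exact_mod_cast hp.1.pos
        have p2 : (0 : ℝ) < p.2 := by exact_mod_cast hp.2.pos
        have es : ((√((p.1 * p.2 * lam : ℕ) : ℝ) : ℝ) : ℂ) =
            ((√((p.1 : ℝ) * p.2) : ℝ) : ℂ) * ((√(lam : ℝ) : ℝ) : ℂ) := by
          rw [← Complex.ofReal_mul, ← Real.sqrt_mul (by positivity)]
          push_cast
          rfl
        have ss : ((√((p.1 : ℝ) * p.2) : ℝ) : ℂ) * ((√((p.1 : ℝ) * p.2) : ℝ) : ℂ) =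
            (p.1 : ℂ) * p.2 := by
          rw [← Complex.ofReal_mul, Real.mul_self_sqrt (by positivity)]
          push_cast
          rfl
        have sn : ((√((p.1 : ℝ) * p.2) : ℝ) : ℂ) ≠ 0 := by
          have : √((p.1 : ℝ) * p.2) ≠ 0 := by positivity
          exact_mod_cast this
        have sl : ((√(lam : ℝ) : ℝ) : ℂ) ≠ 0 := by
          have : √(lam : ℝ) ≠ 0 := by positivity
          exact_mod_cast this
        have pc1 : (p.1 : ℂ) ≠ 0 := by exact_mod_cast p1.ne'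
        have pc2 : (p.2 : ℂ) ≠ 0 := by exact_mod_cast p2.ne'
        rw [es]
        unfold rse_pla_s
        simp only [if_pos hp]
        rw [← ss]
        have ef : (h * K / (8 * ((p.1 * p.2 * lam : ℕ) : ℝ)) : ℝ) =
            h * K / (8 * (p.1 * p.2 * lam)) := by push_cast; ring
        rw [ef]
        set G := fhat φ (h * K / (8 * (p.1 * p.2 * lam)))
        set Γ := gam h (p.1 * p.2 * lam)
        simp only [Finset.mul_sum, Finset.sum_mul]
        apply Finset.sum_congr rfl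
        intro i _
        push_cast
        field_simp
    · rw [if_neg hp]
      unfold rse_pla_s
      simp [hp]
  · -- squares
    congr 1
    apply tsum_congr
    intro p
    unfold rse_pla_t rse_pla_X
    by_cases hp : Odd p.1 ∧ Odd p.2
    · by_cases hs : IsSquare (p.1 * p.2 * lam)
      · rw [if_pos hp, if_pos hs, if_pos ⟨hp.1, hp.2, hs⟩]
      · rw [if_pos hp, if_neg hs, if_neg (by tauto), mul_zero]
    · rw [if_neg hp, if_neg (by tauto)]


end Pool.Agent.RSF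

namespace Pool.Agent.RSF

open Pool.Agent.RSE

alias pl_eq := pl_eq_pr

end Pool.Agent.RSF
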