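import Pool.Agent.Lib_helper39.RSF.Defs
import Pool.Agent.Lib_helper39.RSE.Defs
import Pool.Agent.Lib_helper39.RSA.DefsB
import Pool.Agent.Lib_helper39.RCA.DLIM
namespace Pool.Agent.RSF

open Pool.Agent.RSE

open Complex MeasureTheory Filter Topology
open Pool.Agent.RC (cc psi rv f0 IsRC Good gm pr DD)
open scoped ContDiff

theorem rse_pqs_ex (n : ℕ) : ∃ q : ℕ × ℕ, 0 < n → 0 < q.1 ∧ 0 < q.2 ∧ q.2 ^ 2 * q.1 = n ∧
    Squarefree q.1 := by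
  by_cases hn : 0 < n
  · obtain ⟨a, b, h1, h2, h3, h4⟩ := Nat.sq_mul_squarefree_of_pos hn
    exact ⟨(a, b), fun _ => ⟨h1, h2, h3, h4⟩⟩
  · exact ⟨(0, 0), fun h => absurd h hn⟩

/-- The squarefree kernel and the square factor. -/
noncomputable def rse_pqs_d (n : ℕ) : ℕ × ℕ := (rse_pqs_ex n).choose

theorem rse_pqs_d_spec {n : ℕ} (hn : 0 < n) : 0 < (rse_pqs_d n).1 ∧ 0 < (rse_pqs_d n).2 ∧
    (rse_pqs_d n).2 ^ 2 * (rse_pqs_d n).1 = n ∧ Squarefree (rse_pqs_d n).1 :=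
  (rse_pqs_ex n).choose_spec hn

/-- The coordinates of a pair. -/
noncomputable def rse_pqs_e (p : ℕ × ℕ) : ℕ × ℕ × ℕ :=
  ((rse_pqs_d p.1).1, (rse_pqs_d p.1).2, (rse_pqs_d p.2).2)

theorem rse_pqs_sqmul {a b : ℕ} (hb : 0 < b) (h : IsSquare (b ^ 2 * a)) : IsSquare a := by
  obtain ⟨c, hc⟩ := h
  have h1 : b ^ 2 ∣ c ^ 2 := ⟨a, by rw [hc]; ring⟩
  obtain ⟨d, rfl⟩ := (Nat.pow_dvd_pow_iff two_ne_zero).mp h1
  refine ⟨d, ?_⟩
  have : b ^ 2 * a = b ^ 2 * (d * d) := by rw [hc]; ring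
  exact Nat.eq_of_mul_eq_mul_left (by positivity) this

theorem rse_pqs_inj {lam : ℕ} (hl : 0 < lam) {p q : ℕ × ℕ} (hp1 : 0 < p.1) (hp2 : 0 < p.2)
    (hq1 : 0 < q.1) (hq2 : 0 < q.2) (hp : IsSquare (p.1 * p.2 * lam))
    (hq : IsSquare (q.1 * q.2 * lam)) (h : rse_pqs_e p = rse_pqs_e q) : p = q := by
  unfold rse_pqs_e at h
  simp only [Prod.mk.injEq] at h
  obtain ⟨h1, h2, h3⟩ := h
  obtain ⟨a1, a2, a3, a4⟩ := rse_pqs_d_spec hp1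
  obtain ⟨b1, b2, b3, b4⟩ := rse_pqs_d_spec hp2
  obtain ⟨c1, c2, c3, c4⟩ := rse_pqs_d_spec hq1
  obtain ⟨d1, d2, d3, d4⟩ := rse_pqs_d_spec hq2
  have e1 : p.1 = q.1 := by rw [← a3, ← c3, h1, h2]
  rw [← e1] at hq
  -- `p.2 * q.2` is a square
  have s1 : IsSquare ((p.1 * lam) ^ 2 * (p.2 * q.2)) := by
    have := hp.mul hq
    have e : p.1 * p.2 * lam * (p.1 * q.2 * lam) = (p.1 * lam) ^ 2 * (p.2 * q.2) := by ring
    rwa [e] at this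
  have s2 := rse_pqs_sqmul (by positivity) s1
  have s3 : IsSquare (((rse_pqs_d p.2).2 * (rse_pqs_d q.2).2) ^ 2 *
      ((rse_pqs_d p.2).1 * (rse_pqs_d q.2).1)) := by
    have e : ((rse_pqs_d p.2).2 * (rse_pqs_d q.2).2) ^ 2 *
      ((rse_pqs_d p.2).1 * (rse_pqs_d q.2).1) = p.2 * q.2 := by
      rw [← b3, ← d3] 
      rw [b3, d3]
      nth_rewrite 3 [← b3]
      nth_rewrite 3 [← d3]
      ring
    rwa [e]
  have s4 := rse_pqs_sqmul (by positivity) s3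
  obtain ⟨c, hc⟩ := s4
  have e2 := Pool.Agent.RC.rc_dlim_sqf b4 d4 hc
  have e3 : p.2 = q.2 := by rw [← b3, ← d3, h3, e2]
  exact Prod.ext e1 e3

/-- `k ≤ k' λ`. -/
theorem rse_pqs_le {lam : ℕ} (hl : 0 < lam) {p : ℕ × ℕ} (hp1 : 0 < p.1) (hp2 : 0 < p.2)
    (hp : IsSquare (p.1 * p.2 * lam)) : (rse_pqs_d p.1).1 ≤ (rse_pqs_d p.2).1 * lam := by
  obtain ⟨a1, a2, a3, a4⟩ := rse_pqs_d_spec hp1
  obtain ⟨b1, b2, b3, b4⟩ := rse_pqs_d_spec hp2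
  have s3 : IsSquare (((rse_pqs_d p.1).2 * (rse_pqs_d p.2).2) ^ 2 *
      ((rse_pqs_d p.1).1 * ((rse_pqs_d p.2).1 * lam))) := by
    have e : ((rse_pqs_d p.1).2 * (rse_pqs_d p.2).2) ^ 2 *
      ((rse_pqs_d p.1).1 * ((rse_pqs_d p.2).1 * lam)) = p.1 * p.2 * lam := by
      calc _ = ((rse_pqs_d p.1).2 ^ 2 * (rse_pqs_d p.1).1) *
          ((rse_pqs_d p.2).2 ^ 2 * (rse_pqs_d p.2).1) * lam := by ring
        _ = _ := by rw [a3, b3]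
    rwa [e]
  obtain ⟨c, hc⟩ := rse_pqs_sqmul (by positivity) s3
  have h1 : (rse_pqs_d p.1).1 ∣ c ^ 2 := ⟨_, by rw [pow_two, ← hc]⟩
  have h2 : (rse_pqs_d p.1).1 ∣ c := (a4.dvd_pow_iff_dvd two_ne_zero).mp h1
  obtain ⟨d, hd⟩ := h2
  have h3 : (rse_pqs_d p.2).1 * lam = (rse_pqs_d p.1).1 * d ^ 2 := by
    have : (rse_pqs_d p.1).1 * ((rse_pqs_d p.2).1 * lam) =
        (rse_pqs_d p.1).1 * ((rse_pqs_d p.1).1 * d ^ 2) := by
      rw [hc, hd]; ring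
    exact Nat.eq_of_mul_eq_mul_left a1 this
  exact Nat.le_of_dvd (by positivity) ⟨d ^ 2, h3⟩

/-- The convergent weight. -/
noncomputable def rse_pqs_v (n : ℕ) : ℝ := if 0 < n then (n : ℝ) ^ (-(5 / 4) : ℝ) else 0

theorem rse_pqs_v_nonneg (n : ℕ) : 0 ≤ rse_pqs_v n := by
  unfold rse_pqs_v
  split_ifs
  · positivity
  · exact le_rfl

theorem rse_pqs_v_sum : Summable rse_pqs_v := by
  have h : Summable (fun n : ℕ => (n : ℝ) ^ (-(5 / 4) : ℝ)) :=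
    Real.summable_nat_rpow.mpr (by norm_num)
  refine h.of_nonneg_of_le rse_pqs_v_nonneg fun n => ?_
  unfold rse_pqs_v
  split_ifs
  · exact le_rfl
  · positivity

noncomputable def rse_pqs_V (t : ℕ × ℕ × ℕ) : ℝ :=
  rse_pqs_v t.1 * (rse_pqs_v t.2.1 * rse_pqs_v t.2.2)

theorem rse_pqs_V_nonneg (t : ℕ × ℕ × ℕ) : 0 ≤ rse_pqs_V t :=
  mul_nonneg (rse_pqs_v_nonneg _) (mul_nonneg (rse_pqs_v_nonneg _) (rse_pqs_v_nonneg _))

theorem rse_pqs_V_sum : Summable rse_pqs_V := by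
  have h := rse_pqs_v_sum
  have h2 := h.mul_of_nonneg h rse_pqs_v_nonneg rse_pqs_v_nonneg
  exact h.mul_of_nonneg h2 rse_pqs_v_nonneg
    (fun t => mul_nonneg (rse_pqs_v_nonneg _) (rse_pqs_v_nonneg _))

theorem rse_pqs_term {lam : ℕ} (hl : 0 < lam) {p : ℕ × ℕ} (hp1 : 0 < p.1) (hp2 : 0 < p.2)
    (hp : IsSquare (p.1 * p.2 * lam)) :
    ((p.1 : ℝ) * p.2) ^ (-(5 / 8) : ℝ) ≤ (lam : ℝ) ^ (5 / 8 : ℝ) * rse_pqs_V (rse_pqs_e p) := by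
  obtain ⟨a1, a2, a3, a4⟩ := rse_pqs_d_spec hp1
  obtain ⟨b1, b2, b3, b4⟩ := rse_pqs_d_spec hp2
  have hle := rse_pqs_le hl hp1 hp2 hp
  unfold rse_pqs_V rse_pqs_e rse_pqs_v
  simp only
  rw [if_pos a1, if_pos a2, if_pos b2]
  set k := (rse_pqs_d p.1).1
  set a := (rse_pqs_d p.1).2
  set k' := (rse_pqs_d p.2).1
  set b := (rse_pqs_d p.2).2
  have ka : (0 : ℝ) < k := by exact_mod_cast a1
  have kb : (0 : ℝ) < k' := by exact_mod_cast b1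
  have pa : (0 : ℝ) < a := by exact_mod_cast a2
  have pb : (0 : ℝ) < b := by exact_mod_cast b2
  have pl : (0 : ℝ) < lam := by exact_mod_cast hl
  have hle' : (k : ℝ) ≤ k' * lam := by exact_mod_cast hle
  rw [← a3, ← b3]
  push_cast
  have e1 : ((a : ℝ) ^ 2 * k * (b ^ 2 * k')) = (a * b) ^ 2 * (k * k') := by ring
  have e2 : (((a : ℝ) * b) ^ 2) ^ (-(5 / 8) : ℝ) = (a : ℝ) ^ (-(5 / 4) : ℝ) *
      (b : ℝ) ^ (-(5 / 4) : ℝ) := by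
    rw [← Real.mul_rpow pa.le pb.le, ← Real.rpow_natCast, ← Real.rpow_mul (by positivity)]
    norm_num
  rw [e1, Real.mul_rpow (by positivity) (by positivity), e2]
  have e3 : ((k : ℝ) * k') ^ (-(5 / 8) : ℝ) ≤ (lam : ℝ) ^ (5 / 8 : ℝ) *
      (k : ℝ) ^ (-(5 / 4) : ℝ) := by
    have h1 : (k : ℝ) ^ 2 / lam ≤ k * k' := by
      rw [div_le_iff₀ pl]
      nlinarith
    have h2 : ((k : ℝ) * k') ^ (-(5 / 8) : ℝ) ≤ ((k : ℝ) ^ 2 / lam) ^ (-(5 / 8) : ℝ) :=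
      Real.rpow_le_rpow_of_nonpos (by positivity) h1 (by norm_num)
    refine h2.trans (le_of_eq ?_)
    rw [Real.div_rpow (by positivity) pl.le, ← Real.rpow_natCast, ← Real.rpow_mul ka.le,
      Real.rpow_neg pl.le, div_inv_eq_mul]
    norm_num
    ring
  calc _ ≤ (a : ℝ) ^ (-(5 / 4) : ℝ) * (b : ℝ) ^ (-(5 / 4) : ℝ) * ((lam : ℝ) ^ (5 / 8 : ℝ) *
      (k : ℝ) ^ (-(5 / 4) : ℝ)) := by gcongr
    _ = _ := by ring

theorem pqs_bound_pr {g : ℝ → ℝ} (hg : Ker1 g) : ∃ C : ℝ, 0 < C ∧ ∀ (lam : ℕ) (u1 u2 : ℝ), Odd lam →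
    Summable (fun p : ℕ × ℕ => if Odd p.1 ∧ Odd p.2 ∧ IsSquare (p.1 * p.2 * lam) then
      |g (Real.log p.1 + u1) * g (Real.log p.2 + u2)| / √((p.1 : ℝ) * p.2) *
        ((p.1 * p.2 * lam : ℕ) : ℝ) ^ (1 / 8 : ℝ) else 0) ∧
    ∑' p : ℕ × ℕ, (if Odd p.1 ∧ Odd p.2 ∧ IsSquare (p.1 * p.2 * lam) then
      |g (Real.log p.1 + u1) * g (Real.log p.2 + u2)| / √((p.1 : ℝ) * p.2) *
        ((p.1 * p.2 * lam : ℕ) : ℝ) ^ (1 / 8 : ℝ) else 0) ≤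
      C * lam * Real.exp (-(u1 + u2) / 4) := by
  have hf : Fast g := by
    have := hg.fast 0
    rwa [iteratedDeriv_zero] at this
  obtain ⟨C0, hC0⟩ := hf (1 / 4) (by norm_num)
  set C1 : ℝ := |C0| + 1 with hC1
  have hC1p : 0 < C1 := by positivity
  have hgb : ∀ z : ℝ, |g z| ≤ C1 * Real.exp (-(1 / 4) * z) := by
    intro z
    refine (hC0 z).trans ?_
    have := le_abs_self C0
    gcongr
    linarith
  set V : ℝ := ∑' t : ℕ × ℕ × ℕ, rse_pqs_V t with hV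
  have hV0 : 0 ≤ V := tsum_nonneg rse_pqs_V_nonneg
  refine ⟨C1 ^ 2 * (V + 1), by positivity, fun lam u1 u2 hlam => ?_⟩
  have hl : 0 < lam := hlam.pos
  have hlp : (0 : ℝ) < lam := by exact_mod_cast hl
  have hl1 : (1 : ℝ) ≤ lam := by exact_mod_cast hl
  set D : ℝ := C1 ^ 2 * (lam : ℝ) * Real.exp (-(u1 + u2) / 4) with hD
  have hD0 : 0 ≤ D := by positivity
  set S : Set (ℕ × ℕ) := {p | Odd p.1 ∧ Odd p.2 ∧ IsSquare (p.1 * p.2 * lam)} with hS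
  set f : ℕ × ℕ → ℝ := fun p => |g (Real.log p.1 + u1) * g (Real.log p.2 + u2)| /
    √((p.1 : ℝ) * p.2) * ((p.1 * p.2 * lam : ℕ) : ℝ) ^ (1 / 8 : ℝ) with hfd
  have hind : (fun p : ℕ × ℕ => if Odd p.1 ∧ Odd p.2 ∧ IsSquare (p.1 * p.2 * lam) then
      |g (Real.log p.1 + u1) * g (Real.log p.2 + u2)| / √((p.1 : ℝ) * p.2) *
        ((p.1 * p.2 * lam : ℕ) : ℝ) ^ (1 / 8 : ℝ) else 0) = S.indicator f := by
    funext p
    by_cases hp : Odd p.1 ∧ Odd p.2 ∧ IsSquare (p.1 * p.2 * lam)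
    · rw [if_pos hp, Set.indicator_of_mem (show p ∈ S from hp)]
    · rw [if_neg hp, Set.indicator_of_notMem (show p ∉ S from hp)]
  have hinj : Function.Injective (fun p : S => rse_pqs_e p) := by
    intro p q hpq
    obtain ⟨p1, p2, p3⟩ := p.2
    obtain ⟨q1, q2, q3⟩ := q.2
    exact Subtype.ext (rse_pqs_inj hl p1.pos p2.pos q1.pos q2.pos p3 q3 hpq)
  have hle : ∀ p : S, f p ≤ D * rse_pqs_V (rse_pqs_e p) := by
    intro p
    obtain ⟨p1, p2, p3⟩ := p.2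
    have hp1 : (0 : ℝ) < (p : ℕ × ℕ).1 := by exact_mod_cast p1.pos
    have hp2 : (0 : ℝ) < (p : ℕ × ℕ).2 := by exact_mod_cast p2.pos
    have ht := rse_pqs_term hl p1.pos p2.pos p3
    set n : ℝ := ((p : ℕ × ℕ).1 : ℝ)
    set n' : ℝ := ((p : ℕ × ℕ).2 : ℝ)
    have g1 : |g (Real.log n + u1)| ≤ C1 * (n ^ (-(1 / 4) : ℝ) * Real.exp (-u1 / 4)) := by
      refine (hgb _).trans (le_of_eq ?_)
      rw [Real.rpow_def_of_pos hp1, ← Real.exp_add]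
      ring_nf
    have g2 : |g (Real.log n' + u2)| ≤ C1 * (n' ^ (-(1 / 4) : ℝ) * Real.exp (-u2 / 4)) := by
      refine (hgb _).trans (le_of_eq ?_)
      rw [Real.rpow_def_of_pos hp2, ← Real.exp_add]
      ring_nf
    have hVn := rse_pqs_V_nonneg (rse_pqs_e p)
    simp only [hfd]
    rw [abs_mul]
    push_cast
    have hll : (lam : ℝ) ^ (1 / 8 : ℝ) * (lam : ℝ) ^ (5 / 8 : ℝ) ≤ lam := by
      rw [← Real.rpow_add hlp]
      calc (lam : ℝ) ^ (1 / 8 + 5 / 8 : ℝ) ≤ (lam : ℝ) ^ (1 : ℝ) :=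
            Real.rpow_le_rpow_of_exponent_le hl1 (by norm_num)
        _ = lam := Real.rpow_one _
    have hpow : n ^ (-(1 / 4) : ℝ) * n' ^ (-(1 / 4) : ℝ) / √(n * n') * (n * n') ^ (1 / 8 : ℝ) =
        (n * n') ^ (-(5 / 8) : ℝ) := by
      rw [← Real.mul_rpow hp1.le hp2.le, Real.sqrt_eq_rpow, ← Real.rpow_sub (by positivity),
        ← Real.rpow_add (by positivity)]
      norm_num
    calc |g (Real.log n + u1)| * |g (Real.log n' + u2)| / √(n * n') *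
          (n * n' * lam) ^ (1 / 8 : ℝ) ≤
        (C1 * (n ^ (-(1 / 4) : ℝ) * Real.exp (-u1 / 4))) *
          (C1 * (n' ^ (-(1 / 4) : ℝ) * Real.exp (-u2 / 4))) / √(n * n') *
          (n * n' * lam) ^ (1 / 8 : ℝ) := by gcongr
      _ = C1 ^ 2 * (Real.exp (-u1 / 4) * Real.exp (-u2 / 4)) * (lam : ℝ) ^ (1 / 8 : ℝ) *
          (n ^ (-(1 / 4) : ℝ) * n' ^ (-(1 / 4) : ℝ) / √(n * n') * (n * n') ^ (1 / 8 : ℝ)) := by
          rw [Real.mul_rpow (by positivity) hlp.le]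
          ring
      _ ≤ C1 ^ 2 * (Real.exp (-u1 / 4) * Real.exp (-u2 / 4)) * (lam : ℝ) ^ (1 / 8 : ℝ) *
          ((lam : ℝ) ^ (5 / 8 : ℝ) * rse_pqs_V (rse_pqs_e p)) := by
          rw [hpow]
          gcongr
      _ = C1 ^ 2 * Real.exp (-(u1 + u2) / 4) * ((lam : ℝ) ^ (1 / 8 : ℝ) *
          (lam : ℝ) ^ (5 / 8 : ℝ)) * rse_pqs_V (rse_pqs_e p) := by
          rw [← Real.exp_add, show -u1 / 4 + -u2 / 4 = -(u1 + u2) / 4 by ring]
          ring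
      _ ≤ C1 ^ 2 * Real.exp (-(u1 + u2) / 4) * lam * rse_pqs_V (rse_pqs_e p) := by gcongr
      _ = _ := by rw [hD]; ring
  have hf0 : ∀ p : S, 0 ≤ f p := fun p => by simp only [hfd]; positivity
  have hVs : Summable (fun p : S => rse_pqs_V (rse_pqs_e p)) :=
    rse_pqs_V_sum.comp_injective hinj
  have hfs : Summable (fun p : S => f p) :=
    (hVs.mul_left D).of_nonneg_of_le hf0 hle
  rw [hind]
  refine ⟨summable_subtype_iff_indicator.mp hfs, ?_⟩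
  rw [← tsum_subtype]
  have hV1 : ∑' p : S, rse_pqs_V (rse_pqs_e p) ≤ V :=
    hVs.tsum_le_tsum_of_inj (fun p : S => rse_pqs_e p) hinj
      (fun t _ => rse_pqs_V_nonneg t) (fun p => le_rfl) rse_pqs_V_sum
  calc ∑' p : S, f p ≤ ∑' p : S, D * rse_pqs_V (rse_pqs_e p) :=
        hfs.tsum_le_tsum hle (hVs.mul_left D)
    _ = D * ∑' p : S, rse_pqs_V (rse_pqs_e p) := tsum_mul_left
    _ ≤ D * (V + 1) := by gcongr; linarith
    _ = _ := by rw [hD]; ring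


end Pool.Agent.RSF

namespace Pool.Agent.RSF

open Pool.Agent.RSE

alias pqs_bound := pqs_bound_pr

end Pool.Agent.RSF
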