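import Pool.Agent.Lib_helper39.RSF.Defs
import Pool.Agent.Lib_helper39.RSE.Defs
import Pool.Agent.Lib_helper39.RSA.DefsB
import Pool.Agent.Lib_helper39.RSF.PIH
import Pool.Agent.Lib_helper39.RSF.PLA
import Pool.Agent.Lib_helper39.RSA.PQB
import Pool.Agent.Lib_helper39.RSF.PQS
import Pool.Agent.Lib_helper39.RSF.PSH
/-!
# RSE, block PLM: bound and translation invariance of `PL`
-/

namespace Pool.Agent.RSF

open Pool.Agent.RSE

open Complex MeasureTheory Filter Topology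
open Pool.Agent.RC (cc psi rv f0 IsRC Good gm pr DD)
open scoped ContDiff

theorem rse_PLM_sumz (k : ℕ) (hk : 1 < k) : Summable (fun h : ℤ => 1 / (h.natAbs : ℝ) ^ k) := by
  have h1 := ((Real.summable_one_div_int_pow (p := k)).mpr hk).norm
  refine h1.congr (fun h => ?_)
  rw [norm_div, norm_pow, norm_one, Real.norm_eq_abs, Nat.cast_natAbs, Int.cast_abs]

theorem rse_PLM_tsum (f : ℤ → ℂ) (B : ℝ) (k : ℕ) (hk : 1 < k)
    (hf : ∀ h : ℤ, h ≠ 0 → ‖f h‖ ≤ B / (h.natAbs : ℝ) ^ k) :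
    Summable (fun h : ℤ => if h = 0 then 0 else f h) ∧
    ‖∑' h : ℤ, (if h = 0 then 0 else f h)‖ ≤ B * ∑' h : ℤ, 1 / (h.natAbs : ℝ) ^ k := by
  have hb : ∀ h : ℤ, ‖(if h = 0 then 0 else f h : ℂ)‖ ≤ B * (1 / (h.natAbs : ℝ) ^ k) := by
    intro h
    by_cases h0 : h = 0
    · subst h0
      have hk0 : k ≠ 0 := by omega
      simp [hk0]
    · rw [if_neg h0, mul_one_div]
      exact hf h h0
  have hs := (rse_PLM_sumz k hk).mul_left B
  refine ⟨Summable.of_norm_bounded hs hb, ?_⟩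
  rw [← tsum_mul_left]
  exact tsum_of_norm_bounded hs.hasSum hb

/-- The square part. -/
theorem rse_PLM_sq {φ g : ℝ → ℝ} (hφ : Bump φ) (hg : Ker1 g) : ∃ C : ℝ, 0 < C ∧
    ∀ (j : Fin 4) (c lam : ℕ) (K u1 u2 : ℝ), OC c → Odd lam → 0 < K →
    |∑' p : ℕ × ℕ, (if Odd p.1 ∧ Odd p.2 ∧ IsSquare (p.1 * p.2 * lam) then
        g (Real.log p.1 + u1) * g (Real.log p.2 + u2) / √((p.1 : ℝ) * p.2) *
          PN φ j c K (p.1 * p.2 * lam) else 0)| ≤ C * (lam * Real.exp (-(u1 + u2) / 4)) := by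
  obtain ⟨C1, hC1, h1⟩ := pqb_bound hφ
  obtain ⟨C2, hC2, h2⟩ := pqs_bound hg
  refine ⟨C1 * C2, by positivity, fun j c lam K u1 u2 hc hl hK => ?_⟩
  obtain ⟨hs, hle⟩ := h2 lam u1 u2 hl
  have hb : ∀ p : ℕ × ℕ, ‖(if Odd p.1 ∧ Odd p.2 ∧ IsSquare (p.1 * p.2 * lam) then
        g (Real.log p.1 + u1) * g (Real.log p.2 + u2) / √((p.1 : ℝ) * p.2) *
          PN φ j c K (p.1 * p.2 * lam) else 0 : ℝ)‖ ≤
      C1 * (if Odd p.1 ∧ Odd p.2 ∧ IsSquare (p.1 * p.2 * lam) then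
      |g (Real.log p.1 + u1) * g (Real.log p.2 + u2)| / √((p.1 : ℝ) * p.2) *
        ((p.1 * p.2 * lam : ℕ) : ℝ) ^ (1 / 8 : ℝ) else 0) := by
    intro p
    by_cases hp : Odd p.1 ∧ Odd p.2 ∧ IsSquare (p.1 * p.2 * lam)
    · rw [if_pos hp, if_pos hp, norm_mul, norm_div, Real.norm_eq_abs, Real.norm_eq_abs,
        Real.norm_eq_abs, abs_of_nonneg (Real.sqrt_nonneg _)]
      have h3 := h1 j c K (p.1 * p.2 * lam) hc hK ((hp.1.mul hp.2.1).mul hl) hp.2.2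
      have h4 : 0 ≤ |g (Real.log p.1 + u1) * g (Real.log p.2 + u2)| / √((p.1 : ℝ) * p.2) := by
        positivity
      calc |g (Real.log p.1 + u1) * g (Real.log p.2 + u2)| / √((p.1 : ℝ) * p.2) *
            |PN φ j c K (p.1 * p.2 * lam)|
          ≤ |g (Real.log p.1 + u1) * g (Real.log p.2 + u2)| / √((p.1 : ℝ) * p.2) *
            (C1 * ((p.1 * p.2 * lam : ℕ) : ℝ) ^ (1 / 8 : ℝ)) :=
            mul_le_mul_of_nonneg_left h3 h4
        _ = _ := by ring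
    · rw [if_neg hp, if_neg hp]
      simp
  have h5 := tsum_of_norm_bounded (hs.mul_left C1).hasSum hb
  rw [tsum_mul_left, Real.norm_eq_abs] at h5
  calc _ ≤ _ := h5
    _ ≤ C1 * (C2 * lam * Real.exp (-(u1 + u2) / 4)) := mul_le_mul_of_nonneg_left hle hC1.le
    _ = _ := by ring

theorem rse_PLM_pre (K : ℝ) (hK : 0 < K) (lam : ℕ) (hl : Odd lam) :
    ‖((K : ℂ) / (8 * (√(lam : ℝ) : ℂ)))‖ ≤ K := by
  have h1 : (1 : ℝ) ≤ √(lam : ℝ) := by
    rw [Real.one_le_sqrt]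
    exact_mod_cast hl.pos
  rw [norm_div, norm_mul, Complex.norm_real, Complex.norm_real, Real.norm_eq_abs,
    Real.norm_eq_abs, abs_of_pos hK, abs_of_pos (by linarith), Complex.norm_ofNat]
  rw [div_le_iff₀ (by positivity)]
  nlinarith

/-- PLM (cites PLA, PSH, PIH, PQB, PQS). -/
theorem plm_bound_pr {φ g : ℝ → ℝ} (hφ : Bump φ) (hg : Ker1 g) : ∃ C : ℝ, 0 < C ∧
    ∀ (j : Fin 4) (c lam : ℕ) (K u1 u2 : ℝ), OC c → Odd lam → 0 < K →
    |PL φ g j c K lam u1 u2| ≤ C * (K * (lam : ℝ) ^ 5 * (Real.exp (-(u1 + u2)) / K) ^ 5 +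
      lam * Real.exp (-(u1 + u2) / 4)) ∧
    ∀ τ : ℝ, |PL φ g j c K lam (u1 + τ) (u2 - τ) - PL φ g j c K lam u1 u2| ≤
      C * (K * (lam : ℝ) ^ 6 * (Real.exp (-(u1 + u2)) / K) ^ 5 * (Real.exp (|τ| / 2) *
          (Real.exp (u1 / 4 - u2 / 16) + Real.exp (u2 / 4 - u1 / 16))) +
        lam * Real.exp (-(u1 + u2) / 4)) := by
  obtain ⟨Cs, hCs, hs⟩ := rse_PLM_sq hφ hg
  obtain ⟨Ca, hCa, ha⟩ := psh_bound hφ hg
  obtain ⟨Cb, hCb, hb⟩ := pih_bound hφ hg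
  set Z4 : ℝ := ∑' h : ℤ, 1 / (h.natAbs : ℝ) ^ 4 with hZ4
  set Z3 : ℝ := ∑' h : ℤ, 1 / (h.natAbs : ℝ) ^ 3 with hZ3
  have hZ4n : 0 ≤ Z4 := tsum_nonneg fun h => by positivity
  have hZ3n : 0 ≤ Z3 := tsum_nonneg fun h => by positivity
  refine ⟨4 * Ca * Z4 + 4 * Cb * Z3 + 2 * Cs, by positivity,
    fun j c lam K u1 u2 hc hl hK => ?_⟩
  obtain ⟨x, hx, hpl⟩ := pl_eq j c hc
  have hK5 : (Real.exp (-(u1 + u2)) / K) ^ 5 = Real.exp (-5 * (u1 + u2)) / K ^ 5 := by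
    rw [div_pow, ← Real.exp_nat_mul]
    congr 2
    push_cast
    ring
  have hpre := rse_PLM_pre K hK lam hl
  -- the bound for one frequency
  have hone : ∀ (v1 v2 : ℝ), v1 + v2 = u1 + u2 → ∀ h : ℤ, h ≠ 0 →
      ‖∑ i : Fin 4, x h i * SS φ g h i lam K v1 v2‖ ≤
        (4 * (Ca * (lam : ℝ) ^ 5 / K ^ 5 * Real.exp (-5 * (u1 + u2)))) /
          (h.natAbs : ℝ) ^ 4 := by
    intro v1 v2 hv h h0
    have hterm : ∀ i : Fin 4, ‖x h i * SS φ g h i lam K v1 v2‖ ≤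
        Ca * (lam : ℝ) ^ 5 / ((h.natAbs : ℝ) ^ 4 * K ^ 5) * Real.exp (-5 * (u1 + u2)) := by
      intro i
      rw [norm_mul, ← hv]
      have := (ha h i lam K v1 v2 h0 hl hK).2
      calc ‖x h i‖ * ‖SS φ g h i lam K v1 v2‖ ≤ 1 * ‖SS φ g h i lam K v1 v2‖ :=
            mul_le_mul_of_nonneg_right (hx h i) (norm_nonneg _)
        _ ≤ _ := by rw [one_mul]; exact this
    calc ‖∑ i : Fin 4, x h i * SS φ g h i lam K v1 v2‖
        ≤ ∑ i : Fin 4, ‖x h i * SS φ g h i lam K v1 v2‖ := norm_sum_le _ _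
      _ ≤ ∑ _i : Fin 4, Ca * (lam : ℝ) ^ 5 / ((h.natAbs : ℝ) ^ 4 * K ^ 5) *
            Real.exp (-5 * (u1 + u2)) := Finset.sum_le_sum fun i _ => hterm i
      _ = _ := by
          rw [Finset.sum_const, Finset.card_univ, Fintype.card_fin, nsmul_eq_mul]
          have : (h.natAbs : ℝ) ≠ 0 := by
            exact_mod_cast Int.natAbs_ne_zero.mpr h0
          push_cast
          field_simp
  have hsum : ∀ (v1 v2 : ℝ), v1 + v2 = u1 + u2 →
      Summable (fun h : ℤ => if h = 0 then 0 else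
        ∑ i : Fin 4, x h i * SS φ g h i lam K v1 v2) ∧
      ‖∑' h : ℤ, (if h = 0 then 0 else ∑ i : Fin 4, x h i * SS φ g h i lam K v1 v2)‖ ≤
        4 * (Ca * (lam : ℝ) ^ 5 / K ^ 5 * Real.exp (-5 * (u1 + u2))) * Z4 := by
    intro v1 v2 hv
    exact rse_PLM_tsum _ _ 4 (by norm_num) (hone v1 v2 hv)
  have hlam0 : (0 : ℝ) ≤ lam := Nat.cast_nonneg _
  have hE1 : 0 ≤ (lam : ℝ) * Real.exp (-(u1 + u2) / 4) := by positivity
  constructor
  · have e := hpl φ g hφ hg K lam u1 u2 hK hl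
    have h1 : |PL φ g j c K lam u1 u2| = ‖((PL φ g j c K lam u1 u2 : ℝ) : ℂ)‖ := by
      rw [Complex.norm_real, Real.norm_eq_abs]
    rw [h1, e]
    have h2 := (hsum u1 u2 rfl).2
    have h3 := hs j c lam K u1 u2 hc hl hK
    set S1 : ℂ := ∑' h : ℤ, (if h = 0 then 0 else ∑ i : Fin 4, x h i * SS φ g h i lam K u1 u2)
      with hS1
    set S2 : ℝ := ∑' p : ℕ × ℕ, (if Odd p.1 ∧ Odd p.2 ∧ IsSquare (p.1 * p.2 * lam) then
        g (Real.log p.1 + u1) * g (Real.log p.2 + u2) / √((p.1 : ℝ) * p.2) *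
          PN φ j c K (p.1 * p.2 * lam) else 0) with hS2
    calc ‖(K : ℂ) / (8 * (√(lam : ℝ) : ℂ)) * S1 - (S2 : ℂ)‖
        ≤ ‖(K : ℂ) / (8 * (√(lam : ℝ) : ℂ)) * S1‖ + ‖(S2 : ℂ)‖ := norm_sub_le _ _
      _ = ‖(K : ℂ) / (8 * (√(lam : ℝ) : ℂ))‖ * ‖S1‖ + |S2| := by
          rw [norm_mul, Complex.norm_real, Real.norm_eq_abs]
      _ ≤ K * (4 * (Ca * (lam : ℝ) ^ 5 / K ^ 5 * Real.exp (-5 * (u1 + u2))) * Z4) +
          Cs * (lam * Real.exp (-(u1 + u2) / 4)) :=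
          add_le_add (mul_le_mul hpre h2 (norm_nonneg _) hK.le) h3
      _ = (4 * Ca * Z4) * (K * (lam : ℝ) ^ 5 * (Real.exp (-(u1 + u2)) / K) ^ 5) +
          Cs * (lam * Real.exp (-(u1 + u2) / 4)) := by
          rw [hK5]
          field_simp
      _ ≤ (4 * Ca * Z4 + 4 * Cb * Z3 + 2 * Cs) *
            (K * (lam : ℝ) ^ 5 * (Real.exp (-(u1 + u2)) / K) ^ 5 +
              lam * Real.exp (-(u1 + u2) / 4)) := by
          have hA : 0 ≤ K * (lam : ℝ) ^ 5 * (Real.exp (-(u1 + u2)) / K) ^ 5 := by positivity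
          have c1 : 0 ≤ 4 * Ca * Z4 := by positivity
          have c2 : 0 ≤ 4 * Cb * Z3 := by positivity
          nlinarith [mul_nonneg c1 hE1, mul_nonneg c2 hA, mul_nonneg c2 hE1,
            mul_nonneg hCs.le hA, mul_nonneg hCs.le hE1]
  · intro τ
    have e1 := hpl φ g hφ hg K lam u1 u2 hK hl
    have e2 := hpl φ g hφ hg K lam (u1 + τ) (u2 - τ) hK hl
    have hv : (u1 + τ) + (u2 - τ) = u1 + u2 := by ring
    have h1 : |PL φ g j c K lam (u1 + τ) (u2 - τ) - PL φ g j c K lam u1 u2| =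
        ‖((PL φ g j c K lam (u1 + τ) (u2 - τ) : ℝ) : ℂ) - ((PL φ g j c K lam u1 u2 : ℝ) : ℂ)‖ := by
      rw [← Complex.ofReal_sub, Complex.norm_real, Real.norm_eq_abs]
    rw [h1, e1, e2]
    have s1 := (hsum u1 u2 rfl).1
    have s2 := (hsum (u1 + τ) (u2 - τ) hv).1
    have h3 := hs j c lam K u1 u2 hc hl hK
    have h4 := hs j c lam K (u1 + τ) (u2 - τ) hc hl hK
    rw [hv] at h4
    set E : ℝ := Real.exp (|τ| / 2) *
          (Real.exp (u1 / 4 - u2 / 16) + Real.exp (u2 / 4 - u1 / 16)) with hE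
    have hE0 : 0 ≤ E := by positivity
    -- difference of the frequency sums
    have hdiff : ∀ h : ℤ, h ≠ 0 →
        ‖(∑ i : Fin 4, x h i * SS φ g h i lam K (u1 + τ) (u2 - τ)) -
          ∑ i : Fin 4, x h i * SS φ g h i lam K u1 u2‖ ≤
        (4 * (Cb * (lam : ℝ) ^ 6 / K ^ 5 * Real.exp (-5 * (u1 + u2)) * E)) /
          (h.natAbs : ℝ) ^ 3 := by
      intro h h0
      rw [← Finset.sum_sub_distrib]
      have hterm : ∀ i : Fin 4, ‖x h i * SS φ g h i lam K (u1 + τ) (u2 - τ) -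
          x h i * SS φ g h i lam K u1 u2‖ ≤
          Cb * (lam : ℝ) ^ 6 / ((h.natAbs : ℝ) ^ 3 * K ^ 5) * Real.exp (-5 * (u1 + u2)) * E := by
        intro i
        rw [← mul_sub, norm_mul]
        have := hb h i lam K u1 u2 τ h0 hl hK
        calc ‖x h i‖ * ‖SS φ g h i lam K (u1 + τ) (u2 - τ) - SS φ g h i lam K u1 u2‖
            ≤ 1 * ‖SS φ g h i lam K (u1 + τ) (u2 - τ) - SS φ g h i lam K u1 u2‖ :=
              mul_le_mul_of_nonneg_right (hx h i) (norm_nonneg _)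
          _ ≤ _ := by rw [one_mul]; exact this
      calc ‖∑ i : Fin 4, (x h i * SS φ g h i lam K (u1 + τ) (u2 - τ) -
            x h i * SS φ g h i lam K u1 u2)‖
          ≤ ∑ i : Fin 4, ‖x h i * SS φ g h i lam K (u1 + τ) (u2 - τ) -
            x h i * SS φ g h i lam K u1 u2‖ := norm_sum_le _ _
        _ ≤ ∑ _i : Fin 4, Cb * (lam : ℝ) ^ 6 / ((h.natAbs : ℝ) ^ 3 * K ^ 5) *
              Real.exp (-5 * (u1 + u2)) * E := Finset.sum_le_sum fun i _ => hterm i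
        _ = _ := by
            rw [Finset.sum_const, Finset.card_univ, Fintype.card_fin, nsmul_eq_mul]
            have : (h.natAbs : ℝ) ≠ 0 := by
              exact_mod_cast Int.natAbs_ne_zero.mpr h0
            push_cast
            field_simp
    have h5 := (rse_PLM_tsum _ _ 3 (by norm_num) hdiff).2
    have h6 : (∑' h : ℤ, (if h = 0 then 0 else
          (∑ i : Fin 4, x h i * SS φ g h i lam K (u1 + τ) (u2 - τ)) -
            ∑ i : Fin 4, x h i * SS φ g h i lam K u1 u2)) =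
        (∑' h : ℤ, (if h = 0 then 0 else
          ∑ i : Fin 4, x h i * SS φ g h i lam K (u1 + τ) (u2 - τ))) -
        ∑' h : ℤ, (if h = 0 then 0 else ∑ i : Fin 4, x h i * SS φ g h i lam K u1 u2) := by
      rw [← s2.tsum_sub s1]
      refine tsum_congr fun h => ?_
      by_cases h0 : h = 0
      · simp [h0]
      · simp [h0]
    rw [h6] at h5
    set S1 : ℂ := ∑' h : ℤ, (if h = 0 then 0 else ∑ i : Fin 4, x h i * SS φ g h i lam K u1 u2)
      with hS1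
    set S1' : ℂ := ∑' h : ℤ, (if h = 0 then 0 else
      ∑ i : Fin 4, x h i * SS φ g h i lam K (u1 + τ) (u2 - τ)) with hS1'
    set S2 : ℝ := ∑' p : ℕ × ℕ, (if Odd p.1 ∧ Odd p.2 ∧ IsSquare (p.1 * p.2 * lam) then
        g (Real.log p.1 + u1) * g (Real.log p.2 + u2) / √((p.1 : ℝ) * p.2) *
          PN φ j c K (p.1 * p.2 * lam) else 0) with hS2
    set S2' : ℝ := ∑' p : ℕ × ℕ, (if Odd p.1 ∧ Odd p.2 ∧ IsSquare (p.1 * p.2 * lam) then
        g (Real.log p.1 + (u1 + τ)) * g (Real.log p.2 + (u2 - τ)) / √((p.1 : ℝ) * p.2) *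
          PN φ j c K (p.1 * p.2 * lam) else 0) with hS2'
    calc ‖((K : ℂ) / (8 * (√(lam : ℝ) : ℂ)) * S1' - (S2' : ℂ)) -
          ((K : ℂ) / (8 * (√(lam : ℝ) : ℂ)) * S1 - (S2 : ℂ))‖
        = ‖(K : ℂ) / (8 * (√(lam : ℝ) : ℂ)) * (S1' - S1) - ((S2' : ℂ) - (S2 : ℂ))‖ := by
          congr 1
          ring
      _ ≤ ‖(K : ℂ) / (8 * (√(lam : ℝ) : ℂ)) * (S1' - S1)‖ + ‖(S2' : ℂ) - (S2 : ℂ)‖ :=
          norm_sub_le _ _
      _ ≤ ‖(K : ℂ) / (8 * (√(lam : ℝ) : ℂ))‖ * ‖S1' - S1‖ + (|S2'| + |S2|) := by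
          rw [norm_mul]
          gcongr
          calc ‖(S2' : ℂ) - (S2 : ℂ)‖ ≤ ‖(S2' : ℂ)‖ + ‖(S2 : ℂ)‖ := norm_sub_le _ _
            _ = |S2'| + |S2| := by
              rw [Complex.norm_real, Complex.norm_real, Real.norm_eq_abs, Real.norm_eq_abs]
      _ ≤ K * (4 * (Cb * (lam : ℝ) ^ 6 / K ^ 5 * Real.exp (-5 * (u1 + u2)) * E) * Z3) +
          (Cs * (lam * Real.exp (-(u1 + u2) / 4)) + Cs * (lam * Real.exp (-(u1 + u2) / 4))) :=
          add_le_add (mul_le_mul hpre h5 (norm_nonneg _) hK.le) (add_le_add h4 h3)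
      _ = (4 * Cb * Z3) * (K * (lam : ℝ) ^ 6 * (Real.exp (-(u1 + u2)) / K) ^ 5 * E) +
          (2 * Cs) * (lam * Real.exp (-(u1 + u2) / 4)) := by
          rw [hK5]
          field_simp
          ring
      _ ≤ (4 * Ca * Z4 + 4 * Cb * Z3 + 2 * Cs) *
            (K * (lam : ℝ) ^ 6 * (Real.exp (-(u1 + u2)) / K) ^ 5 * E +
              lam * Real.exp (-(u1 + u2) / 4)) := by
          have hA : 0 ≤ K * (lam : ℝ) ^ 6 * (Real.exp (-(u1 + u2)) / K) ^ 5 * E := by positivity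
          have c1 : 0 ≤ 4 * Ca * Z4 := by positivity
          have c2 : 0 ≤ 4 * Cb * Z3 := by positivity
          nlinarith [mul_nonneg c1 hE1, mul_nonneg c1 hA, mul_nonneg c2 hE1,
            mul_nonneg hCs.le hA]

end Pool.Agent.RSF

namespace Pool.Agent.RSF

open Pool.Agent.RSE

alias plm_bound := plm_bound_pr

end Pool.Agent.RSF
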