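import Pool.Agent.Lib_helper39.RSF.Defs
import Pool.Agent.Lib_helper39.RSE.Defs
import Pool.Agent.Lib_helper39.RSA.DefsB
import Pool.Agent.Lib_helper39.RSF.PLM
/-!
# Block PFM (helper24): the off-diagonal part with the mollifier
-/

namespace Pool.Agent.RSF

open Pool.Agent.RSE

open Complex MeasureTheory Filter Topology
open Pool.Agent.RC (cc psi rv f0 IsRC Good gm pr DD)
open scoped ContDiff

theorem rse_pfm_hc (k : ℕ) : |Pool.Agent.SQ.hc k| ≤ 1 := by
  induction k with
  | zero => simp [Pool.Agent.SQ.hc]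
  | succ k ih =>
    show |Pool.Agent.SQ.hc k * ((k : ℝ) - 1 / 2) / (k + 1)| ≤ 1
    have hk : (0 : ℝ) ≤ k := Nat.cast_nonneg k
    rw [abs_div, abs_mul, abs_of_pos (by linarith : (0 : ℝ) < (k : ℝ) + 1),
      div_le_one (by linarith)]
    have h1 : |(k : ℝ) - 1 / 2| ≤ k + 1 := by
      rw [abs_le]
      constructor <;> linarith
    calc |Pool.Agent.SQ.hc k| * |(k : ℝ) - 1 / 2| ≤ 1 * ((k : ℝ) + 1) :=
          mul_le_mul ih h1 (abs_nonneg _) zero_le_one
      _ = _ := one_mul _

theorem rse_pfm_al (n : ℕ) : |Pool.Agent.SQ.al n| ≤ 1 := by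
  have h : Pool.Agent.SQ.al n =
      if n = 0 then 0 else n.factorization.prod fun _ k => Pool.Agent.SQ.hc k := rfl
  rw [h]
  split_ifs
  · simp
  · unfold Finsupp.prod
    rw [Finset.abs_prod]
    exact Finset.prod_le_one (fun _ _ => abs_nonneg _) (fun _ _ => rse_pfm_hc _)

theorem rse_pfm_be {Θ : ℝ → ℝ} (hΘ : Cut Θ) {L : ℝ} (hL : 1 ≤ L) (R : ℕ) {k : ℕ} (hk : 1 ≤ k) :
    |be Θ L R k| ≤ 1 := by
  unfold be
  split_ifs
  · rw [abs_mul]
    refine mul_le_one₀ (rse_pfm_al k) (abs_nonneg _) (hΘ.bd _ ?_)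
    exact div_nonneg (Real.log_nonneg (by exact_mod_cast hk)) (by linarith)
  · simp

theorem rse_pfm_psi_mul (j : Fin 4) (a b : ℕ) : psi j (a * b) = psi j a * psi j b := by
  fin_cases j <;> simp [psi, Nat.cast_mul, map_mul]

theorem rse_pfm_rv_mul (j : Fin 4) (m a b : ℕ) : rv j m (a * b) = rv j m a * rv j m b := by
  unfold rv
  rw [rse_pfm_psi_mul, Nat.cast_mul, jacobiSym.mul_left]
  ring

/-- the product of two densities minus the diagonal -/
theorem rse_pfm_pt (g Θ : ℝ → ℝ) (L : ℝ) (R : ℕ) (j : Fin 4) (m : ℕ) (u u' : ℝ) :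
    fo g Θ L R j m u * fo g Θ L R j m u' - Dg g Θ L R m u u' =
    ∑ a ∈ KL L, ∑ b ∈ KL L, ∑ a' ∈ KL L, ∑ b' ∈ KL L,
      be Θ L R a * be Θ L R b * (be Θ L R a' * be Θ L R b') / √((a : ℝ) * b * (a' * b')) *
      ((rv j m (a * b * (a' * b')) : ℝ) * DO g j m (u + Real.log a - Real.log b) *
        DO g j m (u' + Real.log a' - Real.log b') -
        SQs g m (a * b * (a' * b')) (u + Real.log a - Real.log b)
          (u' + Real.log a' - Real.log b')) := by
  unfold fo Dg
  rw [Finset.sum_mul, ← Finset.sum_sub_distrib]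
  refine Finset.sum_congr rfl fun a _ => ?_
  rw [Finset.sum_mul, ← Finset.sum_sub_distrib]
  refine Finset.sum_congr rfl fun b _ => ?_
  rw [Finset.mul_sum, ← Finset.sum_sub_distrib]
  refine Finset.sum_congr rfl fun a' _ => ?_
  rw [Finset.mul_sum, ← Finset.sum_sub_distrib]
  refine Finset.sum_congr rfl fun b' _ => ?_
  have h1 : √((a : ℝ) * b * (a' * b')) = √((a : ℝ) * b) * √((a' : ℝ) * b') :=
    Real.sqrt_mul (by positivity) _
  have h2 : (rv j m (a * b * (a' * b')) : ℝ) = (rv j m (a * b) : ℝ) * (rv j m (a' * b') : ℝ) := by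
    rw [rse_pfm_rv_mul j m (a * b) (a' * b')]
    push_cast
    ring
  rw [h1, h2]
  simp only [div_eq_mul_inv, mul_inv]
  ring

theorem rse_pfm_eq (φ g Θ : ℝ → ℝ) (L : ℝ) (R : ℕ) (j : Fin 4) (c : ℕ) (K u u' : ℝ) :
    Pf φ g Θ L R j c K u u' =
    ∑ a ∈ KL L, ∑ b ∈ KL L, ∑ a' ∈ KL L, ∑ b' ∈ KL L,
      be Θ L R a * be Θ L R b * (be Θ L R a' * be Θ L R b') / √((a : ℝ) * b * (a' * b')) *
      PL φ g j c K (a * b * (a' * b')) (u + Real.log a - Real.log b)
        (u' + Real.log a' - Real.log b') := by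
  unfold Pf Ef Df PL
  rw [← Finset.sum_sub_distrib]
  have h1 : ∀ m ∈ fam c K, φ (m / K) * (fo g Θ L R j m u * fo g Θ L R j m u') -
      φ (m / K) * Dg g Θ L R m u u' =
      ∑ a ∈ KL L, ∑ b ∈ KL L, ∑ a' ∈ KL L, ∑ b' ∈ KL L,
      be Θ L R a * be Θ L R b * (be Θ L R a' * be Θ L R b') / √((a : ℝ) * b * (a' * b')) *
      (φ (m / K) * ((rv j m (a * b * (a' * b')) : ℝ) * DO g j m (u + Real.log a - Real.log b) *
        DO g j m (u' + Real.log a' - Real.log b') -
        SQs g m (a * b * (a' * b')) (u + Real.log a - Real.log b)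
          (u' + Real.log a' - Real.log b'))) := by
    intro m _
    rw [← mul_sub, rse_pfm_pt]
    simp only [Finset.mul_sum]
    refine Finset.sum_congr rfl fun a _ => Finset.sum_congr rfl fun b _ =>
      Finset.sum_congr rfl fun a' _ => Finset.sum_congr rfl fun b' _ => ?_
    ring
  rw [Finset.sum_congr rfl h1]
  rw [Finset.sum_comm]
  refine Finset.sum_congr rfl fun a _ => ?_
  rw [Finset.sum_comm]
  refine Finset.sum_congr rfl fun b _ => ?_
  rw [Finset.sum_comm]
  refine Finset.sum_congr rfl fun a' _ => ?_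
  rw [Finset.sum_comm]
  refine Finset.sum_congr rfl fun b' _ => ?_
  rw [Finset.mul_sum]

theorem rse_pfm_KL_card {L : ℝ} : ((KL L).card : ℝ) ≤ Real.exp L := by
  unfold KL
  rw [Nat.card_Icc, Nat.add_sub_cancel]
  exact Nat.floor_le (Real.exp_pos L).le

theorem rse_pfm_KL_mem {L : ℝ} {k : ℕ} (hk : k ∈ KL L) :
    1 ≤ k ∧ (k : ℝ) ≤ Real.exp L ∧ 0 ≤ Real.log k ∧ Real.log k ≤ L := by
  obtain ⟨h1, h2⟩ := Finset.mem_Icc.1 hk
  have h3 : (k : ℝ) ≤ Real.exp L :=
    (by exact_mod_cast h2 : (k : ℝ) ≤ (⌊Real.exp L⌋₊ : ℝ)).trans (Nat.floor_le (Real.exp_pos L).le)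
  have h4 : (1 : ℝ) ≤ k := by exact_mod_cast h1
  refine ⟨h1, h3, Real.log_nonneg h4, ?_⟩
  rw [Real.log_le_iff_le_exp (by linarith)]
  exact h3

/-- bound for the quadruple sum -/
theorem rse_pfm_sum {Θ : ℝ → ℝ} (hΘ : Cut Θ) {L : ℝ} (hL : 1 ≤ L) (R : ℕ)
    (X : ℕ → ℕ → ℕ → ℕ → ℝ) {B : ℝ} (hB : 0 ≤ B)
    (hX : ∀ a ∈ KL L, ∀ b ∈ KL L, ∀ a' ∈ KL L, ∀ b' ∈ KL L, Odd (a * b * (a' * b')) →
      |X a b a' b'| ≤ B) :
    |∑ a ∈ KL L, ∑ b ∈ KL L, ∑ a' ∈ KL L, ∑ b' ∈ KL L,
      be Θ L R a * be Θ L R b * (be Θ L R a' * be Θ L R b') / √((a : ℝ) * b * (a' * b')) *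
      X a b a' b'| ≤ Real.exp (4 * L) * B := by
  have hterm : ∀ a ∈ KL L, ∀ b ∈ KL L, ∀ a' ∈ KL L, ∀ b' ∈ KL L,
      |be Θ L R a * be Θ L R b * (be Θ L R a' * be Θ L R b') / √((a : ℝ) * b * (a' * b')) *
      X a b a' b'| ≤ B := by
    intro a ha b hb a' ha' b' hb'
    by_cases hodd : Odd (a * b * (a' * b'))
    · have h1 := rse_pfm_be hΘ hL R (rse_pfm_KL_mem ha).1
      have h2 := rse_pfm_be hΘ hL R (rse_pfm_KL_mem hb).1
      have h3 := rse_pfm_be hΘ hL R (rse_pfm_KL_mem ha').1
      have h4 := rse_pfm_be hΘ hL R (rse_pfm_KL_mem hb').1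
      have h5 : |be Θ L R a * be Θ L R b * (be Θ L R a' * be Θ L R b')| ≤ 1 := by
        rw [abs_mul, abs_mul, abs_mul]
        exact mul_le_one₀ (mul_le_one₀ h1 (abs_nonneg _) h2) (by positivity)
          (mul_le_one₀ h3 (abs_nonneg _) h4)
      have h6 : (1 : ℝ) ≤ √((a : ℝ) * b * (a' * b')) := by
        rw [Real.one_le_sqrt]
        have e1 : (1 : ℝ) ≤ a := by exact_mod_cast (rse_pfm_KL_mem ha).1
        have e2 : (1 : ℝ) ≤ b := by exact_mod_cast (rse_pfm_KL_mem hb).1
        have e3 : (1 : ℝ) ≤ a' := by exact_mod_cast (rse_pfm_KL_mem ha').1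
        have e4 : (1 : ℝ) ≤ b' := by exact_mod_cast (rse_pfm_KL_mem hb').1
        exact one_le_mul_of_one_le_of_one_le (one_le_mul_of_one_le_of_one_le e1 e2)
          (one_le_mul_of_one_le_of_one_le e3 e4)
      rw [abs_mul, abs_div]
      have h7 : |be Θ L R a * be Θ L R b * (be Θ L R a' * be Θ L R b')| /
          |√((a : ℝ) * b * (a' * b'))| ≤ 1 := by
        rw [abs_of_nonneg (Real.sqrt_nonneg _)]
        exact (div_le_one (by linarith)).2 (h5.trans h6)
      calc _ ≤ 1 * B := mul_le_mul h7 (hX a ha b hb a' ha' b' hb' hodd) (abs_nonneg _) zero_le_one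
        _ = B := one_mul B
    · have h0 : be Θ L R a * be Θ L R b * (be Θ L R a' * be Θ L R b') = 0 := by
        by_contra hne
        apply hodd
        have hz : ∀ k, be Θ L R k ≠ 0 → Odd k := by
          intro k hk
          unfold be at hk
          by_contra h
          exact hk (if_neg fun h' => h h'.1)
        have e1 := mul_ne_zero_iff.1 hne
        have e2 := mul_ne_zero_iff.1 e1.1
        have e3 := mul_ne_zero_iff.1 e1.2
        exact ((hz a e2.1).mul (hz b e2.2)).mul ((hz a' e3.1).mul (hz b' e3.2))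
      rw [h0, zero_div, zero_mul, abs_zero]
      exact hB
  have hc : ((KL L).card : ℝ) ≤ Real.exp L := rse_pfm_KL_card
  have hc0 : (0 : ℝ) ≤ ((KL L).card : ℝ) := Nat.cast_nonneg _
  have s1 : ∀ a ∈ KL L, ∀ b ∈ KL L, ∀ a' ∈ KL L, |∑ b' ∈ KL L,
      be Θ L R a * be Θ L R b * (be Θ L R a' * be Θ L R b') / √((a : ℝ) * b * (a' * b')) *
      X a b a' b'| ≤ (KL L).card * B := by
    intro a ha b hb a' ha'
    refine (Finset.abs_sum_le_sum_abs _ _).trans ?_
    refine (Finset.sum_le_card_nsmul _ _ B (fun b' hb' => hterm a ha b hb a' ha' b' hb')).trans_eq ?_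
    rw [nsmul_eq_mul]
  have s2 : ∀ a ∈ KL L, ∀ b ∈ KL L, |∑ a' ∈ KL L, ∑ b' ∈ KL L,
      be Θ L R a * be Θ L R b * (be Θ L R a' * be Θ L R b') / √((a : ℝ) * b * (a' * b')) *
      X a b a' b'| ≤ (KL L).card * ((KL L).card * B) := by
    intro a ha b hb
    refine (Finset.abs_sum_le_sum_abs _ _).trans ?_
    refine (Finset.sum_le_card_nsmul _ _ _ (fun a' ha' => s1 a ha b hb a' ha')).trans_eq ?_
    rw [nsmul_eq_mul]
  have s3 : ∀ a ∈ KL L, |∑ b ∈ KL L, ∑ a' ∈ KL L, ∑ b' ∈ KL L,
      be Θ L R a * be Θ L R b * (be Θ L R a' * be Θ L R b') / √((a : ℝ) * b * (a' * b')) *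
      X a b a' b'| ≤ (KL L).card * ((KL L).card * ((KL L).card * B)) := by
    intro a ha
    refine (Finset.abs_sum_le_sum_abs _ _).trans ?_
    refine (Finset.sum_le_card_nsmul _ _ _ (fun b hb => s2 a ha b hb)).trans_eq ?_
    rw [nsmul_eq_mul]
  refine (Finset.abs_sum_le_sum_abs _ _).trans ?_
  refine (Finset.sum_le_card_nsmul _ _ _ (fun a ha => s3 a ha)).trans ?_
  rw [nsmul_eq_mul]
  have h8 : Real.exp (4 * L) * B = Real.exp L * (Real.exp L * (Real.exp L * (Real.exp L * B))) := by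
    have : Real.exp (4 * L) = Real.exp L * Real.exp L * Real.exp L * Real.exp L := by
      rw [← Real.exp_add, ← Real.exp_add, ← Real.exp_add]
      congr 1
      ring
    rw [this]
    ring
  rw [h8]
  gcongr

/-- PFM (cites PLM). -/
theorem pfm_bound_pr {φ g Θ : ℝ → ℝ} (hφ : Bump φ) (hg : Ker1 g) (hΘ : Cut Θ) : ∃ C : ℝ, 0 < C ∧
    ∀ (j : Fin 4) (c R : ℕ) (L K u u' : ℝ), OC c → 1 ≤ L → 0 < K →
    |Pf φ g Θ L R j c K u u'| ≤ C * Real.exp (40 * L) *
      (K * (Real.exp (-(u + u')) / K) ^ 5 + Real.exp (-(u + u') / 4)) ∧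
    ∀ τ : ℝ, |Pf φ g Θ L R j c K (u + τ) (u' - τ) - Pf φ g Θ L R j c K u u'| ≤
      C * Real.exp (40 * L) * (K * (Real.exp (-(u + u')) / K) ^ 5 * (Real.exp (|τ| / 2) *
          (Real.exp (u / 4 - u' / 16) + Real.exp (u' / 4 - u / 16))) +
        Real.exp (-(u + u') / 4)) := by
  obtain ⟨C, hC, hplm⟩ := plm_bound hφ hg
  refine ⟨C, hC, fun j c R L K u u' hc hL hK => ?_⟩
  -- common estimates
  have hkey : ∀ a ∈ KL L, ∀ b ∈ KL L, ∀ a' ∈ KL L, ∀ b' ∈ KL L,
      ((a * b * (a' * b') : ℕ) : ℝ) ≤ Real.exp (4 * L) ∧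
      Real.exp (-(u + Real.log a - Real.log b + (u' + Real.log a' - Real.log b'))) ≤
        Real.exp (2 * L) * Real.exp (-(u + u')) ∧
      Real.exp (-(u + Real.log a - Real.log b + (u' + Real.log a' - Real.log b')) / 4) ≤
        Real.exp (L / 2) * Real.exp (-(u + u') / 4) ∧
      Real.exp ((u + Real.log a - Real.log b) / 4 - (u' + Real.log a' - Real.log b') / 16) ≤
        Real.exp (L / 2) * Real.exp (u / 4 - u' / 16) ∧
      Real.exp ((u' + Real.log a' - Real.log b') / 4 - (u + Real.log a - Real.log b) / 16) ≤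
        Real.exp (L / 2) * Real.exp (u' / 4 - u / 16) := by
    intro a ha b hb a' ha' b' hb'
    obtain ⟨-, a1, a2, a3⟩ := rse_pfm_KL_mem ha
    obtain ⟨-, b1, b2, b3⟩ := rse_pfm_KL_mem hb
    obtain ⟨-, c1, c2, c3⟩ := rse_pfm_KL_mem ha'
    obtain ⟨-, d1, d2, d3⟩ := rse_pfm_KL_mem hb'
    refine ⟨?_, ?_, ?_, ?_, ?_⟩
    · push_cast
      have : Real.exp (4 * L) = Real.exp L * Real.exp L * (Real.exp L * Real.exp L) := by
        rw [← Real.exp_add, ← Real.exp_add]
        congr 1
        ring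
      rw [this]
      gcongr
    · rw [← Real.exp_add]
      exact Real.exp_le_exp.2 (by linarith)
    · rw [← Real.exp_add]
      exact Real.exp_le_exp.2 (by linarith)
    · rw [← Real.exp_add]
      exact Real.exp_le_exp.2 (by linarith)
    · rw [← Real.exp_add]
      exact Real.exp_le_exp.2 (by linarith)
  have hexp : ∀ s t : ℝ, Real.exp s * Real.exp t = Real.exp (s + t) := fun s t =>
    (Real.exp_add s t).symm
  constructor
  · rw [rse_pfm_eq]
    set E0 : ℝ := K * (Real.exp (-(u + u')) / K) ^ 5 + Real.exp (-(u + u') / 4) with hE0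
    have hE0' : 0 ≤ E0 := by positivity
    have h1 := rse_pfm_sum hΘ hL R (fun a b a' b' => PL φ g j c K (a * b * (a' * b'))
      (u + Real.log a - Real.log b) (u' + Real.log a' - Real.log b'))
      (B := C * (Real.exp (30 * L) * E0)) (by positivity) (fun a ha b hb a' ha' b' hb' hodd => by
        obtain ⟨k1, k2, k3, -, -⟩ := hkey a ha b hb a' ha' b' hb'
        refine (hplm j c (a * b * (a' * b')) K (u + Real.log a - Real.log b)
          (u' + Real.log a' - Real.log b') hc hodd hK).1.trans ?_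
        refine mul_le_mul_of_nonneg_left ?_ hC.le
        have e1 : K * ((a * b * (a' * b') : ℕ) : ℝ) ^ 5 *
            (Real.exp (-(u + Real.log a - Real.log b + (u' + Real.log a' - Real.log b'))) / K) ^ 5 ≤
            K * Real.exp (4 * L) ^ 5 * (Real.exp (2 * L) * Real.exp (-(u + u')) / K) ^ 5 := by
          gcongr
        have e2 : K * Real.exp (4 * L) ^ 5 * (Real.exp (2 * L) * Real.exp (-(u + u')) / K) ^ 5 =
            Real.exp (30 * L) * (K * (Real.exp (-(u + u')) / K) ^ 5) := by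
          have : Real.exp (30 * L) = Real.exp (4 * L) ^ 5 * Real.exp (2 * L) ^ 5 := by
            rw [← Real.exp_nat_mul, ← Real.exp_nat_mul, ← Real.exp_add]
            congr 1
            push_cast
            ring
          rw [this]
          ring
        have e3 : ((a * b * (a' * b') : ℕ) : ℝ) *
            Real.exp (-(u + Real.log a - Real.log b + (u' + Real.log a' - Real.log b')) / 4) ≤
            Real.exp (4 * L) * (Real.exp (L / 2) * Real.exp (-(u + u') / 4)) := by
          gcongr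
        have e4 : Real.exp (4 * L) * (Real.exp (L / 2) * Real.exp (-(u + u') / 4)) ≤
            Real.exp (30 * L) * Real.exp (-(u + u') / 4) := by
          rw [← mul_assoc, hexp]
          refine mul_le_mul_of_nonneg_right (Real.exp_le_exp.2 ?_) (Real.exp_pos _).le
          linarith
        rw [hE0, mul_add]
        linarith)
    refine h1.trans ?_
    have e5 : Real.exp (4 * L) * (C * (Real.exp (30 * L) * E0)) =
        C * (Real.exp (34 * L)) * E0 := by
      have : Real.exp (34 * L) = Real.exp (4 * L) * Real.exp (30 * L) := by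
        rw [hexp]
        congr 1
        ring
      rw [this]
      ring
    rw [e5]
    refine mul_le_mul_of_nonneg_right (mul_le_mul_of_nonneg_left (Real.exp_le_exp.2 ?_) hC.le)
      hE0'
    linarith
  · intro τ
    rw [rse_pfm_eq, rse_pfm_eq]
    set E0 : ℝ := K * (Real.exp (-(u + u')) / K) ^ 5 * (Real.exp (|τ| / 2) *
          (Real.exp (u / 4 - u' / 16) + Real.exp (u' / 4 - u / 16))) +
        Real.exp (-(u + u') / 4) with hE0
    have hE0' : 0 ≤ E0 := by positivity
    have h0 : (∑ a ∈ KL L, ∑ b ∈ KL L, ∑ a' ∈ KL L, ∑ b' ∈ KL L,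
        be Θ L R a * be Θ L R b * (be Θ L R a' * be Θ L R b') / √((a : ℝ) * b * (a' * b')) *
        PL φ g j c K (a * b * (a' * b')) (u + τ + Real.log a - Real.log b)
          (u' - τ + Real.log a' - Real.log b')) -
        (∑ a ∈ KL L, ∑ b ∈ KL L, ∑ a' ∈ KL L, ∑ b' ∈ KL L,
        be Θ L R a * be Θ L R b * (be Θ L R a' * be Θ L R b') / √((a : ℝ) * b * (a' * b')) *
        PL φ g j c K (a * b * (a' * b')) (u + Real.log a - Real.log b)
          (u' + Real.log a' - Real.log b')) =
        ∑ a ∈ KL L, ∑ b ∈ KL L, ∑ a' ∈ KL L, ∑ b' ∈ KL L,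
        be Θ L R a * be Θ L R b * (be Θ L R a' * be Θ L R b') / √((a : ℝ) * b * (a' * b')) *
        (PL φ g j c K (a * b * (a' * b')) (u + Real.log a - Real.log b + τ)
          (u' + Real.log a' - Real.log b' - τ) -
         PL φ g j c K (a * b * (a' * b')) (u + Real.log a - Real.log b)
          (u' + Real.log a' - Real.log b')) := by
      rw [← Finset.sum_sub_distrib]
      refine Finset.sum_congr rfl fun a _ => ?_
      rw [← Finset.sum_sub_distrib]
      refine Finset.sum_congr rfl fun b _ => ?_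
      rw [← Finset.sum_sub_distrib]
      refine Finset.sum_congr rfl fun a' _ => ?_
      rw [← Finset.sum_sub_distrib]
      refine Finset.sum_congr rfl fun b' _ => ?_
      have e1 : u + τ + Real.log a - Real.log b = u + Real.log a - Real.log b + τ := by ring
      have e2 : u' - τ + Real.log a' - Real.log b' = u' + Real.log a' - Real.log b' - τ := by ring
      rw [e1, e2]
      ring
    rw [h0]
    have h1 := rse_pfm_sum hΘ hL R (fun a b a' b' =>
      PL φ g j c K (a * b * (a' * b')) (u + Real.log a - Real.log b + τ)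
          (u' + Real.log a' - Real.log b' - τ) -
        PL φ g j c K (a * b * (a' * b'))
      (u + Real.log a - Real.log b) (u' + Real.log a' - Real.log b'))
      (B := C * (Real.exp (35 * L) * E0)) (by positivity) (fun a ha b hb a' ha' b' hb' hodd => by
        obtain ⟨k1, k2, k3, k4, k5⟩ := hkey a ha b hb a' ha' b' hb'
        refine ((hplm j c (a * b * (a' * b')) K (u + Real.log a - Real.log b)
          (u' + Real.log a' - Real.log b') hc hodd hK).2 τ).trans ?_
        refine mul_le_mul_of_nonneg_left ?_ hC.le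
        have e1 : K * ((a * b * (a' * b') : ℕ) : ℝ) ^ 6 *
            (Real.exp (-(u + Real.log a - Real.log b + (u' + Real.log a' - Real.log b'))) / K) ^ 5 *
            (Real.exp (|τ| / 2) * (Real.exp ((u + Real.log a - Real.log b) / 4 -
              (u' + Real.log a' - Real.log b') / 16) +
              Real.exp ((u' + Real.log a' - Real.log b') / 4 -
              (u + Real.log a - Real.log b) / 16))) ≤
            K * Real.exp (4 * L) ^ 6 * (Real.exp (2 * L) * Real.exp (-(u + u')) / K) ^ 5 *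
            (Real.exp (|τ| / 2) * (Real.exp (L / 2) * Real.exp (u / 4 - u' / 16) +
              Real.exp (L / 2) * Real.exp (u' / 4 - u / 16))) := by
          gcongr
        have e2 : K * Real.exp (4 * L) ^ 6 * (Real.exp (2 * L) * Real.exp (-(u + u')) / K) ^ 5 *
            (Real.exp (|τ| / 2) * (Real.exp (L / 2) * Real.exp (u / 4 - u' / 16) +
              Real.exp (L / 2) * Real.exp (u' / 4 - u / 16))) =
            Real.exp (34 * L + L / 2) * (K * (Real.exp (-(u + u')) / K) ^ 5 *
            (Real.exp (|τ| / 2) * (Real.exp (u / 4 - u' / 16) +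
              Real.exp (u' / 4 - u / 16)))) := by
          have : Real.exp (34 * L + L / 2) =
              Real.exp (4 * L) ^ 6 * Real.exp (2 * L) ^ 5 * Real.exp (L / 2) := by
            rw [← Real.exp_nat_mul, ← Real.exp_nat_mul, ← Real.exp_add, ← Real.exp_add]
            congr 1
            push_cast
            ring
          rw [this]
          ring
        have e2' : Real.exp (34 * L + L / 2) * (K * (Real.exp (-(u + u')) / K) ^ 5 *
            (Real.exp (|τ| / 2) * (Real.exp (u / 4 - u' / 16) +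
              Real.exp (u' / 4 - u / 16)))) ≤
            Real.exp (35 * L) * (K * (Real.exp (-(u + u')) / K) ^ 5 *
            (Real.exp (|τ| / 2) * (Real.exp (u / 4 - u' / 16) +
              Real.exp (u' / 4 - u / 16)))) := by
          refine mul_le_mul_of_nonneg_right (Real.exp_le_exp.2 ?_) (by positivity)
          linarith
        have e3 : ((a * b * (a' * b') : ℕ) : ℝ) *
            Real.exp (-(u + Real.log a - Real.log b + (u' + Real.log a' - Real.log b')) / 4) ≤
            Real.exp (4 * L) * (Real.exp (L / 2) * Real.exp (-(u + u') / 4)) := by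
          gcongr
        have e4 : Real.exp (4 * L) * (Real.exp (L / 2) * Real.exp (-(u + u') / 4)) ≤
            Real.exp (35 * L) * Real.exp (-(u + u') / 4) := by
          rw [← mul_assoc, hexp]
          refine mul_le_mul_of_nonneg_right (Real.exp_le_exp.2 ?_) (Real.exp_pos _).le
          linarith
        rw [hE0, mul_add]
        linarith)
    refine h1.trans ?_
    have e5 : Real.exp (4 * L) * (C * (Real.exp (35 * L) * E0)) =
        C * (Real.exp (39 * L)) * E0 := by
      have : Real.exp (39 * L) = Real.exp (4 * L) * Real.exp (35 * L) := by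
        rw [hexp]
        congr 1
        ring
      rw [this]
      ring
    rw [e5]
    refine mul_le_mul_of_nonneg_right (mul_le_mul_of_nonneg_left (Real.exp_le_exp.2 ?_) hC.le)
      hE0'
    linarith

end Pool.Agent.RSF

namespace Pool.Agent.RSF

open Pool.Agent.RSE

alias pfm_bound := pfm_bound_pr

end Pool.Agent.RSF
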