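import Pool.Agent.Lib_helper39.RSF.Defs
import Pool.Agent.Lib_helper39.RSE.Defs
import Pool.Agent.Lib_helper39.RSA.DefsB
import Pool.Agent.Lib_helper39.RSA.SUMG
import Pool.Agent.Lib_helper39.RSA.XAV
import Pool.Agent.Lib_helper39.RSA.XR1
/-!
# RSE, block XR2
-/

namespace Pool.Agent.RSF

open Pool.Agent.RSE

open Complex MeasureTheory Filter Topology
open Pool.Agent.RC (cc psi rv f0 IsRC Good gm pr DD)
open scoped ContDiff

theorem rse_xr2_integrable_tsum {α J E : Type*} [MeasurableSpace α] {μ : Measure α} [Countable J]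
    [NormedAddCommGroup E] [NormedSpace ℝ E] [CompleteSpace E]
    {F : J → α → E} (hF : ∀ j, Integrable (F j) μ) (hs : Summable fun j => ∫ x, ‖F j x‖ ∂μ) :
    Integrable (fun x => ∑' j, F j x) μ := by
  have h1 : ∑' j, ∫⁻ x, ‖F j x‖ₑ ∂μ ≠ ⊤ := by
    have (j : J) : ∫⁻ x, ‖F j x‖ₑ ∂μ = ENNReal.ofReal (∫ x, ‖F j x‖ ∂μ) := by
      rw [ofReal_integral_norm_eq_lintegral_enorm (hF j)]
    simp_rw [this]
    exact hs.tsum_ofReal_ne_top
  have h2 : ∫⁻ x, ∑' j, ‖F j x‖ₑ ∂μ ≠ ⊤ := by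
    rw [lintegral_tsum (fun j => (hF j).1.enorm)]
    exact h1
  have h3 : ∀ᵐ x ∂μ, Summable (fun j => F j x) := by
    have := ae_lt_top' (AEMeasurable.ennreal_tsum (fun j => (hF j).1.enorm)) h2
    filter_upwards [this] with x hx
    have : Summable (fun j => ‖F j x‖) := by
      have h4 := ENNReal.tsum_coe_ne_top_iff_summable.1
        (show ∑' j, ((‖F j x‖₊ : NNReal) : ENNReal) ≠ ⊤ from hx.ne)
      exact NNReal.summable_coe.2 h4
    exact this.of_norm
  refine ⟨aestronglyMeasurable_of_tendsto_ae (atTop : Filter (Finset J))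
    (f := fun s x => ∑ j ∈ s, F j x) (fun s => ?_) ?_, ?_⟩
  · exact Finset.aestronglyMeasurable_fun_sum s (fun j _ => (hF j).1)
  · filter_upwards [h3] with x hx
    exact hx.hasSum
  · refine lt_of_le_of_lt (lintegral_mono (fun x => enorm_tsum_le_tsum_enorm)) h2.lt_top

/-- the exponent `w` -/
noncomputable def rse_xr2_w (L t : ℝ) : ℂ := 1 / (2 * L) + t * I

theorem rse_xr2_w_re (L t : ℝ) : (rse_xr2_w L t).re = 1 / (2 * L) := by
  unfold rse_xr2_w
  have : (1 / (2 * (L : ℂ)) : ℂ) = ((1 / (2 * L) : ℝ) : ℂ) := by push_cast; rfl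
  rw [this]
  simp

theorem rse_xr2_w_im (L t : ℝ) : (rse_xr2_w L t).im = t := by
  unfold rse_xr2_w
  have : (1 / (2 * (L : ℂ)) : ℂ) = ((1 / (2 * L) : ℝ) : ℂ) := by push_cast; rfl
  rw [this]
  simp

theorem rse_xr2_norm (h : ℝ → ℝ) (w : ℂ) (z : ℝ) :
    ‖((h z : ℝ) : ℂ) * cexp (w * z)‖ = Real.exp (w.re * z) * |h z| := by
  rw [norm_mul, norm_real, Complex.norm_exp, Real.norm_eq_abs, re_mul_ofReal, mul_comm]

theorem rse_xr2_integrable {h : ℝ → ℝ} (hh : Fast h) (hc : Continuous h) {w : ℂ}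
    (hw : -1 < w.re) : Integrable (fun z : ℝ => ((h z : ℝ) : ℂ) * cexp (w * z)) := by
  have h1 := fast_int hh hc hw
  refine (integrable_norm_iff ?_).1 ?_
  · refine Continuous.aestronglyMeasurable ?_
    fun_prop
  · refine h1.congr (ae_of_all _ fun z => ?_)
    exact (rse_xr2_norm h w z).symm

/-- integration by parts -/
theorem rse_xr2_parts {h h' : ℝ → ℝ} (hd : ∀ z, HasDerivAt h (h' z) z) (hh : Fast h)
    (hh' : Fast h') (hc' : Continuous h') {w : ℂ} (hw : -1 < w.re) :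
    w * ∫ z : ℝ, ((h z : ℝ) : ℂ) * cexp (w * z) = - ∫ z : ℝ, ((h' z : ℝ) : ℂ) * cexp (w * z) := by
  have hc : Continuous h := continuous_iff_continuousAt.2 fun z => (hd z).continuousAt
  have i1 := rse_xr2_integrable hh hc hw
  have i2 := rse_xr2_integrable hh' hc' hw
  have i3 : Integrable (fun z : ℝ => ((h z : ℝ) : ℂ) * (w * cexp (w * z))) := by
    refine (i1.const_mul w).congr (ae_of_all _ fun z => ?_)
    ring
  have key := integral_mul_deriv_eq_deriv_mul_of_integrable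
    (u := fun z : ℝ => ((h z : ℝ) : ℂ)) (v := fun z : ℝ => cexp (w * z))
    (u' := fun z : ℝ => ((h' z : ℝ) : ℂ)) (v' := fun z : ℝ => w * cexp (w * z))
    (fun z _ => (hd z).ofReal_comp)
    (fun z _ => by
      have h1 : HasDerivAt (fun z : ℝ => w * (z : ℂ)) (w * 1) z :=
        (hasDerivAt_id z).ofReal_comp.const_mul w
      have h2 := h1.cexp
      refine h2.congr_deriv ?_
      ring) i3 i2 i1
  rw [← key, ← integral_const_mul]
  refine integral_congr_ae (ae_of_all _ fun z => ?_)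
  show w * (((h z : ℝ) : ℂ) * cexp (w * z)) = ((h z : ℝ) : ℂ) * (w * cexp (w * z))
  ring

/-- uniform bound -/
theorem rse_xr2_unif {h : ℝ → ℝ} (hh : Fast h) (hc : Continuous h) : ∃ C : ℝ, 0 ≤ C ∧ ∀ w : ℂ,
    0 ≤ w.re → w.re ≤ 1 / 2 → ‖∫ z : ℝ, ((h z : ℝ) : ℂ) * cexp (w * z)‖ ≤ C := by
  have j0 := fast_int hh hc (a := 0) (by norm_num)
  have j1 := fast_int hh hc (a := 1 / 2) (by norm_num)
  refine ⟨∫ z : ℝ, (Real.exp (0 * z) * |h z| + Real.exp (1 / 2 * z) * |h z|),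
    integral_nonneg fun z => by positivity, fun w h0 h2 => ?_⟩
  have i1 := rse_xr2_integrable hh hc (w := w) (by linarith)
  refine (norm_integral_le_integral_norm _).trans (integral_mono i1.norm (j0.add j1) fun z => ?_)
  show ‖((h z : ℝ) : ℂ) * cexp (w * z)‖ ≤ Real.exp (0 * z) * |h z| + Real.exp (1 / 2 * z) * |h z|
  rw [rse_xr2_norm, ← add_mul]
  refine mul_le_mul_of_nonneg_right ?_ (abs_nonneg _)
  rcases le_total 0 z with hz | hz
  · have : Real.exp (w.re * z) ≤ Real.exp (1 / 2 * z) :=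
      Real.exp_le_exp.2 (mul_le_mul_of_nonneg_right h2 hz)
    have := Real.exp_pos (0 * z)
    linarith
  · have : Real.exp (w.re * z) ≤ Real.exp (0 * z) := by
      refine Real.exp_le_exp.2 ?_
      rw [zero_mul]
      exact mul_nonpos_of_nonneg_of_nonpos h0 hz
    have := Real.exp_pos (1 / 2 * z)
    linarith

theorem rse_xr2_Mg (g : ℝ → ℝ) (L t : ℝ) :
    Mg g L t = ∫ z : ℝ, ((g z : ℝ) : ℂ) * cexp (rse_xr2_w L t * z) := rfl

theorem mg_bound_pr {g : ℝ → ℝ} (hg : Ker1 g) : ∃ C : ℝ, 0 < C ∧ ∀ L t : ℝ, 1 ≤ L →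
    ‖Mg g L t‖ ≤ C / (1 + t ^ 2) := by
  have f0 := hg.fast 0
  have f1 := hg.fast 1
  have f2 := hg.fast 2
  rw [iteratedDeriv_zero] at f0
  have hd0 : ∀ z, HasDerivAt g (iteratedDeriv 1 g z) z := by
    intro z
    rw [iteratedDeriv_one]
    exact (hg.smooth.differentiable (by simp) z).hasDerivAt
  have hd1 : ∀ z, HasDerivAt (iteratedDeriv 1 g) (iteratedDeriv 2 g z) z := by
    intro z
    rw [iteratedDeriv_succ (n := 1)]
    exact ((hg.smooth.differentiable_iteratedDeriv 1 (by exact_mod_cast WithTop.coe_lt_top _)) z).hasDerivAt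
  have c2 : Continuous (iteratedDeriv 2 g) :=
    (contDiff_infty.1 hg.smooth 2).continuous_iteratedDeriv 2 le_rfl
  have c1 : Continuous (iteratedDeriv 1 g) :=
    continuous_iff_continuousAt.2 fun z => (hd1 z).continuousAt
  have c0 : Continuous g := hg.smooth.continuous
  obtain ⟨C0, hC0, b0⟩ := rse_xr2_unif f0 c0
  obtain ⟨C2, hC2, b2⟩ := rse_xr2_unif f2 c2
  refine ⟨C0 + C2 + 1, by positivity, fun L t hL => ?_⟩
  set w := rse_xr2_w L t with hw
  have hre : w.re = 1 / (2 * L) := rse_xr2_w_re L t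
  have hre0 : 0 ≤ w.re := by rw [hre]; positivity
  have hre1 : w.re ≤ 1 / 2 := by
    rw [hre]
    exact one_div_le_one_div_of_le two_pos (by linarith)
  have p0 := rse_xr2_parts hd0 f0 f1 c1 (w := w) (by linarith)
  have p1 := rse_xr2_parts hd1 f1 f2 c2 (w := w) (by linarith)
  have e1 : w ^ 2 * Mg g L t = ∫ z : ℝ, ((iteratedDeriv 2 g z : ℝ) : ℂ) * cexp (w * z) := by
    rw [rse_xr2_Mg, ← hw, sq, mul_assoc, p0, mul_neg, p1, neg_neg]
  have n1 : t ^ 2 * ‖Mg g L t‖ ≤ C2 := by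
    have h3 := b2 w hre0 hre1
    rw [← e1, norm_mul, norm_pow] at h3
    refine le_trans (mul_le_mul_of_nonneg_right ?_ (norm_nonneg _)) h3
    have h4 : |t| ≤ ‖w‖ := by
      rw [← rse_xr2_w_im L t]
      exact abs_im_le_norm _
    rw [← sq_abs]
    exact pow_le_pow_left₀ (abs_nonneg _) h4 2
  have n0 : ‖Mg g L t‖ ≤ C0 := by
    rw [rse_xr2_Mg]
    exact b0 w hre0 hre1
  rw [le_div_iff₀ (by positivity)]
  linarith

/-- the sum over `n` -/
noncomputable def rse_xr2_J (g : ℝ → ℝ) (S T : Finset ℕ) (u : ℝ) : ℝ :=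
  ∑' n : ℕ, xS S T n / √(n : ℝ) * g (Real.log n + u)

theorem rse_xr2_summ (S T : Finset ℕ) (hS : ∀ p ∈ S, p.Prime) {s : ℂ} (hs : 0 < s.re) :
    Summable fun n : ℕ => |xS S T n| * (n : ℝ) ^ (-s.re) := by
  refine (xr1_eq S T hS s hs).1.congr fun n => ?_
  rcases eq_or_ne n 0 with rfl | hn
  · have : xS S T 0 = 0 := by
      unfold xS
      rw [if_neg (fun h => h.1 rfl)]
    rw [this]
    simp
  · rw [norm_mul, norm_real, Real.norm_eq_abs, norm_natCast_cpow_of_pos (Nat.pos_of_ne_zero hn),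
      neg_re]

theorem rse_xr2_J_cont {g : ℝ → ℝ} (hg : Ker1 g) (S T : Finset ℕ) (hS : ∀ p ∈ S, p.Prime) :
    Continuous (rse_xr2_J g S T) := by
  have f0 := hg.fast 0
  rw [iteratedDeriv_zero] at f0
  obtain ⟨C, hC⟩ := f0 0 (by norm_num)
  have hC' : ∀ z, |g z| ≤ C := fun z => by
    have := hC z
    simpa using this
  have hsum := (rse_xr2_summ S T hS (s := (1 / 2 : ℂ)) (by norm_num)).mul_right C
  unfold rse_xr2_J
  refine continuous_tsum (fun n => ?_) hsum fun n u => ?_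
  · have := hg.smooth.continuous
    fun_prop
  · rw [norm_mul, norm_div, Real.norm_eq_abs, Real.norm_eq_abs, Real.norm_eq_abs,
      abs_of_nonneg (Real.sqrt_nonneg _)]
    have h2 : |xS S T n| / √(n : ℝ) = |xS S T n| * (n : ℝ) ^ (-(1 / 2 : ℂ).re) := by
      have h3 : (-(1 / 2 : ℂ).re) = -(1 / 2 : ℝ) := by norm_num
      rw [h3, Real.rpow_neg (Nat.cast_nonneg n), ← Real.sqrt_eq_rpow, div_eq_mul_inv]
    rw [h2]
    exact mul_le_mul_of_nonneg_left (hC' _) (by positivity)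

/-- the transform of one term -/
theorem rse_xr2_term {g : ℝ → ℝ} (hg : Ker1 g) (S T : Finset ℕ) (L t : ℝ) (hL : 1 ≤ L) (n : ℕ)
    (hn : n ≠ 0) :
    Integrable (fun u : ℝ => ((xS S T n / √(n : ℝ) * g (Real.log n + u) : ℝ) : ℂ) *
      cexp (rse_xr2_w L t * u)) ∧
    ∫ u : ℝ, ((xS S T n / √(n : ℝ) * g (Real.log n + u) : ℝ) : ℂ) *
      cexp (rse_xr2_w L t * u) =
      Mg g L t * ((xS S T n : ℂ) * (n : ℂ) ^ (-(1 / 2 + 1 / (2 * L) + t * I) : ℂ)) ∧
    ∫ u : ℝ, ‖((xS S T n / √(n : ℝ) * g (Real.log n + u) : ℝ) : ℂ) *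
      cexp (rse_xr2_w L t * u)‖ =
      (∫ z : ℝ, Real.exp (1 / (2 * L) * z) * |g z|) *
        (|xS S T n| * (n : ℝ) ^ (-(1 / 2 + 1 / (2 * L) + t * I : ℂ).re)) := by
  have f0 := hg.fast 0
  rw [iteratedDeriv_zero] at f0
  have c0 : Continuous g := hg.smooth.continuous
  set w := rse_xr2_w L t with hw
  have hre : w.re = 1 / (2 * L) := rse_xr2_w_re L t
  have hre0 : 0 ≤ w.re := by rw [hre]; positivity
  have hn0 : (0 : ℝ) < n := by exact_mod_cast Nat.pos_of_ne_zero hn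
  have i1 := rse_xr2_integrable f0 c0 (w := w) (by linarith)
  set G : ℝ → ℂ := fun z => ((g z : ℝ) : ℂ) * cexp (w * z) with hG
  have e : ∀ u : ℝ, ((xS S T n / √(n : ℝ) * g (Real.log n + u) : ℝ) : ℂ) * cexp (w * u) =
      ((xS S T n / √(n : ℝ) : ℝ) : ℂ) * cexp (-(w * Real.log n)) * G (u + Real.log n) := by
    intro u
    simp only [hG]
    rw [add_comm (Real.log n) u]
    have : cexp (w * u) = cexp (-(w * Real.log n)) * cexp (w * ((u + Real.log n : ℝ) : ℂ)) := by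
      rw [← Complex.exp_add]
      congr 1
      push_cast
      ring
    rw [this]
    push_cast
    ring
  have hcpow : (n : ℂ) ^ (-(1 / 2 + 1 / (2 * L) + t * I) : ℂ) =
      ((√(n : ℝ) : ℝ) : ℂ)⁻¹ * cexp (-(w * Real.log n)) := by
    have h1 : (-(1 / 2 + 1 / (2 * L) + t * I) : ℂ) = -(1 / 2) + -w := by
      rw [hw]
      unfold rse_xr2_w
      ring
    have hnc : (n : ℂ) ≠ 0 := by exact_mod_cast hn
    rw [h1, cpow_add _ _ hnc]
    congr 1
    · rw [cpow_neg, Real.sqrt_eq_rpow, ofReal_cpow hn0.le]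
      push_cast
      rfl
    · rw [cpow_def_of_ne_zero hnc, ← natCast_log]
      congr 1
      ring
  refine ⟨?_, ?_, ?_⟩
  · simp only [e]
    exact (i1.comp_add_right (Real.log n)).const_mul _
  · simp only [e]
    rw [integral_const_mul, integral_add_right_eq_self G, hcpow, rse_xr2_Mg, ← hw]
    push_cast
    ring
  · simp only [e, norm_mul]
    rw [integral_const_mul, integral_add_right_eq_self (fun z => ‖G z‖)]
    have h2 : ∫ z : ℝ, ‖G z‖ =
        ∫ z : ℝ, Real.exp (1 / (2 * L) * z) * |g z| := by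
      refine integral_congr_ae (ae_of_all _ fun z => ?_)
      show ‖((g z : ℝ) : ℂ) * cexp (w * z)‖ = _
      rw [rse_xr2_norm, hre]
    rw [h2]
    have h3 : (n : ℝ) ^ (-(1 / 2 + 1 / (2 * L) + t * I : ℂ).re) =
        ‖(n : ℂ) ^ (-(1 / 2 + 1 / (2 * L) + t * I) : ℂ)‖ := by
      rw [norm_natCast_cpow_of_pos (Nat.pos_of_ne_zero hn), neg_re]
    rw [h3, hcpow, norm_mul, norm_inv, norm_real, norm_real, Real.norm_eq_abs, Real.norm_eq_abs,
      abs_div, abs_of_nonneg (Real.sqrt_nonneg (n : ℝ))]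
    ring

theorem rse_xr2_J_tr {g : ℝ → ℝ} (hg : Ker1 g) (S T : Finset ℕ) (hS : ∀ p ∈ S, p.Prime)
    (L t : ℝ) (hL : 1 ≤ L) :
    Integrable (fun u : ℝ => ((rse_xr2_J g S T u : ℝ) : ℂ) * cexp (rse_xr2_w L t * u)) ∧
    ∫ u : ℝ, ((rse_xr2_J g S T u : ℝ) : ℂ) * cexp (rse_xr2_w L t * u) =
      Mg g L t * LT L S T t := by
  have hx0 : xS S T 0 = 0 := by
    unfold xS
    rw [if_neg (fun h => h.1 rfl)]
  have hz : ∀ u : ℝ, ((xS S T 0 / √((0 : ℕ) : ℝ) * g (Real.log ((0 : ℕ) : ℝ) + u) : ℝ) : ℂ) *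
      cexp (rse_xr2_w L t * u) = 0 := by
    intro u
    rw [hx0, zero_div, zero_mul, ofReal_zero, zero_mul]
  have hint : ∀ n : ℕ, Integrable (fun u : ℝ =>
      ((xS S T n / √(n : ℝ) * g (Real.log n + u) : ℝ) : ℂ) * cexp (rse_xr2_w L t * u)) := by
    intro n
    rcases eq_or_ne n 0 with rfl | hn
    · simp only [hz]
      exact integrable_zero _ _ _
    · exact (rse_xr2_term hg S T L t hL n hn).1
  have hval : ∀ n : ℕ, ∫ u : ℝ, ((xS S T n / √(n : ℝ) * g (Real.log n + u) : ℝ) : ℂ) *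
      cexp (rse_xr2_w L t * u) =
      Mg g L t * ((xS S T n : ℂ) * (n : ℂ) ^ (-(1 / 2 + 1 / (2 * L) + t * I) : ℂ)) := by
    intro n
    rcases eq_or_ne n 0 with rfl | hn
    · simp only [hz]
      rw [integral_zero, hx0, ofReal_zero, zero_mul, mul_zero]
    · exact (rse_xr2_term hg S T L t hL n hn).2.1
  have hre : (1 / 2 + 1 / (2 * L) + t * I : ℂ).re = 1 / 2 + 1 / (2 * L) := by
    have : (1 / 2 + 1 / (2 * L) + t * I : ℂ) = ((1 / 2 + 1 / (2 * L) : ℝ) : ℂ) + t * I := by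
      push_cast
      ring
    rw [this]
    simp
  have hsumm := rse_xr2_summ S T hS (s := (1 / 2 + 1 / (2 * L) + t * I : ℂ)) (by
    rw [hre]
    positivity)
  have hsum : Summable fun n : ℕ => ∫ u : ℝ,
      ‖((xS S T n / √(n : ℝ) * g (Real.log n + u) : ℝ) : ℂ) * cexp (rse_xr2_w L t * u)‖ := by
    refine (hsumm.mul_left (∫ z : ℝ, Real.exp (1 / (2 * L) * z) * |g z|)).congr fun n => ?_
    rcases eq_or_ne n 0 with rfl | hn
    · simp only [hz]
      rw [hx0]
      simp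
    · exact (rse_xr2_term hg S T L t hL n hn).2.2.symm
  have e : ∀ u : ℝ, ((rse_xr2_J g S T u : ℝ) : ℂ) * cexp (rse_xr2_w L t * u) =
      ∑' n : ℕ, ((xS S T n / √(n : ℝ) * g (Real.log n + u) : ℝ) : ℂ) *
        cexp (rse_xr2_w L t * u) := by
    intro u
    unfold rse_xr2_J
    rw [tsum_mul_right, ofReal_tsum]
  constructor
  · simp only [e]
    exact rse_xr2_integrable_tsum hint hsum
  · simp only [e]
    rw [← integral_tsum_of_summable_integral_norm hint hsum]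
    simp only [hval]
    rw [tsum_mul_left]
    rfl

theorem rse_xr2_fX (g Θ : ℝ → ℝ) (L : ℝ) (R : ℕ) (S T : Finset ℕ) (u : ℝ) :
    fX g Θ L R S T u = ∑ k ∈ KL L, ∑ l ∈ KL L,
      be Θ L R k * be Θ L R l * xS S T (k * l) / √((k : ℝ) * l) *
        rse_xr2_J g S T (u + (Real.log k - Real.log l)) := by
  unfold fX rse_xr2_J
  refine Finset.sum_congr rfl fun k _ => Finset.sum_congr rfl fun l _ => ?_
  congr 1
  refine tsum_congr fun n => ?_
  rw [add_sub_assoc]

theorem rse_xr2_shift {g : ℝ → ℝ} (hg : Ker1 g) (S T : Finset ℕ) (hS : ∀ p ∈ S, p.Prime)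
    (L t : ℝ) (hL : 1 ≤ L) (c : ℝ) :
    Integrable (fun u : ℝ => ((rse_xr2_J g S T (u + c) : ℝ) : ℂ) * cexp (rse_xr2_w L t * u)) ∧
    ∫ u : ℝ, ((rse_xr2_J g S T (u + c) : ℝ) : ℂ) * cexp (rse_xr2_w L t * u) =
      cexp (-(rse_xr2_w L t * c)) * (Mg g L t * LT L S T t) := by
  obtain ⟨i1, i2⟩ := rse_xr2_J_tr hg S T hS L t hL
  set G : ℝ → ℂ := fun u => ((rse_xr2_J g S T u : ℝ) : ℂ) * cexp (rse_xr2_w L t * u) with hG
  have e : ∀ u : ℝ, ((rse_xr2_J g S T (u + c) : ℝ) : ℂ) * cexp (rse_xr2_w L t * u) =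
      cexp (-(rse_xr2_w L t * c)) * G (u + c) := by
    intro u
    simp only [hG]
    have : cexp (rse_xr2_w L t * u) =
        cexp (-(rse_xr2_w L t * c)) * cexp (rse_xr2_w L t * ((u + c : ℝ) : ℂ)) := by
      rw [← Complex.exp_add]
      congr 1
      push_cast
      ring
    rw [this]
    ring
  simp only [e]
  exact ⟨(i1.comp_add_right c).const_mul _, by
    rw [integral_const_mul, integral_add_right_eq_self G, i2]⟩

theorem rse_xr2_tr {g Θ : ℝ → ℝ} (hg : Ker1 g) (S T : Finset ℕ) (hS : ∀ p ∈ S, p.Prime) (R : ℕ)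
    (L t : ℝ) (hL : 1 ≤ L) :
    Integrable (fun u : ℝ => ((fX g Θ L R S T u : ℝ) : ℂ) * cexp (rse_xr2_w L t * u)) ∧
    ∫ u : ℝ, ((fX g Θ L R S T u : ℝ) : ℂ) * cexp (rse_xr2_w L t * u) =
      Mg g L t * (LT L S T t * (ph1 Θ L R S T t * ph2 Θ L R S T t)) := by
  have e : ∀ u : ℝ, ((fX g Θ L R S T u : ℝ) : ℂ) * cexp (rse_xr2_w L t * u) =
      ∑ k ∈ KL L, ∑ l ∈ KL L,
        ((be Θ L R k * be Θ L R l * xS S T (k * l) / √((k : ℝ) * l) : ℝ) : ℂ) *
        (((rse_xr2_J g S T (u + (Real.log k - Real.log l)) : ℝ) : ℂ) *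
          cexp (rse_xr2_w L t * u)) := by
    intro u
    rw [rse_xr2_fX, ofReal_sum, Finset.sum_mul]
    refine Finset.sum_congr rfl fun k _ => ?_
    rw [ofReal_sum, Finset.sum_mul]
    refine Finset.sum_congr rfl fun l _ => ?_
    rw [ofReal_mul, mul_assoc]
  have hi : ∀ k l : ℕ, Integrable (fun u : ℝ =>
      ((be Θ L R k * be Θ L R l * xS S T (k * l) / √((k : ℝ) * l) : ℝ) : ℂ) *
        (((rse_xr2_J g S T (u + (Real.log k - Real.log l)) : ℝ) : ℂ) *
          cexp (rse_xr2_w L t * u))) := fun k l =>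
    (rse_xr2_shift hg S T hS L t hL _).1.const_mul _
  simp only [e]
  constructor
  · exact integrable_finsetSum _ fun k _ => integrable_finsetSum _ fun l _ => hi k l
  · rw [integral_finsetSum _ fun k _ => integrable_finsetSum _ fun l _ => hi k l]
    have h2 : ∀ k ∈ KL L, ∫ u : ℝ, ∑ l ∈ KL L,
        ((be Θ L R k * be Θ L R l * xS S T (k * l) / √((k : ℝ) * l) : ℝ) : ℂ) *
        (((rse_xr2_J g S T (u + (Real.log k - Real.log l)) : ℝ) : ℂ) *
          cexp (rse_xr2_w L t * u)) =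
        ∑ l ∈ KL L, ((be Θ L R k * xS S T k : ℂ) *
            (k : ℂ) ^ (-(1 / 2 + 1 / (2 * L) + t * I) : ℂ)) *
          ((be Θ L R l * xS S T l : ℂ) * (l : ℂ) ^ (-(1 / 2 - 1 / (2 * L) - t * I) : ℂ)) *
          (Mg g L t * LT L S T t) := by
      intro k hk
      rw [integral_finsetSum _ fun l _ => hi k l]
      refine Finset.sum_congr rfl fun l hl => ?_
      rw [integral_const_mul, (rse_xr2_shift hg S T hS L t hL _).2]
      have hk0 : 0 < k := (Finset.mem_Icc.1 hk).1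
      have hl0 : 0 < l := (Finset.mem_Icc.1 hl).1
      have hkr : (0 : ℝ) < k := by exact_mod_cast hk0
      have hlr : (0 : ℝ) < l := by exact_mod_cast hl0
      have hkc : (k : ℂ) ≠ 0 := by exact_mod_cast hk0.ne'
      have hlc : (l : ℂ) ≠ 0 := by exact_mod_cast hl0.ne'
      have hpk : (k : ℂ) ^ (-(1 / 2 + 1 / (2 * L) + t * I) : ℂ) =
          ((√(k : ℝ) : ℝ) : ℂ)⁻¹ * cexp (-(rse_xr2_w L t * Real.log k)) := by
        have h1 : (-(1 / 2 + 1 / (2 * L) + t * I) : ℂ) = -(1 / 2) + -rse_xr2_w L t := by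
          unfold rse_xr2_w
          ring
        rw [h1, cpow_add _ _ hkc]
        congr 1
        · rw [cpow_neg, Real.sqrt_eq_rpow, ofReal_cpow hkr.le]
          push_cast
          rfl
        · rw [cpow_def_of_ne_zero hkc, ← natCast_log]
          congr 1
          ring
      have hpl : (l : ℂ) ^ (-(1 / 2 - 1 / (2 * L) - t * I) : ℂ) =
          ((√(l : ℝ) : ℝ) : ℂ)⁻¹ * cexp (rse_xr2_w L t * Real.log l) := by
        have h1 : (-(1 / 2 - 1 / (2 * L) - t * I) : ℂ) = -(1 / 2) + rse_xr2_w L t := by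
          unfold rse_xr2_w
          ring
        rw [h1, cpow_add _ _ hlc]
        congr 1
        · rw [cpow_neg, Real.sqrt_eq_rpow, ofReal_cpow hlr.le]
          push_cast
          rfl
        · rw [cpow_def_of_ne_zero hlc, ← natCast_log]
          congr 1
          ring
      rw [hpk, hpl, xS_mul]
      have hexp : cexp (-(rse_xr2_w L t * ((Real.log k - Real.log l : ℝ) : ℂ))) =
          cexp (-(rse_xr2_w L t * Real.log k)) * cexp (rse_xr2_w L t * Real.log l) := by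
        rw [← Complex.exp_add]
        congr 1
        push_cast
        ring
      rw [hexp, Real.sqrt_mul hkr.le]
      push_cast
      ring
    rw [Finset.sum_congr rfl h2]
    have h3 : ∑ k ∈ KL L, ∑ l ∈ KL L, ((be Θ L R k * xS S T k : ℂ) *
            (k : ℂ) ^ (-(1 / 2 + 1 / (2 * L) + t * I) : ℂ)) *
          ((be Θ L R l * xS S T l : ℂ) * (l : ℂ) ^ (-(1 / 2 - 1 / (2 * L) - t * I) : ℂ)) *
          (Mg g L t * LT L S T t) =
        (ph1 Θ L R S T t * ph2 Θ L R S T t) * (Mg g L t * LT L S T t) := by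
      unfold ph1 ph2
      rw [Finset.sum_mul_sum, Finset.sum_mul]
      refine Finset.sum_congr rfl fun k _ => ?_
      rw [Finset.sum_mul]
    rw [h3]
    ring

theorem xr2_eq_pr {g Θ : ℝ → ℝ} (hg : Ker1 g) (S T : Finset ℕ) (hS : ∀ p ∈ S, p.Prime) (R : ℕ)
    (L : ℝ) (hL : 1 ≤ L) :
    Continuous (fX g Θ L R S T) ∧
    Integrable (fun u : ℝ => fX g Θ L R S T u * Real.exp (u / (2 * L))) ∧
    ∀ t : ℝ, ∫ u : ℝ, ((fX g Θ L R S T u * Real.exp (u / (2 * L)) : ℝ) : ℂ) *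
      cexp (t * u * I) = Mg g L t * (LT L S T t * (ph1 Θ L R S T t * ph2 Θ L R S T t)) := by
  refine ⟨?_, ?_, fun t => ?_⟩
  · have e : fX g Θ L R S T = fun u => ∑ k ∈ KL L, ∑ l ∈ KL L,
      be Θ L R k * be Θ L R l * xS S T (k * l) / √((k : ℝ) * l) *
        rse_xr2_J g S T (u + (Real.log k - Real.log l)) := funext fun u => rse_xr2_fX g Θ L R S T u
    rw [e]
    have hJ := rse_xr2_J_cont hg S T hS
    refine continuous_finsetSum _ fun k _ => continuous_finsetSum _ fun l _ => ?_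
    exact continuous_const.mul (hJ.comp (continuous_id.add continuous_const))
  · have h1 := (rse_xr2_tr (Θ := Θ) hg S T hS R L 0 hL).1.re
    refine h1.congr (ae_of_all _ fun u => ?_)
    have h2 : cexp (rse_xr2_w L 0 * u) = ((Real.exp (u / (2 * L)) : ℝ) : ℂ) := by
      unfold rse_xr2_w
      rw [ofReal_exp]
      congr 1
      push_cast
      ring
    show RCLike.re (((fX g Θ L R S T u : ℝ) : ℂ) * cexp (rse_xr2_w L 0 * u)) = _
    rw [h2, ← ofReal_mul]
    exact ofReal_re _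
  · rw [← (rse_xr2_tr (Θ := Θ) hg S T hS R L t hL).2]
    refine integral_congr_ae (ae_of_all _ fun u => ?_)
    show ((fX g Θ L R S T u * Real.exp (u / (2 * L)) : ℝ) : ℂ) * cexp (t * u * I) =
      ((fX g Θ L R S T u : ℝ) : ℂ) * cexp (rse_xr2_w L t * u)
    have h2 : cexp (rse_xr2_w L t * u) =
        ((Real.exp (u / (2 * L)) : ℝ) : ℂ) * cexp (t * u * I) := by
      unfold rse_xr2_w
      rw [ofReal_exp, ← Complex.exp_add]
      congr 1
      push_cast
      ring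
    rw [h2]
    push_cast
    ring

end Pool.Agent.RSF

namespace Pool.Agent.RSF

open Pool.Agent.RSE

alias mg_bound := mg_bound_pr

alias xr2_eq := xr2_eq_pr

end Pool.Agent.RSF
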